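import Pool.Agent.E802.Sound

/-!
# Soundness of the adjoint action of basis words
-/

namespace Pool.E802

variable {L : Type*} [LieRing L]
variable {T : Tb} {H : L → Prop} {y : L} {M : ℕ} {x : ℕ → L} {N : ℕ}

theorem beq_t {a b : ℕ} (h : a = b) : Nat.beq a b = true := by subst h; exact Nat.beq_refl a

theorem beq_f {a b : ℕ} (h : a ≠ b) : Nat.beq a b = false := by
  cases hh : Nat.beq a b with
  | false => rfl
  | true => exact absurd (Nat.eq_of_beq_eq_true hh) h

theorem ble_f {a b : ℕ} (h : ¬ a ≤ b) : Nat.ble a b = false := by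
  cases hh : Nat.ble a b with
  | false => rfl
  | true => exact absurd (Nat.le_of_ble_eq_true hh) h

theorem blt_t {a b : ℕ} (h : a < b) : Nat.blt a b = true := Nat.ble_eq_true_of_le h

theorem blt_f {a b : ℕ} (h : ¬ a < b) : Nat.blt a b = false := ble_f h

omit [LieRing L] in
theorem atoms_H (hx : ∀ i, H (x i)) (m : ℕ) : ∀ w ∈ (labs m).map x, H w := by
  intro w hw
  obtain ⟨i, _, rfl⟩ := List.mem_map.1 hw
  exact hx i

theorem Rep.adb (hT : TOk T) (h7 : ∀ u : L, 7 • u = 0) (hx : ∀ i, H (x i))
    (hV : ∀ n, 2 ≤ n → n < N → ∀ b, VV T H y M n b) (hN : N ≤ 20) (k : ℕ) :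
    ∀ {b2 m2 i n b m B v : ℕ} {u : L}, 1 ≤ n → n + k ≤ N → (labs m).length = b →
      (labs m2).length = b2 → m < 128 → m2 < 128 → Dj m m2 → Rep T H y M x N n b m B v u →
      Rep T H y M x N (n + k) (b + b2) (m ||| m2) (1000 * 7 ^ k) (E802.adb T N k b2 m2 i n b m v)
        ⁅u, (bwl T y k b2 ((labs m2).map x)).getD i 0⁆ := by
  induction k with
  | zero =>
    intro b2 m2 i n b m B v u hn hnk hb hb2 hm hm2 hd h
    have e1 : (bwl T y 0 b2 ((labs m2).map x)).getD i 0 = 0 := by simp [bwl]
    have e2 : E802.adb T N 0 b2 m2 i n b m v = 0 := rfl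
    rw [e1, e2, lie_zero, Rep.zero_iff]
    exact zero_mem _
  | succ k ih =>
    intro b2 m2 i n b m B v u hn hnk hb hb2 hm hm2 hd h
    have hwd : Wd H y (k + 1) b2 ((bwl T y (k + 1) b2 ((labs m2).map x)).getD i 0) :=
      getD_wd (bwl_wd T H y (k + 1) b2 _ (by simpa using hb2) (atoms_H hx m2)) i
    by_cases hv : v = 0
    · subst hv
      have e2 : E802.adb T N (k + 1) b2 m2 i n b m 0 = 0 := rfl
      rw [e2, Rep.zero_iff]
      exact Zs_wd hwd (Rep.zero_iff.1 h)
    have hv' : Nat.beq v 0 = false := beq_f hv
    have h7k : 7 ^ k ≤ 7 ^ 20 := Nat.pow_le_pow_right (by norm_num) (by omega)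
    have h7k1 : 1 ≤ 7 ^ k := Nat.one_le_pow _ _ (by norm_num)
    have h7n : (7 : ℕ) ^ 20 = 79792266297612001 := by norm_num
    rw [h7n] at h7k
    have hp7 : 7 ^ (k + 1) = 7 * 7 ^ k := by rw [pow_succ, mul_comm]
    by_cases hk : k = 0
    · subst hk
      by_cases hi : i = 0
      · subst hi
        match b2, hb2 with
        | 0, hb2 =>
          have hm0 : m2 = 0 := labs_eq_nil m2 hm2 hb2
          subst hm0
          have e1 : (bwl T y 1 0 ((labs 0).map x)).getD 0 0 = y := by simp [bwl]
          have e2 : E802.adb T N 1 0 0 0 n b m v = E802.mulY T N n b v := by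
            simp only [E802.adb, hv', beq_t rfl, cond_false, cond_true]
          rw [show 0 + 1 = 1 from rfl, e1, e2, Nat.or_zero, add_zero]
          exact (h.mulY hT h7 hx hV hn hnk hb).mono (by norm_num)
        | 1, hb2 =>
          have hm0 := labs_single m2 hm2 hb2
          have hr := labs_rem m2 hm2 0 (by omega)
          have e1 : (bwl T y 1 1 ((labs m2).map x)).getD 0 0 = x (labAt 7 m2 0 0) := by
            have : ((labs m2).map x).getD 0 0 = x (labAt 7 m2 0 0) := by
              rw [List.getD_eq_getElem?_getD, List.getElem?_map, hr.2.1]; rfl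
            simpa [bwl] using this
          have e2 : E802.adb T N 1 1 m2 0 n b m v = E802.mulX T N n b m v (labAt 7 m2 0 0) := by
            simp only [E802.adb, hv', beq_t rfl, cond_false, cond_true, beq_f one_ne_zero]
          rw [show 0 + 1 = 1 from rfl, e1, e2]
          have := h.mulX hT h7 hx hV hn hnk hb hm hr.2.2.1 (hd.testBit hr.2.2.2)
          rw [← hm0] at this
          exact this.mono (by norm_num)
        | b2 + 2, hb2 =>
          have e1 : (bwl T y (0 + 1) (b2 + 2) ((labs m2).map x)).getD 0 0 = 0 := by simp [bwl]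
          have e2 : E802.adb T N (0 + 1) (b2 + 2) m2 0 n b m v = 0 := by
            simp only [E802.adb, hv', beq_t rfl, cond_false, cond_true,
              beq_f (show b2 + 2 ≠ 0 by omega), beq_f (show b2 + 2 ≠ 1 by omega)]
          rw [e1, e2, lie_zero, Rep.zero_iff]
          exact zero_mem _
      · have e2 : E802.adb T N (0 + 1) b2 m2 i n b m v = 0 := by
          simp only [E802.adb, hv', beq_t rfl, cond_false, cond_true, beq_f hi]
        have e1 : (bwl T y (0 + 1) b2 ((labs m2).map x)).getD i 0 = 0 := by
          have hl : (bwl T y (0 + 1) b2 ((labs m2).map x)).length ≤ 1 := by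
            rw [bwl_length hT]
            match b2 with
            | 0 => exact hT.d10.le
            | 1 => exact hT.d11.le
            | b2 + 2 => rw [show 0 + 1 = 1 from rfl, hT.d1]; omega
          rw [List.getD_eq_getElem?_getD, List.getElem?_eq_none (by omega)]; rfl
        rw [e1, e2, lie_zero, Rep.zero_iff]
        exact zero_mem _
    · obtain ⟨k, rfl⟩ : ∃ k', k = k' + 1 := ⟨k - 1, by omega⟩
      cases hD : (T.D (k + 1 + 1) b2)[i]? with
      | none =>
        have e1 : (bwl T y (k + 1 + 1) b2 ((labs m2).map x)).getD i 0 = 0 := by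
          rw [List.getD_eq_getElem?_getD]
          simp only [bwl]
          rw [List.getElem?_map, hD]; rfl
        have e2 : E802.adb T N (k + 1 + 1) b2 m2 i n b m v = 0 := by
          rw [E802.adb, hv', beq_f hk, hD]; rfl
        rw [e1, e2, lie_zero, Rep.zero_iff]
        exact zero_mem _
      | some t =>
        have e1 : (bwl T y (k + 1 + 1) b2 ((labs m2).map x)).getD i 0 =
            valOf y (bwl T y (k + 1)) (T.dim (k + 1) b2) (T.dim (k + 1) (b2 - 1)) b2
              ((labs m2).map x) t := by
          rw [List.getD_eq_getElem?_getD]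
          simp only [bwl]
          rw [List.getElem?_map, hD]; rfl
        by_cases ht : t < T.dim (k + 1) b2
        · have e2 : E802.adb T N (k + 1 + 1) b2 m2 i n b m v =
              E802.mulY T N (n + (k + 1)) (b + b2) (E802.adb T N (k + 1) b2 m2 t n b m v) +
                6 * E802.adb T N (k + 1) b2 m2 t (n + 1) b m (E802.mulY T N n b v) := by
            rw [E802.adb, hv', beq_f hk, hD]
            simp only [cond_false, blt_t ht, cond_true]
          rw [e1, e2, valOf, if_pos ht, lie_lie_eq]
          have hlab : (labs (m ||| m2)).length = b + b2 := by rw [length_labs_or hd, hb, hb2]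
          have r1 := (ih (i := t) hn (by omega) hb hb2 hm hm2 hd h).mulY hT h7 hx hV (by omega)
            (by omega) hlab
          have r2 := (ih (i := t) (n := n + 1) (by omega) (by omega) hb hb2 hm hm2 hd
            (h.mulY hT h7 hx hV hn (by omega) hb)).six h7 (by omega)
          have en : n + 1 + (k + 1) = n + (k + 1) + 1 := by omega
          rw [en] at r2
          have := (r1.add r2 (by omega)).mono (C := 1000 * 7 ^ (k + 1 + 1)) (by omega)
          exact this
        · by_cases hp : (t - T.dim (k + 1) b2) / T.dim (k + 1) (b2 - 1) < b2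
          · have e2 : E802.adb T N (k + 1 + 1) b2 m2 i n b m v =
              E802.mulX T N (n + (k + 1)) (b + (b2 - 1))
                    (m ||| (m2 ^^^ 2 ^ labAt 7 m2 ((t - T.dim (k + 1) b2) / T.dim (k + 1) (b2 - 1)) 0))
                    (E802.adb T N (k + 1) (b2 - 1) (m2 ^^^ 2 ^ labAt 7 m2 ((t - T.dim (k + 1) b2) / T.dim (k + 1) (b2 - 1)) 0)
                      ((t - T.dim (k + 1) b2) % T.dim (k + 1) (b2 - 1)) n b m v)
                    (labAt 7 m2 ((t - T.dim (k + 1) b2) / T.dim (k + 1) (b2 - 1)) 0) +
                  6 * E802.adb T N (k + 1) (b2 - 1) (m2 ^^^ 2 ^ labAt 7 m2 ((t - T.dim (k + 1) b2) / T.dim (k + 1) (b2 - 1)) 0)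
                      ((t - T.dim (k + 1) b2) % T.dim (k + 1) (b2 - 1)) (n + 1) (b + 1)
                      (m ||| 2 ^ labAt 7 m2 ((t - T.dim (k + 1) b2) / T.dim (k + 1) (b2 - 1)) 0)
                      (E802.mulX T N n b m v (labAt 7 m2 ((t - T.dim (k + 1) b2) / T.dim (k + 1) (b2 - 1)) 0)) := by
              rw [E802.adb, hv', beq_f hk, hD]
              simp only [cond_false, blt_f ht, blt_t hp, cond_true]
            rw [e1, e2, valOf, if_neg ht]
            generalize (t - T.dim (k + 1) b2) / T.dim (k + 1) (b2 - 1) = p at hp ⊢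
            generalize (t - T.dim (k + 1) b2) % T.dim (k + 1) (b2 - 1) = j
            obtain ⟨q1, q2, q3, q4⟩ := labs_rem m2 hm2 p (by omega)
            generalize labAt 7 m2 p 0 = l at q1 q2 q3 q4 ⊢
            have g1 : ((labs m2).map x).getD p 0 = x l := by
              rw [List.getD_eq_getElem?_getD, List.getElem?_map, q2]; rfl
            have g2 : ((labs m2).map x).eraseIdx p = (labs (m2 ^^^ 2 ^ l)).map x := by
              rw [List.eraseIdx_map, q1]
            rw [g1, g2, lie_lie_eq]
            have hb2' : (labs (m2 ^^^ 2 ^ l)).length = b2 - 1 := by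
              rw [q1, List.length_eraseIdx_of_lt (by omega), hb2]
            have hm2' : m2 ^^^ 2 ^ l < 128 := xor_lt hm2 (pow_lt q3)
            have hd' : Dj m (m2 ^^^ 2 ^ l) := hd.xor q4
            have hml : m.testBit l = false := hd.testBit q4
            have hlab : (labs (m ||| (m2 ^^^ 2 ^ l))).length = b + (b2 - 1) := by
              rw [length_labs_or hd', hb, hb2']
            have hmm : (m ||| (m2 ^^^ 2 ^ l)).testBit l = false := by
              rw [Nat.testBit_or, hml, xor_testBit q4]; rfl
            have r1 := (ih (i := j) hn (by omega) hb hb2' hm hm2' hd' h).mulX hT h7 hx hV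
              (by omega) (by omega) hlab (or_lt hm hm2') q3 hmm
            have hml' : (labs (m ||| 2 ^ l)).length = b + 1 := by
              rw [length_labs_or (Dj_pow hml), hb, labs_pow l q3]; rfl
            have hd'' : Dj (m ||| 2 ^ l) (m2 ^^^ 2 ^ l) := hd'.or (Dj.pow_xor q4)
            have r2 := (ih (i := j) (n := n + 1) (by omega) (by omega) hml' hb2'
              (or_lt hm (pow_lt q3)) hm2' hd''
              (h.mulX hT h7 hx hV hn (by omega) hb hm q3 hml)).six h7 (by omega)
            have en : n + 1 + (k + 1) = n + (k + 1) + 1 := by omega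
            have eb : b + 1 + (b2 - 1) = b + b2 := by omega
            have eb' : b + (b2 - 1) + 1 = b + b2 := by omega
            have em : m ||| 2 ^ l ||| (m2 ^^^ 2 ^ l) = m ||| m2 := by
              rw [Nat.or_assoc, Nat.or_comm (2 ^ l), or_xor q4]
            have em' : m ||| (m2 ^^^ 2 ^ l) ||| 2 ^ l = m ||| m2 := by
              rw [Nat.or_assoc, or_xor q4]
            rw [en, eb, em] at r2
            rw [eb', em'] at r1
            have := (r1.add r2 (by omega)).mono (C := 1000 * 7 ^ (k + 1 + 1)) (by omega)
            exact this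
          · have e2 : E802.adb T N (k + 1 + 1) b2 m2 i n b m v = 0 := by
              rw [E802.adb, hv', beq_f hk, hD]
              simp only [cond_false, blt_f ht, blt_f hp]
            have g1 : ((labs m2).map x).getD
                ((t - T.dim (k + 1) b2) / T.dim (k + 1) (b2 - 1)) 0 = 0 := by
              rw [List.getD_eq_getElem?_getD, List.getElem?_eq_none (by rw [List.length_map]; omega)]
              rfl
            rw [e1, e2, valOf, if_neg ht, g1, lie_zero, lie_zero, Rep.zero_iff]
            exact zero_mem _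

end Pool.E802
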