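import Mathlib.Data.List.Basic
import Mathlib.Data.Nat.Bitwise

/-!
# A kernel-evaluable algorithm for the completed components of the 5-Engel algebra

Vectors over `F_7` are packed into natural numbers, with 80-bit lanes.
-/

namespace Pool.E802

/-- The lane size `2 ^ 80`. -/
abbrev KB : ℕ := 1208925819614629174706176

/-- `mulRows rows v acc = acc + ∑ i, (lane i of v mod 7) * rows i`. -/
noncomputable def mulRows (rows : List ℕ) : ℕ → ℕ → ℕ :=
  List.rec (motive := fun _ => ℕ → ℕ → ℕ) (fun _ acc => acc)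
    (fun r _ ih v acc =>
      ih (Nat.div v (nat_lit 1208925819614629174706176))
        (Nat.add acc (Nat.mul (Nat.mod (Nat.mod v (nat_lit 1208925819614629174706176)) (nat_lit 7)) r)))
    rows

/-- Linear combination of rows with base-8 packed coefficients. -/
noncomputable def comb (rows : List ℕ) : ℕ → ℕ → ℕ :=
  List.rec (motive := fun _ => ℕ → ℕ → ℕ) (fun _ acc => acc)
    (fun r _ ih c acc =>
      ih (Nat.div c (nat_lit 8)) (Nat.add acc (Nat.mul (Nat.mod c (nat_lit 8)) r)))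
    rows

/-- All of the first `k` lanes are divisible by 7. -/
noncomputable def all7 (k : ℕ) : ℕ → Bool :=
  Nat.rec (motive := fun _ => ℕ → Bool) (fun _ => true)
    (fun _ ih w => cond (Nat.beq (Nat.mod (Nat.mod w (nat_lit 1208925819614629174706176)) (nat_lit 7)) (nat_lit 0))
      (ih (Nat.div w (nat_lit 1208925819614629174706176))) false) k

/-- All of the first `k` lanes are at most 6 and nothing lies beyond. -/
noncomputable def small6 (k : ℕ) : ℕ → Bool :=
  Nat.rec (motive := fun _ => ℕ → Bool) (fun w => Nat.beq w 0)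
    (fun _ ih w => cond (Nat.ble (Nat.mod w (nat_lit 1208925819614629174706176)) (nat_lit 6))
      (ih (Nat.div w (nat_lit 1208925819614629174706176))) false) k

/-- Unit rows `KB ^ off, …, KB ^ (off + len - 1)`. -/
def units (off len : ℕ) : List ℕ := (List.range' off len).map (fun i => Nat.pow KB i)

/-- The tables. -/
structure Tb where
  d : List (List (List ℕ))
  ry : List (List (List ℕ))
  rx : List (List (List (List ℕ)))

def Tb.D (T : Tb) (n b : ℕ) : List ℕ := (T.d.getD n []).getD b []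
def Tb.RY (T : Tb) (n b : ℕ) : List ℕ := (T.ry.getD n []).getD b []
def Tb.RX (T : Tb) (n b p : ℕ) : List ℕ := ((T.rx.getD n []).getD b []).getD p []
def Tb.dim (T : Tb) (n b : ℕ) : ℕ := (T.D n b).length

/-- Number of set bits of `m` below position `l`. -/
def cnt : ℕ → ℕ → ℕ
  | 0, _ => 0
  | l + 1, m => m % 2 + cnt l (m / 2)

/-- The `p`-th set bit of `m`, shifted by `l`. -/
def labAt : ℕ → ℕ → ℕ → ℕ → ℕ
  | 0, _, _, _ => 0
  | f + 1, m, p, l =>
    cond (Nat.beq (m % 2) 1) (cond (Nat.beq p 0) l (labAt f (m / 2) (p - 1) (l + 1)))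
      (labAt f (m / 2) p (l + 1))

variable (T : Tb) (N : ℕ)

/-- Right multiplication by `y` (from type `(n, b)` to `(n + 1, b)`); at the top weight `N` the result is
written in the spanning set. -/
noncomputable def mulY (n b v : ℕ) : ℕ :=
  cond (Nat.beq v 0) 0
    (cond (Nat.beq (n + 1) N) (mulRows (units 0 (T.dim n b)) v 0)
      (mulRows (T.RY (n + 1) b) v 0))

/-- Right multiplication by `x_l` (from type `(n, b)` with labels `m` to `(n + 1, b + 1)`). -/
noncomputable def mulX (n b m v l : ℕ) : ℕ :=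
  cond (Nat.beq v 0) 0
    (cond (Nat.beq (n + 1) N)
      (mulRows (units (T.dim n (b + 1) + cnt l m * T.dim n b) (T.dim n b)) v 0)
      (mulRows (T.RX (n + 1) (b + 1) (cnt l m)) v 0))

/-- Right multiplication of `v` (type `(n, b)`, labels `m`) by the basis word number `i` of type
`(k, b2)` with labels `m2`. -/
noncomputable def adb : ℕ → ℕ → ℕ → ℕ → ℕ → ℕ → ℕ → ℕ → ℕ
  | 0, _, _, _, _, _, _, _ => 0
  | k + 1, b2, m2, i, n, b, m, v =>
    cond (Nat.beq v 0) 0
      (cond (Nat.beq k 0)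
        (cond (Nat.beq i 0)
          (cond (Nat.beq b2 0) (mulY T N n b v)
            (cond (Nat.beq b2 1) (mulX T N n b m v (labAt 7 m2 0 0)) 0)) 0)
        (match (T.D (k + 1) b2)[i]? with
          | none => 0
          | some t =>
            cond (Nat.blt t (T.dim k b2))
              (mulY T N (n + k) (b + b2) (adb k b2 m2 t n b m v) +
                6 * adb k b2 m2 t (n + 1) b m (mulY T N n b v))
              (cond (Nat.blt ((t - T.dim k b2) / T.dim k (b2 - 1)) b2)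
                (mulX T N (n + k) (b + (b2 - 1))
                    (m ||| (m2 ^^^ 2 ^ labAt 7 m2 ((t - T.dim k b2) / T.dim k (b2 - 1)) 0))
                    (adb k (b2 - 1) (m2 ^^^ 2 ^ labAt 7 m2 ((t - T.dim k b2) / T.dim k (b2 - 1)) 0)
                      ((t - T.dim k b2) % T.dim k (b2 - 1)) n b m v)
                    (labAt 7 m2 ((t - T.dim k b2) / T.dim k (b2 - 1)) 0) +
                  6 * adb k (b2 - 1) (m2 ^^^ 2 ^ labAt 7 m2 ((t - T.dim k b2) / T.dim k (b2 - 1)) 0)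
                      ((t - T.dim k b2) % T.dim k (b2 - 1)) (n + 1) (b + 1)
                      (m ||| 2 ^ labAt 7 m2 ((t - T.dim k b2) / T.dim k (b2 - 1)) 0)
                      (mulX T N n b m v (labAt 7 m2 ((t - T.dim k b2) / T.dim k (b2 - 1)) 0)))
                0)))

/-- A basis word: weight, number of labels, label mask, index. -/
structure Zw where
  n : ℕ
  b : ℕ
  m : ℕ
  i : ℕ

def picks {α : Type*} : List α → List (α × List α)
  | [] => []
  | z :: S => (z, S) :: (picks S).map (fun p => (p.1, z :: p.2))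

/-- Sum over all words with `ky` letters `y` and each letter of `S` once. -/
noncomputable def engW : ℕ → ℕ → List Zw → ℕ → ℕ → ℕ → ℕ → ℕ
  | 0, _, _, _, _, _, v => v
  | f + 1, ky, S, n, b, m, v =>
    cond (Nat.beq v 0) 0
      (cond (Nat.beq ky 0) 0 (engW f (ky - 1) S (n + 1) b m (mulY T N n b v)) +
        (picks S).foldr (fun p acc =>
          engW f ky p.2 (n + p.1.n) (b + p.1.b) (m ||| p.1.m)
            (adb T N p.1.n p.1.b p.1.m p.1.i n b m v) + acc) 0)

/-- Relations. `g = 0` stands for `y` and `g = l + 1` for `x_l`. -/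
inductive Rel
  | Z (i j : ℕ)
  | C (m i j t : ℕ)
  | B (n1 m1 t g : ℕ)
  | A (n1 m1 t g n2 m2 u : ℕ)
  | E (n0 m0 t ky : ℕ) (S : List Zw)

noncomputable def mulG (g n b m v : ℕ) : ℕ :=
  cond (Nat.beq g 0) (mulY T N n b v) (mulX T N n b m v (g - 1))

def gb (g : ℕ) : ℕ := cond (Nat.beq g 0) 0 1
def gm (g : ℕ) : ℕ := cond (Nat.beq g 0) 0 (2 ^ (g - 1))

noncomputable def rawRel (B : ℕ) : Rel → ℕ
  | .Z i j => mulX T N 1 1 (2 ^ i) 1 j
  | .C m i j t =>
    mulX T N (N - 1) (B - 1) (m ||| 2 ^ i) (mulX T N (N - 2) (B - 2) m (KB ^ t) i) j +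
      6 * mulX T N (N - 1) (B - 1) (m ||| 2 ^ j) (mulX T N (N - 2) (B - 2) m (KB ^ t) j) i
  | .B n1 m1 t g =>
    mulG T N g n1 (cnt 7 m1) m1 (KB ^ t) + adb T N n1 (cnt 7 m1) m1 t 1 (gb g) (gm g) 1
  | .A n1 m1 t g n2 m2 u =>
    mulG T N g (n1 + n2) (cnt 7 m1 + cnt 7 m2) (m1 ||| m2)
        (adb T N n2 (cnt 7 m2) m2 u n1 (cnt 7 m1) m1 (KB ^ t)) +
      6 * adb T N n2 (cnt 7 m2) m2 u (n1 + 1) (cnt 7 m1 + gb g) (m1 ||| gm g)
        (mulG T N g n1 (cnt 7 m1) m1 (KB ^ t)) +
      adb T N n1 (cnt 7 m1) m1 t (n2 + 1) (cnt 7 m2 + gb g) (m2 ||| gm g)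
        (mulG T N g n2 (cnt 7 m2) m2 (KB ^ u))
  | .E n0 m0 t ky S => engW T N 5 ky S n0 (cnt 7 m0) m0 (KB ^ t)

def okS : ℕ → List Zw → Bool
  | _, [] => true
  | m, z :: S => Nat.beq (m &&& z.m) 0 && (Nat.blt z.m 128 && (Nat.beq z.b (cnt 7 z.m) &&
      (Nat.ble z.n 6 && okS (m ||| z.m) S)))

/-- Static type check of a relation for the type `(N, B)`. -/
def okRel (B : ℕ) : Rel → Bool
  | .Z i j => Nat.beq N 2 && (Nat.beq B 2 && (Nat.blt i 2 && (Nat.blt j 2 && !(Nat.beq i j))))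
  | .C m i j _ => Nat.ble 3 N && (Nat.ble 2 B && (Nat.blt m 128 && (Nat.blt i 7 && (Nat.blt j 7 &&
      (!(Nat.beq i j) && (!(m.testBit i) && (!(m.testBit j) &&
      (Nat.beq (m ||| 2 ^ i ||| 2 ^ j) (2 ^ B - 1) && Nat.beq (cnt 7 m) (B - 2)))))))))
  | .B n1 m1 _ g => Nat.ble 1 n1 && (Nat.beq (n1 + 1) N && (Nat.blt m1 128 && (Nat.ble g 7 &&
      (Nat.beq (m1 &&& gm g) 0 && (Nat.beq (m1 ||| gm g) (2 ^ B - 1) && Nat.beq (cnt 7 m1 + gb g) B)))))
  | .A n1 m1 _ g n2 m2 _ => Nat.ble 1 n1 && (Nat.ble 1 n2 && (Nat.beq (n1 + n2 + 1) N &&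
      (Nat.blt m1 128 && (Nat.blt m2 128 && (Nat.ble g 7 &&
      (Nat.beq (m1 &&& m2) 0 && (Nat.beq (m1 &&& gm g) 0 && (Nat.beq (m2 &&& gm g) 0 &&
      (Nat.beq (m1 ||| m2 ||| gm g) (2 ^ B - 1) && Nat.beq (cnt 7 m1 + cnt 7 m2 + gb g) B)))))))))
  | .E n0 m0 _ ky S => Nat.ble 1 n0 && (Nat.blt n0 N && (Nat.blt m0 128 && (okS m0 S && (Nat.beq (ky + S.length) 5 &&
      (Nat.beq (n0 + ky + (S.map Zw.n).sum) N &&
      (Nat.beq (S.foldr (fun z a => z.m ||| a) m0) (2 ^ B - 1) &&
        Nat.beq (cnt 7 m0 + (S.map Zw.b).sum) B))))))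

noncomputable def evalRel (B : ℕ) (r : Rel) : ℕ := cond (okRel N B r) (rawRel T N B r) 0

/-- Check one reduction rule: `KB ^ t` reduces to `img`. -/
noncomputable def chk1 (B TT : ℕ) (rows : List ℕ) (t img lam : ℕ) : Bool :=
  all7 TT (comb rows lam 0 + 6 * KB ^ t + mulRows ((T.D N B).map (fun i => Nat.pow KB i)) img 0)

noncomputable def chkL (B TT : ℕ) (rows : List ℕ) : ℕ → List ℕ → List ℕ → Bool
  | _, [], [] => true
  | t, i :: is, l :: ls => cond (chk1 T N B TT rows t i l) (chkL B TT rows (t + 1) is ls) false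
  | _, _, _ => false

structure Cert where
  rels : List Rel
  ly : List ℕ
  lx : List (List ℕ)

/-- The check for the type `(N, B)`. -/
noncomputable def check (B : ℕ) (c : Cert) : Bool :=
  Nat.ble c.rels.length 1000 &&
  ((T.D N B).all (fun t => Nat.blt t (T.dim (N - 1) B + B * T.dim (N - 1) (B - 1))) &&
  (Nat.beq (T.RY N B).length (T.dim (N - 1) B) &&
  (chkL T N B (T.dim (N - 1) B + B * T.dim (N - 1) (B - 1)) (c.rels.map (evalRel T N B)) 0 (T.RY N B) c.ly &&
    (List.range B).all (fun p => Nat.beq (T.RX N B p).length (T.dim (N - 1) (B - 1)) &&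
      chkL T N B (T.dim (N - 1) B + B * T.dim (N - 1) (B - 1)) (c.rels.map (evalRel T N B))
        (T.dim (N - 1) B + p * T.dim (N - 1) (B - 1)) (T.RX N B p) (c.lx.getD p [])))))

end Pool.E802
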