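import Pool.Agent.E802.C1
import Pool.Agent.E802.C2
import Pool.Agent.E802.C3
import Pool.Agent.E802.C4
import Mathlib.Tactic

set_option maxRecDepth 1000000
set_option exponentiation.threshold 100000

namespace Pool.E802

theorem chk_all (n b : ℕ) (h2 : 2 ≤ n) (hn : n ≤ 12) (hb : b < 8) :
    ∃ c, check T0 n b c = true := by
  interval_cases n <;> interval_cases b
  · exact ⟨_, chk_2_0⟩
  · exact ⟨_, chk_2_1⟩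
  · exact ⟨_, chk_2_2⟩
  · exact ⟨⟨[], [], []⟩, by decide +kernel⟩
  · exact ⟨⟨[], [], []⟩, by decide +kernel⟩
  · exact ⟨⟨[], [], []⟩, by decide +kernel⟩
  · exact ⟨⟨[], [], []⟩, by decide +kernel⟩
  · exact ⟨⟨[], [], []⟩, by decide +kernel⟩
  · exact ⟨⟨[], [], []⟩, by decide +kernel⟩
  · exact ⟨_, chk_3_1⟩
  · exact ⟨_, chk_3_2⟩
  · exact ⟨⟨[], [], []⟩, by decide +kernel⟩
  · exact ⟨⟨[], [], []⟩, by decide +kernel⟩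
  · exact ⟨⟨[], [], []⟩, by decide +kernel⟩
  · exact ⟨⟨[], [], []⟩, by decide +kernel⟩
  · exact ⟨⟨[], [], []⟩, by decide +kernel⟩
  · exact ⟨⟨[], [], []⟩, by decide +kernel⟩
  · exact ⟨_, chk_4_1⟩
  · exact ⟨_, chk_4_2⟩
  · exact ⟨_, chk_4_3⟩
  · exact ⟨⟨[], [], []⟩, by decide +kernel⟩
  · exact ⟨⟨[], [], []⟩, by decide +kernel⟩
  · exact ⟨⟨[], [], []⟩, by decide +kernel⟩
  · exact ⟨⟨[], [], []⟩, by decide +kernel⟩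
  · exact ⟨⟨[], [], []⟩, by decide +kernel⟩
  · exact ⟨_, chk_5_1⟩
  · exact ⟨_, chk_5_2⟩
  · exact ⟨_, chk_5_3⟩
  · exact ⟨_, chk_5_4⟩
  · exact ⟨⟨[], [], []⟩, by decide +kernel⟩
  · exact ⟨⟨[], [], []⟩, by decide +kernel⟩
  · exact ⟨⟨[], [], []⟩, by decide +kernel⟩
  · exact ⟨⟨[], [], []⟩, by decide +kernel⟩
  · exact ⟨_, chk_6_1⟩
  · exact ⟨_, chk_6_2⟩
  · exact ⟨_, chk_6_3⟩
  · exact ⟨_, chk_6_4⟩
  · exact ⟨_, chk_6_5⟩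
  · exact ⟨⟨[], [], []⟩, by decide +kernel⟩
  · exact ⟨⟨[], [], []⟩, by decide +kernel⟩
  · exact ⟨⟨[], [], []⟩, by decide +kernel⟩
  · exact ⟨⟨[], [], []⟩, by decide +kernel⟩
  · exact ⟨_, chk_7_2⟩
  · exact ⟨_, chk_7_3⟩
  · exact ⟨_, chk_7_4⟩
  · exact ⟨_, chk_7_5⟩
  · exact ⟨⟨[], [], []⟩, by decide +kernel⟩
  · exact ⟨⟨[], [], []⟩, by decide +kernel⟩
  · exact ⟨⟨[], [], []⟩, by decide +kernel⟩
  · exact ⟨⟨[], [], []⟩, by decide +kernel⟩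
  · exact ⟨_, chk_8_2⟩
  · exact ⟨_, chk_8_3⟩
  · exact ⟨_, chk_8_4⟩
  · exact ⟨_, chk_8_5⟩
  · exact ⟨_, chk_8_6⟩
  · exact ⟨⟨[], [], []⟩, by decide +kernel⟩
  · exact ⟨⟨[], [], []⟩, by decide +kernel⟩
  · exact ⟨⟨[], [], []⟩, by decide +kernel⟩
  · exact ⟨_, chk_9_2⟩
  · exact ⟨_, chk_9_3⟩
  · exact ⟨_, chk_9_4⟩
  · exact ⟨_, chk_9_5⟩
  · exact ⟨_, chk_9_6⟩
  · exact ⟨⟨[], [], []⟩, by decide +kernel⟩
  · exact ⟨⟨[], [], []⟩, by decide +kernel⟩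
  · exact ⟨⟨[], [], []⟩, by decide +kernel⟩
  · exact ⟨⟨[], [], []⟩, by decide +kernel⟩
  · exact ⟨_, chk_10_3⟩
  · exact ⟨_, chk_10_4⟩
  · exact ⟨_, chk_10_5⟩
  · exact ⟨_, chk_10_6⟩
  · exact ⟨_, chk_10_7⟩
  · exact ⟨⟨[], [], []⟩, by decide +kernel⟩
  · exact ⟨⟨[], [], []⟩, by decide +kernel⟩
  · exact ⟨⟨[], [], []⟩, by decide +kernel⟩
  · exact ⟨⟨[], [], []⟩, by decide +kernel⟩
  · exact ⟨⟨[], [], []⟩, by decide +kernel⟩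
  · exact ⟨_, chk_11_5⟩
  · exact ⟨_, chk_11_6⟩
  · exact ⟨⟨[], [], []⟩, by decide +kernel⟩
  · exact ⟨⟨[], [], []⟩, by decide +kernel⟩
  · exact ⟨⟨[], [], []⟩, by decide +kernel⟩
  · exact ⟨⟨[], [], []⟩, by decide +kernel⟩
  · exact ⟨⟨[], [], []⟩, by decide +kernel⟩
  · exact ⟨⟨[], [], []⟩, by decide +kernel⟩
  · exact ⟨_, chk_12_5⟩
  · exact ⟨_, chk_12_6⟩
  · exact ⟨_, chk_12_7⟩

end Pool.E802
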