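import Pool.Agent.E802.RelSound

/-!
# Soundness of the check of a type
-/

namespace Pool.E802

variable {L : Type*} [LieRing L]
variable {T : Tb} {H : L → Prop} {y : L} {M : ℕ} {N : ℕ}

theorem chk1_sound (hT : TOk T) (h7 : ∀ u : L, 7 • u = 0) {B : ℕ} (hN2 : 2 ≤ N) {rows : List ℕ}
    {X : List L}
    (hlen : rows.length ≤ 1000)
    (hrows : ∀ r ∈ rows, Bd 678223072849000 r ∧ ev r (tl T y N B X) ∈ Zs H y M N B)
    (hD : ∀ t ∈ T.D N B, t < T.dim (N - 1) B + B * T.dim (N - 1) (B - 1))
    {t img lam : ℕ}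
    (h : chk1 T N B (T.dim (N - 1) B + B * T.dim (N - 1) (B - 1)) rows t img lam = true) :
    (tl T y N B X).getD t 0 - ev img (bwl T y N B X) ∈ Zs H y M N B := by
  have hlen' : 7 * 678223072849000 * rows.length ≤ 4747561509943000000 := by omega
  obtain ⟨c1, c2⟩ := comb_spec (Zs H y M N B) (tl T y N B X) rows hrows lam (A := 0) (acc := 0)
    (Bd.zero 0) (by omega)
  rw [ev_zero, sub_zero] at c2
  have p1 : Bd (6 * 1) (6 * 1208925819614629174706176 ^ t) := Bd.smul (by norm_num) (Bd.pow t)
  have p2 : ev (6 * 1208925819614629174706176 ^ t) (tl T y N B X) = 6 • (tl T y N B X).getD t 0 := by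
    rw [ev_smul (B := 1) (by norm_num) (Bd.pow t), ev_pow]
  have hdl : ((T.D N B).map (fun i => Nat.pow KB i)).length ≤ 27 := by
    rw [List.length_map]; exact hT.dle N B
  have hbwl : bwl T y N B X = (T.D N B).map
      (valOf y (bwl T y (N - 1)) (T.dim (N - 1) B) (T.dim (N - 1) (B - 1)) B X) := by
    obtain ⟨N', rfl⟩ : ∃ N', N = N' + 2 := ⟨N - 2, by omega⟩
    rfl
  have hF : List.Forall₂ (fun w r => (AddMonoidHom.id L) w - ev r (tl T y N B X) ∈
      (⊥ : AddSubgroup L)) (bwl T y N B X) ((T.D N B).map (fun i => Nat.pow KB i)) := by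
    rw [hbwl, List.forall₂_map_left_iff, List.forall₂_map_right_iff, List.forall₂_same]
    intro t ht
    rw [AddMonoidHom.id_apply, AddSubgroup.mem_bot]
    have : ev (Nat.pow KB t) (tl T y N B X) = (tl T y N B X).getD t 0 := ev_pow t _
    rw [this, tl_getD _ _ _ _ _ (hD t ht), sub_self]
  obtain ⟨m1, m2⟩ := mulRows_spec h7 (⊥ : AddSubgroup L) (AddMonoidHom.id L) (tl T y N B X) hF
    (by
      intro r hr
      obtain ⟨i, _, rfl⟩ := List.mem_map.1 hr
      exact (Bd.pow i).mono (by norm_num)) img (A := 0) (acc := 0) (Bd.zero 0) (by omega)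
  rw [AddMonoidHom.id_apply, ev_zero, add_zero, AddSubgroup.mem_bot, sub_eq_zero] at m2
  have ht : ev (comb rows lam 0 + 6 * 1208925819614629174706176 ^ t + mulRows ((T.D N B).map (fun i => Nat.pow KB i)) img 0)
      (tl T y N B X) = 0 := ev_all7 h7 h _ (by rw [tl_length])
  have c1' : Bd 4747561509943000000 (comb rows lam 0) := c1.mono (by omega)
  have m1' : Bd 1000 (mulRows ((T.D N B).map (fun i => Nat.pow KB i)) img 0) := m1.mono (by omega)
  have cp : Bd (4747561509943000000 + 6 * 1) (comb rows lam 0 + 6 * 1208925819614629174706176 ^ t) :=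
    Bd.add (by norm_num) c1' p1
  rw [ev_add (by norm_num) cp m1', ev_add (by norm_num) c1' p1, p2, ← m2] at ht
  have h8 := h7 ((tl T y N B X).getD t 0)
  rw [show (7 : ℕ) = 6 + 1 from rfl, add_nsmul, one_nsmul] at h8
  have e : (tl T y N B X).getD t 0 - ev img (bwl T y N B X) = ev (comb rows lam 0) (tl T y N B X) := by
    generalize (tl T y N B X).getD t 0 = a at *
    generalize ev img (bwl T y N B X) = b at *
    generalize ev (comb rows lam 0) (tl T y N B X) = c at *
    have h9 : 6 • a = -a := eq_neg_of_add_eq_zero_left h8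
    rw [h9] at ht
    have h10 : c = -(-a + b) := eq_neg_of_add_eq_zero_left (by rw [← ht]; abel)
    rw [h10]; abel
  rw [e]
  exact c2

theorem chkL_spec {B TT : ℕ} {rows : List ℕ} {t : ℕ} {is ls : List ℕ}
    (h : chkL T N B TT rows t is ls = true) (i : ℕ) (hi : i < is.length) :
    ∃ lam, chk1 T N B TT rows (t + i) is[i] lam = true := by
  induction is generalizing t ls i with
  | nil => simp at hi
  | cons a is ih =>
    cases ls with
    | nil => simp [chkL] at h
    | cons l ls =>
      rw [chkL] at h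
      cases h1 : chk1 T N B TT rows t a l with
      | false => rw [h1] at h; simp at h
      | true =>
        rw [h1, cond_true] at h
        cases i with
        | zero => exact ⟨l, by simpa using h1⟩
        | succ i =>
          obtain ⟨lam, hl⟩ := ih h i (by simpa using hi)
          refine ⟨lam, ?_⟩
          have e : t + (i + 1) = t + 1 + i := by omega
          rw [e]
          simpa using hl

/-- Soundness of the check of a type. -/
theorem check_sound (hT : TOk T) (h7 : ∀ u : L, 7 • u = 0) (hz : H 0) (hy : H y)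
    (hb : ∀ u v, H u → H v → H ⁅u, v⁆)
    (hE : ∀ (ky : ℕ) (S : List L) (u : L), ky + S.length = 5 → (∀ z ∈ S, H z) → H u →
      wS y 5 ky S u = 0)
    (hM : Hyp H y M)
    (hV : ∀ n, 2 ≤ n → n < N → ∀ b, VV T H y (M + 1) n b) (hN2 : 2 ≤ N) (hN : N ≤ 13)
    {B : ℕ} (hB : B < 8) {c : Cert} (hc : check T N B c = true) :
    VV T H y (M + 1) N B := by
  intro X hX hXH
  have hx : ∀ i, H (X.getD i 0) := by
    intro i
    rw [List.getD_eq_getElem?_getD]
    cases hi : X[i]? with
    | none => exact hz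
    | some w => exact hXH w (List.mem_of_getElem? hi)
  have hXe : (labs (2 ^ B - 1)).map (fun i => X.getD i 0) = X := by
    rw [labs_full B hB]
    apply List.ext_getElem
    · simp [hX]
    · intro i h1 h2
      simp [List.getElem?_eq_getElem h2]
  simp only [check, Bool.and_eq_true, List.all_eq_true, List.mem_range] at hc
  obtain ⟨c1, c2, c3, c4, c5⟩ := hc
  have c1' : (c.rels.map (evalRel T N B)).length ≤ 1000 := by
    rw [List.length_map]; exact Nat.le_of_ble_eq_true c1
  have hrows : ∀ r ∈ c.rels.map (evalRel T N B),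
      Bd 678223072849000 r ∧ ev r (tl T y N B X) ∈ Zs H y (M + 1) N B := by
    intro r hr
    obtain ⟨q, _, rfl⟩ := List.mem_map.1 hr
    have := rel_sound (T := T) (N := N) (x := fun i => X.getD i 0) hT h7 hx hz hy hb hE hM hV hN2
      hN B q
    rwa [hXe] at this
  have hD : ∀ t ∈ T.D N B, t < T.dim (N - 1) B + B * T.dim (N - 1) (B - 1) :=
    fun t ht => Nat.le_of_ble_eq_true (c2 t ht)
  have hn1 : (T.RY N B).length = T.dim (N - 1) B := Nat.eq_of_beq_eq_true c3
  refine ⟨?_, ?_⟩
  · rw [List.forall₂_iff_get]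
    refine ⟨by rw [bwl_length hT, hn1], ?_⟩
    intro i h1 h2
    obtain ⟨lam, hl⟩ := chkL_spec c4 i h2
    rw [zero_add] at hl
    have hi : i < T.dim (N - 1) B := by rwa [bwl_length hT] at h1
    have := chk1_sound (H := H) (M := M + 1) hT h7 hN2 c1' hrows hD hl
    rw [tl_getD _ _ _ _ _ (by omega), valOf, if_pos hi, getElem_getD _ _ h1] at this
    exact this
  · intro p hp
    obtain ⟨d1, d2⟩ := c5 p hp
    have hnx : (T.RX N B p).length = T.dim (N - 1) (B - 1) := Nat.eq_of_beq_eq_true d1
    rw [List.forall₂_iff_get]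
    refine ⟨by rw [bwl_length hT, hnx], ?_⟩
    intro i h1 h2
    obtain ⟨lam, hl⟩ := chkL_spec d2 i h2
    have hi : i < T.dim (N - 1) (B - 1) := by rwa [bwl_length hT] at h1
    have hq : T.dim (N - 1) B + p * T.dim (N - 1) (B - 1) + i - T.dim (N - 1) B =
        i + T.dim (N - 1) (B - 1) * p := by rw [mul_comm p]; omega
    have hdiv : (i + T.dim (N - 1) (B - 1) * p) / T.dim (N - 1) (B - 1) = p := by
      rw [Nat.add_mul_div_left _ _ (by omega), Nat.div_eq_of_lt hi, zero_add]
    have hmod : (i + T.dim (N - 1) (B - 1) * p) % T.dim (N - 1) (B - 1) = i := by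
      rw [Nat.add_mul_mod_self_left, Nat.mod_eq_of_lt hi]
    have hle : (p + 1) * T.dim (N - 1) (B - 1) ≤ B * T.dim (N - 1) (B - 1) :=
      Nat.mul_le_mul_right _ (by omega)
    rw [Nat.succ_mul] at hle
    have := chk1_sound (H := H) (M := M + 1) hT h7 hN2 c1' hrows hD hl
    rw [tl_getD _ _ _ _ _ (by omega), valOf, if_neg (by omega), hq, hdiv, hmod,
      getElem_getD _ _ h1] at this
    exact this

end Pool.E802
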