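import Pool.Agent.E802.Adb

/-!
# The symmetrised words and the soundness of `engW`
-/

namespace Pool.E802

/-! ### `picks` -/

theorem picks_perm {α : Type*} {S : List α} {p : α × List α} (h : p ∈ picks S) :
    S.Perm (p.1 :: p.2) := by
  induction S generalizing p with
  | nil => simp [picks] at h
  | cons z S ih =>
    simp only [picks, List.mem_cons, List.mem_map] at h
    rcases h with h | ⟨q, hq, rfl⟩
    · rw [h]
    · exact ((ih hq).cons z).trans (List.Perm.swap _ _ _)

theorem picks_map {α β : Type*} (f : α → β) (S : List α) :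
    picks (S.map f) = (picks S).map (fun p => (f p.1, p.2.map f)) := by
  induction S with
  | nil => rfl
  | cons z S ih =>
    simp only [List.map_cons, picks, ih, List.map_map]
    rfl

theorem picks_length {α : Type*} (S : List α) : (picks S).length = S.length := by
  induction S with
  | nil => rfl
  | cons z S ih => simp [picks, ih]

variable {L : Type*} [LieRing L]

/-- Sum over all words of length `f` in `ky` letters `y` and each letter of `S` once, applied to `u`
(`f = ky + S.length`). -/
def wS (y : L) : ℕ → ℕ → List L → L → L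
  | 0, _, _, u => u
  | f + 1, ky, S, u => (if ky = 0 then 0 else wS y f (ky - 1) S ⁅u, y⁆) +
      ((picks S).map (fun p => wS y f ky p.2 ⁅u, p.1⁆)).sum

variable {T : Tb} {H : L → Prop} {y : L} {M : ℕ} {x : ℕ → L} {N : ℕ}

/-- The value of a basis word given by a `Zw`. -/
def zval (T : Tb) (y : L) (x : ℕ → L) (z : Zw) : L :=
  (bwl T y z.n z.b ((labs z.m).map x)).getD z.i 0

theorem zval_wd (hx : ∀ i, H (x i)) (z : Zw) (hz : (labs z.m).length = z.b) :
    Wd H y z.n z.b (zval T y x z) :=
  getD_wd (bwl_wd T H y z.n z.b _ (by simpa using hz) (atoms_H hx z.m)) z.i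

theorem sum_mem_Zs {n b : ℕ} {l : List L} (h : ∀ w ∈ l, w ∈ Zs H y M n b) : l.sum ∈ Zs H y M n b :=
  list_sum_mem h

theorem wS_Zs (hx : ∀ i, H (x i)) (f : ℕ) : ∀ {ky : ℕ} {S : List Zw} {n b : ℕ} {u : L},
    ky + S.length = f → (∀ z ∈ S, (labs z.m).length = z.b) → u ∈ Zs H y M n b →
    wS y f ky (S.map (zval T y x)) u ∈
      Zs H y M (n + ky + (S.map Zw.n).sum) (b + (S.map Zw.b).sum) := by
  induction f with
  | zero =>
    intro ky S n b u hf hS hu
    have h1 : ky = 0 := by omega
    have h2 : S = [] := List.eq_nil_of_length_eq_zero (by omega)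
    subst h1 h2
    simpa [wS] using hu
  | succ f ih =>
    intro ky S n b u hf hS hu
    rw [wS]
    refine add_mem ?_ ?_
    · split_ifs with h
      · exact zero_mem _
      · have := ih (ky := ky - 1) (S := S) (by omega) hS (Zs_y hu)
        have e : n + 1 + (ky - 1) = n + ky := by omega
        rwa [e] at this
    · rw [picks_map, List.map_map]
      refine sum_mem_Zs ?_
      intro w hw
      simp only [List.mem_map, Function.comp] at hw
      obtain ⟨p, hp, rfl⟩ := hw
      have hperm := picks_perm hp
      have hlen := hperm.length_eq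
      simp only [List.length_cons] at hlen
      have h1 := ih (ky := ky) (S := p.2) (by omega)
        (fun z hz => hS z (hperm.mem_iff.2 (List.mem_cons_of_mem _ hz)))
        (Zs_wd (zval_wd (T := T) (y := y) hx p.1
          (hS _ (hperm.mem_iff.2 (List.mem_cons_self)))) hu)
      have e1 : (S.map Zw.n).sum = p.1.n + (p.2.map Zw.n).sum := by
        have := (hperm.map Zw.n).sum_eq
        simpa using this
      have e2 : (S.map Zw.b).sum = p.1.b + (p.2.map Zw.b).sum := by
        have := (hperm.map Zw.b).sum_eq
        simpa using this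
      rw [e1, e2]
      have e3 : n + ky + (p.1.n + (p.2.map Zw.n).sum) = n + p.1.n + ky + (p.2.map Zw.n).sum := by
        omega
      have e4 : b + (p.1.b + (p.2.map Zw.b).sum) = b + p.1.b + (p.2.map Zw.b).sum := by omega
      rw [e3, e4]
      exact h1

theorem foldr_rep {α : Type*} {n b m Bf : ℕ} (P : List α) (F : α → ℕ) (G : α → L)
    (h : ∀ p ∈ P, Rep T H y M x N n b m Bf (F p) (G p)) (hlt : P.length * Bf < 1208925819614629174706176) :
    Rep T H y M x N n b m (P.length * Bf) (P.foldr (fun p acc => F p + acc) 0) (P.map G).sum := by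
  induction P with
  | nil =>
    simp only [List.foldr_nil, List.map_nil, List.sum_nil]
    rw [Rep.zero_iff]
    exact zero_mem _
  | cons a P ih =>
    simp only [List.length_cons] at hlt ⊢
    rw [Nat.succ_mul] at hlt ⊢
    simp only [List.foldr_cons, List.map_cons, List.sum_cons]
    have h1 := ih (fun p hp => h p (by simp [hp])) (by omega)
    have h2 := (h a (by simp)).add h1 (by omega)
    exact h2.mono (by omega)

/-- The union of the masks. -/
def orS (S : List Zw) : ℕ := S.foldr (fun z a => z.m ||| a) 0

theorem orS_perm {S S' : List Zw} (h : S.Perm S') : orS S = orS S' := by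
  unfold orS
  induction h with
  | nil => rfl
  | cons a _ ih => simp only [List.foldr_cons, ih]
  | swap a b l =>
    simp only [List.foldr_cons]
    rw [← Nat.or_assoc, ← Nat.or_assoc, Nat.or_comm b.m a.m]
  | trans _ _ h1 h2 => exact h1.trans h2

theorem Rep.engW (hT : TOk T) (h7 : ∀ u : L, 7 • u = 0) (hx : ∀ i, H (x i))
    (hV : ∀ n, 2 ≤ n → n < N → ∀ b, VV T H y M n b) (hN : N ≤ 20) (f : ℕ) :
    ∀ {ky : ℕ} {S : List Zw} {n b m v : ℕ} {u : L}, ky + S.length = f → f ≤ 5 → 1 ≤ n →
      n + ky + (S.map Zw.n).sum ≤ N → (labs m).length = b → m < 128 →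
      (∀ z ∈ S, (labs z.m).length = z.b ∧ z.m < 128 ∧ z.n ≤ 6 ∧ Dj m z.m) →
      S.Pairwise (fun z z' => Dj z.m z'.m) →
      Rep T H y M x N n b m 117649000 v u →
      Rep T H y M x N (n + ky + (S.map Zw.n).sum) (b + (S.map Zw.b).sum) (m ||| orS S)
        (117649000 * 6 ^ f) (E802.engW T N f ky S n b m v)
        (wS y f ky (S.map (zval T y x)) u) := by
  induction f with
  | zero =>
    intro ky S n b m v u hf _ _ _ _ _ _ _ h
    have h1 : ky = 0 := by omega
    have h2 : S = [] := List.eq_nil_of_length_eq_zero (by omega)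
    subst h1 h2
    simpa [wS, E802.engW, orS] using h
  | succ f ih =>
    intro ky S n b m v u hf hf5 hn hnN hb hm hS hP h
    by_cases hv : v = 0
    · subst hv
      have e2 : E802.engW T N (f + 1) ky S n b m 0 = 0 := rfl
      rw [e2, Rep.zero_iff]
      exact wS_Zs hx (f + 1) hf (fun z hz => (hS z hz).1) (Rep.zero_iff.1 h)
    have h6 : 6 ^ f ≤ 6 ^ 5 := Nat.pow_le_pow_right (by norm_num) (by omega)
    have h6n : (6 : ℕ) ^ 5 = 7776 := by norm_num
    rw [h6n] at h6
    have h6s : 6 ^ (f + 1) = 6 * 6 ^ f := by rw [pow_succ, mul_comm]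
    rw [E802.engW, beq_f hv, cond_false, wS]
    have hA : Rep T H y M x N (n + ky + (S.map Zw.n).sum) (b + (S.map Zw.b).sum) (m ||| orS S)
        (117649000 * 6 ^ f)
        (cond (Nat.beq ky 0) 0 (E802.engW T N f (ky - 1) S (n + 1) b m (E802.mulY T N n b v)))
        (if ky = 0 then 0 else wS y f (ky - 1) (S.map (zval T y x)) ⁅u, y⁆) := by
      by_cases hk : ky = 0
      · rw [beq_t hk, if_pos hk, cond_true, Rep.zero_iff]
        exact zero_mem _
      · rw [beq_f hk, if_neg hk, cond_false]
        have := ih (ky := ky - 1) (S := S) (n := n + 1) (b := b) (m := m) (by omega) (by omega)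
          (by omega) (by omega) hb hm hS hP
          ((h.mulY hT h7 hx hV hn (by omega) hb).mono (by norm_num))
        have e : n + 1 + (ky - 1) = n + ky := by omega
        rwa [e] at this
    have hsum : Rep T H y M x N (n + ky + (S.map Zw.n).sum) (b + (S.map Zw.b).sum) (m ||| orS S)
        ((picks S).length * (117649000 * 6 ^ f))
        ((picks S).foldr (fun p acc =>
          E802.engW T N f ky p.2 (n + p.1.n) (b + p.1.b) (m ||| p.1.m)
            (E802.adb T N p.1.n p.1.b p.1.m p.1.i n b m v) + acc) 0)
        (((picks S).map (fun p => wS y f ky (p.2.map (zval T y x)) ⁅u, zval T y x p.1⁆)).sum) := by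
      refine foldr_rep (picks S) (fun p => E802.engW T N f ky p.2 (n + p.1.n) (b + p.1.b) (m ||| p.1.m)
            (E802.adb T N p.1.n p.1.b p.1.m p.1.i n b m v))
            (fun p => wS y f ky (p.2.map (zval T y x)) ⁅u, zval T y x p.1⁆) ?_ ?_
      · intro p hp
        have hperm := picks_perm hp
        have hlen := hperm.length_eq
        simp only [List.length_cons] at hlen
        have hp1 : p.1 ∈ S := hperm.mem_iff.2 List.mem_cons_self
        have hp2 : ∀ z ∈ p.2, z ∈ S := fun z hz => hperm.mem_iff.2 (List.mem_cons_of_mem _ hz)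
        obtain ⟨a1, a2, a3, a4⟩ := hS p.1 hp1
        have hP' : (p.1 :: p.2).Pairwise (fun z z' => Dj z.m z'.m) :=
          hperm.pairwise hP (fun h => Dj.symm h)
        rw [List.pairwise_cons] at hP'
        have e1 : (S.map Zw.n).sum = p.1.n + (p.2.map Zw.n).sum := by
          have := (hperm.map Zw.n).sum_eq
          simpa using this
        have e2 : (S.map Zw.b).sum = p.1.b + (p.2.map Zw.b).sum := by
          have := (hperm.map Zw.b).sum_eq
          simpa using this
        have e3 : orS S = p.1.m ||| orS p.2 := by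
          rw [orS_perm hperm]; rfl
        have h7n : 1000 * 7 ^ p.1.n ≤ 117649000 := by
          have : 7 ^ p.1.n ≤ 7 ^ 6 := Nat.pow_le_pow_right (by norm_num) a3
          norm_num at this ⊢
          omega
        have hr := (h.adb hT h7 hx hV hN p.1.n (i := p.1.i) hn (by omega) hb a1 hm a2 a4).mono h7n
        have := ih (ky := ky) (S := p.2) (by omega) (by omega) (by omega) (by omega)
          (by rw [length_labs_or a4, hb, a1]) (or_lt hm a2)
          (fun z hz => ⟨(hS z (hp2 z hz)).1, (hS z (hp2 z hz)).2.1, (hS z (hp2 z hz)).2.2.1,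
            ((hS z (hp2 z hz)).2.2.2).or (hP'.1 z hz)⟩) hP'.2 hr
        rw [e1, e2, e3, ← Nat.or_assoc]
        have e4 : n + ky + (p.1.n + (p.2.map Zw.n).sum) = n + p.1.n + ky + (p.2.map Zw.n).sum := by
          omega
        have e5 : b + (p.1.b + (p.2.map Zw.b).sum) = b + p.1.b + (p.2.map Zw.b).sum := by omega
        rw [e4, e5]
        exact this
      · rw [picks_length]
        have : S.length ≤ 5 := by omega
        have h3 : S.length * (117649000 * 6 ^ f) ≤ 5 * (117649000 * 6 ^ f) :=
          Nat.mul_le_mul_right _ this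
        omega
    rw [picks_length] at hsum
    have hle : S.length * (117649000 * 6 ^ f) ≤ 5 * (117649000 * 6 ^ f) :=
      Nat.mul_le_mul_right _ (by omega)
    have := (hA.add hsum (by omega)).mono (C := 117649000 * 6 ^ (f + 1)) (by omega)
    rw [picks_map, List.map_map]
    exact this

end Pool.E802
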