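import Pool.Agent.E802.Graded
import Pool.Agent.E802.Eng

/-!
# The multilinear Engel identity in the graded Lie ring

The identity is obtained from the group law by repeatedly passing to the subgroup
`{(f₀, f₁) | f₀⁻¹ f₁ ∈ Γ s}` of `G × G` with a shifted N-series (a Host–Kra cube construction).
-/

universe u

namespace Pool.E802

open scoped commutatorElement

/-! ### Elementary properties of `wS` -/

section
variable {L : Type*} [LieRing L]

theorem wS_add (y : L) (f : ℕ) : ∀ (ky : ℕ) (S : List L) (u v : L),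
    wS y f ky S (u + v) = wS y f ky S u + wS y f ky S v := by
  induction f with
  | zero => intro ky S u v; rfl
  | succ f ih =>
    intro ky S u v
    simp only [wS, add_lie, ih, List.sum_map_add]
    split_ifs
    · abel
    · abel

theorem wS_zero (y : L) (f ky : ℕ) (S : List L) : wS y f ky S 0 = 0 := by
  have := wS_add y f ky S 0 0
  rw [add_zero] at this
  exact left_eq_add.1 this

theorem wS_nsmul (y : L) (f ky : ℕ) (S : List L) (k : ℕ) (u : L) :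
    wS y f ky S (k • u) = k • wS y f ky S u := by
  induction k with
  | zero => simp [wS_zero]
  | succ k ih => rw [succ_nsmul, succ_nsmul, wS_add, ih]

theorem wS_ky0 (y y' : L) (f : ℕ) : ∀ (S : List L) (u : L), wS y f 0 S u = wS y' f 0 S u := by
  induction f with
  | zero => intro S u; rfl
  | succ f ih =>
    intro S u
    simp only [wS, if_true, zero_add]
    congr 1
    apply List.map_congr_left
    intro p _
    exact ih _ _

/-- Marking one of the letters `y`. -/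
theorem wS_cons (y : L) (f : ℕ) : ∀ (ky : ℕ) (S : List L) (u : L), ky + 1 + S.length = f →
    wS y f ky (y :: S) u = (ky + 1) • wS y f (ky + 1) S u := by
  induction f with
  | zero => intro ky S u h; omega
  | succ f ih =>
    intro ky S u h
    have h1 : (picks S).map (fun p => wS y f ky (y :: p.2) ⁅u, p.1⁆) =
        (picks S).map (fun p => (ky + 1) • wS y f (ky + 1) p.2 ⁅u, p.1⁆) := by
      apply List.map_congr_left
      intro p hp
      have := (picks_perm hp).length_eq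
      simp only [List.length_cons] at this
      exact ih ky p.2 _ (by omega)
    have h2 : ((picks S).map (fun p => (ky + 1) • wS y f (ky + 1) p.2 ⁅u, p.1⁆)).sum =
        (ky + 1) • ((picks S).map (fun p => wS y f (ky + 1) p.2 ⁅u, p.1⁆)).sum := by
      rw [List.smul_sum, List.map_map]
      rfl
    have h3 : (if ky = 0 then 0 else wS y f (ky - 1) (y :: S) ⁅u, y⁆) = ky • wS y f ky S ⁅u, y⁆ := by
      split_ifs with h0
      · subst h0; simp
      · obtain ⟨k, rfl⟩ : ∃ k, ky = k + 1 := ⟨ky - 1, by omega⟩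
        rw [Nat.add_sub_cancel]
        exact ih k S _ (by omega)
    simp only [wS, picks, List.map_cons, List.sum_cons, List.map_map]
    have h4 : (List.map ((fun p : L × List L => wS y f ky p.2 ⁅u, p.1⁆) ∘
        fun p => (p.1, y :: p.2)) (picks S)) =
        (picks S).map (fun p => wS y f ky (y :: p.2) ⁅u, p.1⁆) := rfl
    rw [h4, h1, h2, h3, if_neg (by omega), Nat.add_sub_cancel, smul_add, ← add_assoc,
      ← succ_nsmul]

theorem wS_nil (y : L) (f ky : ℕ) (u : L) : wS y (f + 1) (ky + 1) [] u = wS y f ky [] ⁅u, y⁆ := by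
  simp [wS, picks]

end

namespace NSer

variable {G : Type u} [Group G] (S : NSer G)

/-- The group of pairs congruent modulo `Γ s`. -/
def Sh (s : ℕ) : Subgroup (G × G) where
  carrier := {f | f.1⁻¹ * f.2 ∈ S.Γ s}
  mul_mem' := by
    intro f g hf hg
    have h1 : (f * g).1⁻¹ * (f * g).2 = g.1⁻¹ * (f.1⁻¹ * f.2) * g.1⁻¹⁻¹ * (g.1⁻¹ * g.2) := by
      simp only [Prod.fst_mul, Prod.snd_mul]; group
    change (f * g).1⁻¹ * (f * g).2 ∈ S.Γ s
    rw [h1]
    exact mul_mem ((S.normal s).conj_mem _ hf _) hg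
  one_mem' := by
    change (1 : G × G).1⁻¹ * (1 : G × G).2 ∈ S.Γ s
    simp
  inv_mem' := by
    intro f hf
    have h1 : (f⁻¹).1⁻¹ * (f⁻¹).2 = f.1 * (f.1⁻¹ * f.2)⁻¹ * f.1⁻¹ := by
      simp only [Prod.fst_inv, Prod.snd_inv]; group
    change (f⁻¹).1⁻¹ * (f⁻¹).2 ∈ S.Γ s
    rw [h1]
    exact (S.normal s).conj_mem _ (inv_mem hf) _

/-- The shifted N-series. -/
def shift (s : ℕ) : NSer (S.Sh s) where
  Γ n :=
    { carrier := {f | (f : G × G).1 ∈ S.Γ n ∧ (f : G × G).1⁻¹ * (f : G × G).2 ∈ S.Γ (n + s)}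
      mul_mem' := by
        rintro f g ⟨hf1, hf2⟩ ⟨hg1, hg2⟩
        refine ⟨mul_mem hf1 hg1, ?_⟩
        have h1 : ((f * g : S.Sh s) : G × G).1⁻¹ * ((f * g : S.Sh s) : G × G).2 =
            (g : G × G).1⁻¹ * ((f : G × G).1⁻¹ * (f : G × G).2) * (g : G × G).1⁻¹⁻¹ *
              ((g : G × G).1⁻¹ * (g : G × G).2) := by
          simp only [Subgroup.coe_mul, Prod.fst_mul, Prod.snd_mul]; group
        rw [h1]
        exact mul_mem ((S.normal _).conj_mem _ hf2 _) hg2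
      one_mem' := by
        refine ⟨one_mem _, ?_⟩
        simp
      inv_mem' := by
        rintro f ⟨hf1, hf2⟩
        refine ⟨inv_mem hf1, ?_⟩
        have h1 : ((f⁻¹ : S.Sh s) : G × G).1⁻¹ * ((f⁻¹ : S.Sh s) : G × G).2 =
            (f : G × G).1 * ((f : G × G).1⁻¹ * (f : G × G).2)⁻¹ * (f : G × G).1⁻¹ := by
          simp only [Subgroup.coe_inv, Prod.fst_inv, Prod.snd_inv]; group
        rw [h1]
        exact (S.normal _).conj_mem _ (inv_mem hf2) _ }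
  top := by
    rw [eq_top_iff]
    intro f _
    refine ⟨S.mem0 _, ?_⟩
    rw [zero_add]
    exact f.2
  anti n := by
    rintro f ⟨h1, h2⟩
    exact ⟨S.anti n h1, S.le_of_le (by omega) h2⟩
  comm := by
    rintro m n f g ⟨hf1, hf2⟩ ⟨hg1, hg2⟩
    refine ⟨S.comm _ _ _ _ hf1 hg1, ?_⟩
    have e1 : ((⁅f, g⁆ : S.Sh s) : G × G).1 = ⁅(f : G × G).1, (g : G × G).1⁆ := rfl
    have e2 : ((⁅f, g⁆ : S.Sh s) : G × G).2 = ⁅(f : G × G).2, (g : G × G).2⁆ := rfl
    rw [e1, e2, ← S.pr_eq]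
    have ef : (f : G × G).2 = (f : G × G).1 * ((f : G × G).1⁻¹ * (f : G × G).2) := by group
    have eg : (g : G × G).2 = (g : G × G).1 * ((g : G × G).1⁻¹ * (g : G × G).2) := by group
    rw [ef, eg, map_commutatorElement, map_commutatorElement, map_mul, map_mul]
    exact (mul_eq (S.pr_commute hf2 hg1 (by omega)) (S.pr_commute hf2 hg2 (by omega))
      (S.pr_commute hg2 hf1 (by omega))).symm

theorem mem_shift {s n : ℕ} {f : S.Sh s} : f ∈ (S.shift s).Γ n ↔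
    (f : G × G).1 ∈ S.Γ n ∧ (f : G × G).1⁻¹ * (f : G × G).2 ∈ S.Γ (n + s) := Iff.rfl

/-- `u'` is the class of a pair with base class `u0` and derivative class `u1`. -/
def Dd (s n : ℕ) (u' : (S.shift s).Gr) (u0 u1 : S.Gr) : Prop :=
  ∃ f ∈ (S.shift s).Γ n, u' = (S.shift s).ι n f ∧ u0 = S.ι n (f : G × G).1 ∧
    u1 = S.ι (n + s) ((f : G × G).1⁻¹ * (f : G × G).2)

variable {S} {s : ℕ}

theorem Dd_zero (n : ℕ) : S.Dd s n 0 0 0 := by
  refine ⟨1, one_mem _, ((S.shift s).ι_one n).symm, (S.ι_one n).symm, ?_⟩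
  have : ((1 : S.Sh s) : G × G).1⁻¹ * ((1 : S.Sh s) : G × G).2 = 1 := by simp
  rw [this, S.ι_one]

theorem Dd_add (_hs : 1 ≤ s) {n : ℕ} {u' v' : (S.shift s).Gr} {u0 u1 v0 v1 : S.Gr}
    (hu : S.Dd s n u' u0 u1) (hv : S.Dd s n v' v0 v1) :
    S.Dd s n (u' + v') (u0 + v0) (u1 + v1) := by
  obtain ⟨f, hf, rfl, rfl, rfl⟩ := hu
  obtain ⟨g, hg, rfl, rfl, rfl⟩ := hv
  refine ⟨f * g, mul_mem hf hg, ((S.shift s).ι_mul hf hg).symm, (S.ι_mul hf.1 hg.1).symm, ?_⟩
  rw [← S.ι_mul hf.2 hg.2, S.ι_eq_iff (mul_mem hf.2 hg.2) (mul_mem hf hg).2]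
  have h1 : ((f * g : S.Sh s) : G × G).1⁻¹ * ((f * g : S.Sh s) : G × G).2 =
      (g : G × G).1⁻¹ * ((f : G × G).1⁻¹ * (f : G × G).2) * (g : G × G).1⁻¹⁻¹ *
        ((g : G × G).1⁻¹ * (g : G × G).2) := by
    simp only [Subgroup.coe_mul, Prod.fst_mul, Prod.snd_mul]; group
  rw [h1]
  have hf2 := hf.2
  generalize (f : G × G).1⁻¹ * (f : G × G).2 = x at hf2 ⊢
  have c1 : Commute (S.pr (n + s + 1) (g : G × G).1⁻¹) (S.pr (n + s + 1) x) :=
    S.pr_commute (S.mem0 _) hf2 (by omega)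
  rw [map_mul _ x, map_mul _ ((g : G × G).1⁻¹ * x * (g : G × G).1⁻¹⁻¹), map_mul _ _ (g : G × G).1⁻¹⁻¹,
    map_mul _ _ x, map_inv _ (g : G × G).1⁻¹, c1.eq, mul_inv_cancel_right]

variable (S) in
theorem lie_aux (hs : 1 ≤ s) {m n : ℕ} {a x b y : G} (ha : a ∈ S.Γ m) (hx : x ∈ S.Γ (m + s))
    (hb : b ∈ S.Γ n) (hy : y ∈ S.Γ (n + s)) :
    S.pr (m + n + 1 + s + 1) (⁅a, y⁆ * ⁅x, b⁆) =
      S.pr (m + n + 1 + s + 1) (⁅a, b⁆⁻¹ * ⁅a * x, b * y⁆) := by
  generalize hK : m + n + 1 + s + 1 = k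
  have e3 : ⁅a * x, b * y⁆ = a * (⁅x, b⁆ * (b * ⁅x, y⁆ * b⁻¹)) * a⁻¹ *
      (⁅a, b⁆ * (b * ⁅a, y⁆ * b⁻¹)) := by
    simp only [commutatorElement_def]; group
  have mxb : ⁅x, b⁆ ∈ S.Γ (m + n + 1 + s) := S.comm_le hx hb (by omega)
  have may : ⁅a, y⁆ ∈ S.Γ (m + n + 1 + s) := S.comm_le ha hy (by omega)
  have c1 : S.pr k ⁅x, y⁆ = 1 := S.pr_one.2 (S.comm_le hx hy (by omega))
  have c2 : Commute (S.pr k a) (S.pr k ⁅x, b⁆) := S.pr_commute ha mxb (by omega)
  have c3 : Commute (S.pr k b) (S.pr k ⁅a, y⁆) := S.pr_commute hb may (by omega)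
  have c4 : Commute (S.pr k ⁅x, b⁆) (S.pr k ⁅a, b⁆) :=
    S.pr_commute mxb (S.comm _ _ _ _ ha hb) (by omega)
  have c5 : Commute (S.pr k ⁅x, b⁆) (S.pr k ⁅a, y⁆) := S.pr_commute mxb may (by omega)
  rw [e3]
  simp only [map_mul, map_inv]
  rw [c1, mul_one, mul_inv_cancel, mul_one, c2.eq, mul_inv_cancel_right, c3.eq,
    mul_inv_cancel_right, ← mul_assoc (S.pr k ⁅x, b⁆), c4.eq, mul_assoc (S.pr k ⁅a, b⁆), c5.eq,
    inv_mul_cancel_left]

theorem Dd_lie (hs : 1 ≤ s) {m n : ℕ} {u' v' : (S.shift s).Gr} {u0 u1 v0 v1 : S.Gr}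
    (hu : S.Dd s m u' u0 u1) (hv : S.Dd s n v' v0 v1) :
    S.Dd s (m + n + 1) ⁅u', v'⁆ ⁅u0, v0⁆ (⁅u0, v1⁆ + ⁅u1, v0⁆) := by
  obtain ⟨f, hf, rfl, rfl, rfl⟩ := hu
  obtain ⟨g, hg, rfl, rfl, rfl⟩ := hv
  have hfg := (S.shift s).comm m n f g hf hg
  refine ⟨⁅f, g⁆, hfg, (S.shift s).lie_ι hf hg, S.lie_ι hf.1 hg.1, ?_⟩
  have e1 : ((⁅f, g⁆ : S.Sh s) : G × G).1 = ⁅(f : G × G).1, (g : G × G).1⁆ := rfl
  have e2 : ((⁅f, g⁆ : S.Sh s) : G × G).2 = ⁅(f : G × G).2, (g : G × G).2⁆ := rfl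
  have h12 := hfg.2
  rw [e1, e2] at h12 ⊢
  rw [S.lie_ι hf.1 hg.2, S.lie_ι hf.2 hg.1]
  have en1 : m + (n + s) + 1 = m + n + 1 + s := by omega
  have en2 : m + s + n + 1 = m + n + 1 + s := by omega
  have m1 := S.comm _ _ _ _ hf.1 hg.2
  have m2 := S.comm _ _ _ _ hf.2 hg.1
  rw [en1] at m1 ⊢
  rw [en2] at m2 ⊢
  rw [← S.ι_mul m1 m2, S.ι_eq_iff (mul_mem m1 m2) h12]
  have := S.lie_aux hs hf.1 hf.2 hg.1 hg.2
  rwa [mul_inv_cancel_left, mul_inv_cancel_left] at this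

theorem Dd_inj {n : ℕ} {u0 u1 : S.Gr} (h : S.Dd s n 0 u0 u1) : u1 = 0 := by
  obtain ⟨f, hf, h1, h2, h3⟩ := h
  have h4 := ((S.shift s).ι_eq_zero hf).1 h1.symm
  rw [h3, S.ι_eq_zero hf.2]
  have := h4.2
  have e : n + 1 + s = n + s + 1 := by omega
  rwa [e] at this

/-- The diagonal element. -/
def dg (S : NSer G) (s : ℕ) (g : G) : S.Sh s :=
  ⟨(g, g), by change g⁻¹ * g ∈ S.Γ s; simp⟩

theorem dg_mem {n : ℕ} {g : G} (hg : g ∈ S.Γ n) : S.dg s g ∈ (S.shift s).Γ n := by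
  refine ⟨hg, ?_⟩
  change g⁻¹ * g ∈ S.Γ (n + s)
  simp

theorem Dd_dg {n : ℕ} {g : G} (hg : g ∈ S.Γ n) :
    S.Dd s n ((S.shift s).ι n (S.dg s g)) (S.ι n g) 0 := by
  refine ⟨S.dg s g, dg_mem hg, rfl, rfl, ?_⟩
  change 0 = S.ι (n + s) (g⁻¹ * g)
  rw [inv_mul_cancel, S.ι_one]

/-- The element `(b, b z)`. -/
def tw (S : NSer G) (s : ℕ) (b z : G) (hz : z ∈ S.Γ s) : S.Sh s :=
  ⟨(b, b * z), by change b⁻¹ * (b * z) ∈ S.Γ s; rwa [inv_mul_cancel_left]⟩

theorem tw_mem {n : ℕ} {b z : G} (hb : b ∈ S.Γ n) (hz : z ∈ S.Γ (n + s)) (hz' : z ∈ S.Γ s) :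
    S.tw s b z hz' ∈ (S.shift s).Γ n := by
  refine ⟨hb, ?_⟩
  change b⁻¹ * (b * z) ∈ S.Γ (n + s)
  rwa [inv_mul_cancel_left]

theorem Dd_tw {n : ℕ} {b z : G} (hb : b ∈ S.Γ n) (hz : z ∈ S.Γ (n + s)) (hz' : z ∈ S.Γ s) :
    S.Dd s n ((S.shift s).ι n (S.tw s b z hz')) (S.ι n b) (S.ι (n + s) z) := by
  refine ⟨S.tw s b z hz', tw_mem hb hz hz', rfl, rfl, ?_⟩
  change _ = S.ι (n + s) (b⁻¹ * (b * z))
  rw [inv_mul_cancel_left]

theorem Dd_sum (hs : 1 ≤ s) {α : Type*} {n : ℕ} (P : List α) (A : α → (S.shift s).Gr)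
    (B C : α → S.Gr) (h : ∀ p ∈ P, S.Dd s n (A p) (B p) (C p)) :
    S.Dd s n (P.map A).sum (P.map B).sum (P.map C).sum := by
  induction P with
  | nil => exact Dd_zero n
  | cons a P ih =>
    simp only [List.map_cons, List.sum_cons]
    exact Dd_add hs (h a (by simp)) (ih (fun p hp => h p (by simp [hp])))

/-- Total weight index. -/
def wt (Z : List (ℕ × G)) : ℕ := (Z.map (fun p => p.1 + 1)).sum

omit [Group G] in
theorem wt_perm {Z : List (ℕ × G)} {p : (ℕ × G) × List (ℕ × G)} (h : p ∈ picks Z) :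
    wt Z = p.1.1 + 1 + wt p.2 := by
  have := ((picks_perm h).map (fun p => p.1 + 1)).sum_eq
  simpa [wt] using this

theorem Dd_wS (hs : 1 ≤ s) {j0 : ℕ} {b' : (S.shift s).Gr} {b z : S.Gr} (hb : S.Dd s j0 b' b z)
    (f : ℕ) : ∀ (ky : ℕ) (Z : List (ℕ × G)) (n : ℕ) (u' : (S.shift s).Gr) (u0 u1 : S.Gr),
      ky + Z.length = f → (∀ p ∈ Z, p.2 ∈ S.Γ p.1) → S.Dd s n u' u0 u1 →
      S.Dd s (n + ky * (j0 + 1) + wt Z)
        (wS b' f ky (Z.map (fun p => (S.shift s).ι p.1 (S.dg s p.2))) u')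
        (wS b f ky (Z.map (fun p => S.ι p.1 p.2)) u0)
        ((if ky = 0 then 0 else wS b f (ky - 1) (z :: Z.map (fun p => S.ι p.1 p.2)) u0) +
          wS b f ky (Z.map (fun p => S.ι p.1 p.2)) u1) := by
  induction f with
  | zero =>
    intro ky Z n u' u0 u1 hf hZ hu
    have h1 : ky = 0 := by omega
    have h2 : Z = [] := List.eq_nil_of_length_eq_zero (by omega)
    subst h1 h2
    simpa [wS, wt] using hu
  | succ f ih =>
    intro ky Z n u' u0 u1 hf hZ hu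
    -- the part appending `y`
    have hA : S.Dd s (n + ky * (j0 + 1) + wt Z)
        (if ky = 0 then 0 else wS b' f (ky - 1) (Z.map (fun p => (S.shift s).ι p.1 (S.dg s p.2)))
          ⁅u', b'⁆)
        (if ky = 0 then 0 else wS b f (ky - 1) (Z.map (fun p => S.ι p.1 p.2)) ⁅u0, b⁆)
        (if ky = 0 then 0 else
          ((if ky - 1 = 0 then 0 else
              wS b f (ky - 1 - 1) (z :: Z.map (fun p => S.ι p.1 p.2)) ⁅u0, b⁆) +
            (wS b f (ky - 1) (Z.map (fun p => S.ι p.1 p.2)) ⁅u0, z⁆ +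
              wS b f (ky - 1) (Z.map (fun p => S.ι p.1 p.2)) ⁅u1, b⁆))) := by
      by_cases hk : ky = 0
      · simp only [hk, if_true]
        exact Dd_zero _
      · simp only [hk, if_false]
        have := ih (ky - 1) Z (n + j0 + 1) _ _ _ (by omega) hZ (Dd_lie hs hu hb)
        rw [wS_add] at this
        have e : n + j0 + 1 + (ky - 1) * (j0 + 1) + wt Z = n + ky * (j0 + 1) + wt Z := by
          obtain ⟨k, rfl⟩ : ∃ k, ky = k + 1 := ⟨ky - 1, by omega⟩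
          rw [Nat.add_sub_cancel, Nat.succ_mul]
          omega
        rwa [e] at this
    have hB : S.Dd s (n + ky * (j0 + 1) + wt Z)
        (((picks Z).map (fun p => wS b' f ky (p.2.map (fun p => (S.shift s).ι p.1 (S.dg s p.2)))
          ⁅u', (S.shift s).ι p.1.1 (S.dg s p.1.2)⁆)).sum)
        (((picks Z).map (fun p => wS b f ky (p.2.map (fun p => S.ι p.1 p.2))
          ⁅u0, S.ι p.1.1 p.1.2⁆)).sum)
        (((picks Z).map (fun p =>
          (if ky = 0 then 0 else wS b f (ky - 1) (z :: p.2.map (fun p => S.ι p.1 p.2))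
            ⁅u0, S.ι p.1.1 p.1.2⁆) +
          wS b f ky (p.2.map (fun p => S.ι p.1 p.2)) ⁅u1, S.ι p.1.1 p.1.2⁆)).sum) := by
      refine Dd_sum hs _ _ _ _ ?_
      intro p hp
      have hperm := picks_perm hp
      have hlen := hperm.length_eq
      simp only [List.length_cons] at hlen
      have hp1 : p.1 ∈ Z := hperm.mem_iff.2 List.mem_cons_self
      have hp2 : ∀ q ∈ p.2, q ∈ Z := fun q hq => hperm.mem_iff.2 (List.mem_cons_of_mem _ hq)
      have hd := Dd_lie hs hu (Dd_dg (s := s) (hZ _ hp1))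
      rw [lie_zero, zero_add] at hd
      have := ih ky p.2 (n + p.1.1 + 1) _ _ _ (by omega) (fun q hq => hZ q (hp2 q hq)) hd
      have e : n + p.1.1 + 1 + ky * (j0 + 1) + wt p.2 = n + ky * (j0 + 1) + wt Z := by
        rw [wt_perm hp]; omega
      rwa [e] at this
    have hAB := Dd_add hs hA hB
    have e1 : wS b' (f + 1) ky (Z.map (fun p => (S.shift s).ι p.1 (S.dg s p.2))) u' =
        (if ky = 0 then 0 else wS b' f (ky - 1) (Z.map (fun p => (S.shift s).ι p.1 (S.dg s p.2)))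
          ⁅u', b'⁆) + (((picks Z).map (fun p => wS b' f ky
            (p.2.map (fun p => (S.shift s).ι p.1 (S.dg s p.2)))
          ⁅u', (S.shift s).ι p.1.1 (S.dg s p.1.2)⁆)).sum) := by
      rw [wS, picks_map, List.map_map]; rfl
    have e2 : ∀ u : S.Gr, wS b (f + 1) ky (Z.map (fun p => S.ι p.1 p.2)) u =
        (if ky = 0 then 0 else wS b f (ky - 1) (Z.map (fun p => S.ι p.1 p.2)) ⁅u, b⁆) +
        (((picks Z).map (fun p => wS b f ky (p.2.map (fun p => S.ι p.1 p.2))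
          ⁅u, S.ι p.1.1 p.1.2⁆)).sum) := by
      intro u
      rw [wS, picks_map, List.map_map]; rfl
    have e3 : ∀ u : S.Gr, ky ≠ 0 → wS b (f + 1) (ky - 1) (z :: Z.map (fun p => S.ι p.1 p.2)) u =
        (if ky - 1 = 0 then 0 else
              wS b f (ky - 1 - 1) (z :: Z.map (fun p => S.ι p.1 p.2)) ⁅u, b⁆) +
        (wS b f (ky - 1) (Z.map (fun p => S.ι p.1 p.2)) ⁅u, z⁆ +
        (((picks Z).map (fun p => wS b f (ky - 1) (z :: p.2.map (fun p => S.ι p.1 p.2))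
          ⁅u, S.ι p.1.1 p.1.2⁆)).sum)) := by
      intro u _
      rw [wS, picks, picks_map, List.map_cons, List.sum_cons, List.map_map, List.map_map]; rfl
    rw [e1, e2, e2]
    rw [List.sum_map_add] at hAB
    by_cases hk : ky = 0
    · simp only [hk, if_true, zero_add, List.map_const', List.sum_replicate, smul_zero] at hAB ⊢
      exact hAB
    · simp only [hk, if_false] at hAB ⊢
      rw [e3 _ hk]
      have e4 : ∀ a b c d e : S.Gr, a + (b + c) + (d + e) = a + (b + d) + (c + e) := by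
        intros; abel
      rw [e4] at hAB
      exact hAB

/-- The 5-fold Engel commutator. -/
def eng5 {G : Type*} [Group G] (a b : G) : G := ⁅⁅⁅⁅⁅a, b⁆, b⁆, b⁆, b⁆, b⁆

/-- Partial linearisation of the Engel law. -/
theorem lin (r : ℕ) : ∀ (G : Type u) [Group G] (S : NSer G), (∀ a b : G, eng5 a b = 1) →
    ∀ (j0 : ℕ) (b : G), b ∈ S.Γ j0 → ∀ (Z : List (ℕ × G)), (∀ p ∈ Z, p.2 ∈ S.Γ p.1 ∧ j0 < p.1) →
    Z.length = r → ∀ ky, ky + r = 5 → ∀ (k : ℕ) (a : G), a ∈ S.Γ k →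
    wS (S.ι j0 b) 5 ky (Z.map (fun p => S.ι p.1 p.2)) (S.ι k a) = 0 := by
  induction r with
  | zero =>
    intro G _ S hlaw j0 b hb Z _ hlen ky hky k a ha
    have h2 : Z = [] := List.eq_nil_of_length_eq_zero hlen
    have h1 : ky = 5 := by omega
    subst h1 h2
    have c1 := S.comm _ _ _ _ ha hb
    have c2 := S.comm _ _ _ _ c1 hb
    have c3 := S.comm _ _ _ _ c2 hb
    have c4 := S.comm _ _ _ _ c3 hb
    rw [List.map_nil, wS_nil, wS_nil, wS_nil, wS_nil, wS_nil, wS]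
    rw [S.lie_ι ha hb, S.lie_ι c1 hb, S.lie_ι c2 hb, S.lie_ι c3 hb, S.lie_ι c4 hb]
    have := hlaw a b
    unfold eng5 at this
    rw [this, S.ι_one]
  | succ r ih =>
    intro G _ S hlaw j0 b hb Z hZ hlen ky hky k a ha
    obtain ⟨z, Z, rfl⟩ : ∃ z Z', Z = z :: Z' := by
      cases Z with
      | nil => simp at hlen
      | cons z Z => exact ⟨z, Z, rfl⟩
    obtain ⟨hz, hzj⟩ := hZ z (by simp)
    have hZ' : ∀ p ∈ Z, p.2 ∈ S.Γ p.1 ∧ j0 < p.1 := fun p hp => hZ p (by simp [hp])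
    obtain ⟨s, hs⟩ : ∃ s, z.1 = j0 + s := ⟨z.1 - j0, by omega⟩
    have hs1 : 1 ≤ s := by omega
    rw [hs] at hz
    have hz' : z.2 ∈ S.Γ s := S.le_of_le (by omega) hz
    have hlaw' : ∀ a b : S.Sh s, eng5 a b = 1 := by
      intro a b
      apply Subtype.ext
      apply Prod.ext
      · exact hlaw _ _
      · exact hlaw _ _
    have h := ih (S.Sh s) (S.shift s) hlaw' j0 (S.tw s b z.2 hz') (tw_mem hb hz hz')
      (Z.map (fun p => (p.1, S.dg s p.2)))
      (by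
        intro p hp
        obtain ⟨q, hq, rfl⟩ := List.mem_map.1 hp
        exact ⟨dg_mem (hZ' q hq).1, (hZ' q hq).2⟩)
      (by simpa using hlen) (ky + 1) (by omega) k (S.dg s a) (dg_mem ha)
    rw [List.map_map] at h
    have hD := Dd_wS hs1 (Dd_tw hb hz hz') 5 (ky + 1) Z k _ _ _ (by simp at hlen; omega)
      (fun p hp => (hZ' p hp).1) (Dd_dg (s := s) ha)
    have h' : wS ((S.shift s).ι j0 (S.tw s b z.2 hz')) 5 (ky + 1)
        (Z.map (fun p => (S.shift s).ι p.1 (S.dg s p.2))) ((S.shift s).ι k (S.dg s a)) = 0 := h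
    rw [h'] at hD
    have := Dd_inj hD
    rw [if_neg (by omega), wS_zero, add_zero, Nat.add_sub_cancel] at this
    rw [List.map_cons, hs]
    exact this

end NSer

end Pool.E802
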