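import Pool.Agent.E802.Cube

/-!
# An extension lemma

If the words with at least `K` letters `y` lie in `T`, where `⁅T, T⁆ ≤ T'` and the multilinear
6-Engel identity holds on `T` modulo `T'`, then the words with at least `K + 6 ^ (K - 1)` letters
`y` lie in `T'`.
-/

namespace Pool.E802

section
variable {L : Type*} [LieRing L]

theorem act_append (y : L) (s s' : List (Option L)) (u : L) :
    act y (s ++ s') u = act y s' (act y s u) := by
  induction s generalizing u with
  | nil => rfl
  | cons a s ih => cases a <;> exact ih _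

omit [LieRing L] in
theorem cY_append (s s' : List (Option L)) : cY (s ++ s') = cY s + cY s' := by
  induction s with
  | nil => simp [cY]
  | cons a s ih =>
    cases a with
    | none => simp only [List.cons_append, cY, ih]; omega
    | some x => exact ih

variable {H : L → Prop} {y : L}

theorem wd_lie {n b k c : ℕ} {u w : L} (hw : Wd H y k c w) (hu : Wd H y n b u) :
    ⁅u, w⁆ ∈ AddSubgroup.closure {v | Wd H y (n + k) (b + c) v} := by
  have hY : ∀ n b v, v ∈ AddSubgroup.closure {v | Wd H y n b v} →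
      ⁅v, y⁆ ∈ AddSubgroup.closure {v | Wd H y (n + 1) b v} := by
    intro n b v hv
    induction hv using AddSubgroup.closure_induction with
    | zero => rw [zero_lie]; exact zero_mem _
    | add x y _ _ hx hy => rw [add_lie]; exact add_mem hx hy
    | neg x _ hx => rw [neg_lie]; exact neg_mem hx
    | mem v hv => exact AddSubgroup.subset_closure (Wd.my hv)
  have hX : ∀ n b v x, H x → v ∈ AddSubgroup.closure {v | Wd H y n b v} →
      ⁅v, x⁆ ∈ AddSubgroup.closure {v | Wd H y (n + 1) (b + 1) v} := by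
    intro n b v z hz hv
    induction hv using AddSubgroup.closure_induction with
    | zero => rw [zero_lie]; exact zero_mem _
    | add x y _ _ hx hy => rw [add_lie]; exact add_mem hx hy
    | neg x _ hx => rw [neg_lie]; exact neg_mem hx
    | mem v hv => exact AddSubgroup.subset_closure (Wd.mx hv hz)
  induction hw generalizing n b u with
  | zero => rw [lie_zero]; exact zero_mem _
  | y => exact AddSubgroup.subset_closure (Wd.my hu)
  | atom x hx => exact AddSubgroup.subset_closure (Wd.mx hu hx)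
  | @my n' b' w' hw' ih =>
    rw [lie_lie_eq]
    refine add_mem ?_ (neg_mem ?_)
    · have := hY _ _ _ (ih hu)
      rwa [add_assoc] at this
    · have := ih (Wd.my hu)
      have e : n + 1 + n' = n + (n' + 1) := by omega
      rwa [e] at this
  | @mx n' b' w' x' hw' hx' ih =>
    rw [lie_lie_eq]
    refine add_mem ?_ (neg_mem ?_)
    · have := hX _ _ _ _ hx' (ih hu)
      rwa [add_assoc, add_assoc] at this
    · have := ih (Wd.mx hu hx')
      have e : n + 1 + n' = n + (n' + 1) := by omega
      have e' : b + 1 + b' = b + (b' + 1) := by omega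
      rwa [e, e'] at this

/-- A word with many letters `y` splits. -/
theorem wd_split {K : ℕ} (hK : 1 ≤ K) {n b : ℕ} {u : L} (hu : Wd H y n b u) :
    ∀ N, b + K + N ≤ n → ∃ (n' b' : ℕ) (t : L) (s : List (Option L)), Wd H y n' b' t ∧
      b' + K ≤ n' ∧ u = act y s t ∧ N ≤ cY s ∧ ∀ x, some x ∈ s → H x := by
  induction hu with
  | zero n b =>
    intro N _
    refine ⟨K, 0, 0, List.replicate N none, Wd.zero _ _, by omega, (act_zero y _).symm, ?_, ?_⟩
    · induction N with
      | zero => simp
      | succ N ih => rw [List.replicate_succ]; simp only [cY]; have := ih (by omega); omega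
    · intro x hx
      exact absurd (List.eq_of_mem_replicate hx) (by simp)
  | y =>
    intro N h
    exact ⟨1, 0, y, [], Wd.y, by omega, rfl, by simp only [cY]; omega, by simp⟩
  | atom x hx =>
    intro N h
    omega
  | @my n b u hu ih =>
    intro N h
    by_cases hN : N = 0
    · exact ⟨n + 1, b, ⁅u, y⁆, [], Wd.my hu, by omega, rfl, by omega, by simp⟩
    · obtain ⟨N', rfl⟩ : ∃ N', N = N' + 1 := ⟨N - 1, by omega⟩
      obtain ⟨n', b', t, s, h1, h2, h3, h4, h5⟩ := ih N' (by omega)
      refine ⟨n', b', t, s ++ [none], h1, h2, ?_, ?_, ?_⟩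
      · rw [act_append, ← h3]; rfl
      · rw [cY_append]; simp only [cY]; omega
      · intro x hx
        rcases List.mem_append.1 hx with h | h
        · exact h5 x h
        · simp at h
  | @mx n b u x hu hx ih =>
    intro N h
    obtain ⟨n', b', t, s, h1, h2, h3, h4, h5⟩ := ih N (by omega)
    refine ⟨n', b', t, s ++ [some x], h1, h2, ?_, ?_, ?_⟩
    · rw [act_append, ← h3]; rfl
    · rw [cY_append]; simp only [cY]; omega
    · intro z hz
      rcases List.mem_append.1 hz with h | h
      · exact h5 z h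
      · simp only [List.mem_singleton, Option.some.injEq] at h
        rw [h]; exact hx

/-- Stability under brackets with elements of `H`. -/
def Stab (H : L → Prop) (V : AddSubgroup L) : Prop := ∀ v ∈ V, ∀ h, H h → ⁅v, h⁆ ∈ V

/-- Brackets with words containing at least `j` letters `y`, modulo `T'`. -/
def Fj (H : L → Prop) (y : L) (T' : AddSubgroup L) (j : ℕ) (V : AddSubgroup L) : AddSubgroup L :=
  AddSubgroup.closure {u | u ∈ T' ∨ ∃ v ∈ V, ∃ n b w, Wd H y n b w ∧ b + j ≤ n ∧ u = ⁅v, w⁆}

variable {T T' : AddSubgroup L}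

theorem le_Fj (j : ℕ) (V : AddSubgroup L) : T' ≤ Fj H y T' j V :=
  fun _ hu => AddSubgroup.subset_closure (Or.inl hu)

theorem mem_Fj {j : ℕ} {V : AddSubgroup L} {v w : L} {n b : ℕ} (hv : v ∈ V) (hw : Wd H y n b w)
    (h : b + j ≤ n) : ⁅v, w⁆ ∈ Fj H y T' j V :=
  AddSubgroup.subset_closure (Or.inr ⟨v, hv, n, b, w, hw, h, rfl⟩)

theorem Fj_mono {j : ℕ} {V V' : AddSubgroup L} (h : V ≤ V') : Fj H y T' j V ≤ Fj H y T' j V' := by
  refine AddSubgroup.closure_mono ?_
  rintro u (hu | ⟨v, hv, n, b, w, hw, hj, rfl⟩)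
  · exact Or.inl hu
  · exact Or.inr ⟨v, h hv, n, b, w, hw, hj, rfl⟩

theorem Fj_stab {j : ℕ} {V : AddSubgroup L} (hT' : Stab H T') (hV : Stab H V) :
    Stab H (Fj H y T' j V) := by
  intro v hv h hh
  induction hv using AddSubgroup.closure_induction with
  | zero => rw [zero_lie]; exact zero_mem _
  | add x y _ _ hx hy => rw [add_lie]; exact add_mem hx hy
  | neg x _ hx => rw [neg_lie]; exact neg_mem hx
  | mem u hu =>
    rcases hu with hu | ⟨v, hv, n, b, w, hw, hj, rfl⟩
    · exact le_Fj j V (hT' u hu h hh)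
    · have e : ⁅⁅v, w⁆, h⁆ = ⁅v, ⁅w, h⁆⁆ + ⁅⁅v, h⁆, w⁆ := by rw [lie_lie_eq]; abel
      rw [e]
      exact add_mem (mem_Fj hv (Wd.mx hw hh) (by omega)) (mem_Fj (hV v hv h hh) hw hj)

section
variable (hz : H 0) (hy : H y) (hb : ∀ u v, H u → H v → H ⁅u, v⁆)

include hz hy hb in
theorem Fj_le {j : ℕ} {V : AddSubgroup L} (hV : Stab H V) (h : T' ≤ V) : Fj H y T' j V ≤ V := by
  unfold Fj
  rw [AddSubgroup.closure_le]
  rintro u (hu | ⟨v, hv, n, b, w, hw, _, rfl⟩)
  · exact h hu
  · exact hV v hv w (hw.mem_H hz hy hb)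

/-- Iterated bracket. -/
def fd : List L → L → L
  | [], v => v
  | w :: l, v => fd l ⁅v, w⁆

theorem fd_add (l : List L) : ∀ u v : L, fd l (u + v) = fd l u + fd l v := by
  induction l with
  | nil => intro u v; rfl
  | cons w l ih => intro u v; simp only [fd, add_lie, ih]

theorem fd_sub (l : List L) : ∀ u v : L, fd l (u - v) = fd l u - fd l v := by
  induction l with
  | nil => intro u v; rfl
  | cons w l ih => intro u v; simp only [fd, sub_lie, ih]

theorem fd_append (l l' : List L) : ∀ v : L, fd (l ++ l') v = fd l' (fd l v) := by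
  induction l with
  | nil => intro v; rfl
  | cons w l ih => intro v; exact ih _

theorem fd_mem {V : AddSubgroup L} (hV : Stab H V) (l : List L) (hl : ∀ w ∈ l, H w) :
    ∀ v ∈ V, fd l v ∈ V := by
  induction l with
  | nil => intro v hv; exact hv
  | cons w l ih =>
    intro v hv
    exact ih (fun w' hw' => hl w' (by simp [hw'])) _ (hV v hv w (hl w (by simp)))

/-- The letters are words with at least `j` letters `y`. -/
def Pj (H : L → Prop) (y : L) (j : ℕ) (w : L) : Prop := ∃ n b, Wd H y n b w ∧ b + j ≤ n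

include hz hy hb in
theorem Pj_H {j : ℕ} {w : L} (h : Pj H y j w) : H w := by
  obtain ⟨n, b, hw, _⟩ := h
  exact hw.mem_H hz hy hb

theorem iter_Fj {j : ℕ} {V : AddSubgroup L} (hT' : Stab H T')
    (hH : ∀ w, Pj H y j w → H w) (k : ℕ) :
    (Fj H y T' j)^[k] V ≤ AddSubgroup.closure {u | u ∈ T' ∨ ∃ v ∈ V, ∃ l : List L,
      l.length = k ∧ (∀ w ∈ l, Pj H y j w) ∧ u = fd l v} := by
  induction k with
  | zero =>
    intro v hv
    exact AddSubgroup.subset_closure (Or.inr ⟨v, hv, [], rfl, by simp, rfl⟩)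
  | succ k ih =>
    rw [Function.iterate_succ_apply']
    refine (Fj_mono ih).trans ?_
    unfold Fj
    rw [AddSubgroup.closure_le]
    rintro u (hu | ⟨v, hv, n, b, w, hw, hj, rfl⟩)
    · exact AddSubgroup.subset_closure (Or.inl hu)
    · change ⁅v, w⁆ ∈ AddSubgroup.closure _
      induction hv using AddSubgroup.closure_induction with
      | zero => rw [zero_lie]; exact zero_mem _
      | add x y _ _ hx hy => rw [add_lie]; exact add_mem hx hy
      | neg x _ hx => rw [neg_lie]; exact neg_mem hx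
      | mem v hv =>
        rcases hv with hv | ⟨v, hv, l, hl, hlP, rfl⟩
        · exact AddSubgroup.subset_closure (Or.inl (hT' v hv w (hH w ⟨n, b, hw, hj⟩)))
        · refine AddSubgroup.subset_closure (Or.inr ⟨v, hv, l ++ [w], by simp [hl], ?_, ?_⟩)
          · intro w' hw'
            rcases List.mem_append.1 hw' with h | h
            · exact hlP w' h
            · rw [List.mem_singleton.1 h]; exact ⟨n, b, hw, hj⟩
          · rw [fd_append]; rfl

theorem lie_closure {j k : ℕ} {V W : AddSubgroup L} {v z : L} {n b : ℕ}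
    (hW : W = Fj H y T' k V) (hv : v ∈ V) (hz' : z ∈ AddSubgroup.closure {u | Wd H y n b u})
    (h : b + k ≤ n) (_ : j ≤ k) : ⁅v, z⁆ ∈ W := by
  rw [hW]
  induction hz' using AddSubgroup.closure_induction with
  | zero => rw [lie_zero]; exact zero_mem _
  | add x y _ _ hx hy => rw [lie_add]; exact add_mem hx hy
  | neg x _ hx => rw [lie_neg]; exact neg_mem hx
  | mem v' hv' => exact mem_Fj hv hv' h

include hz hy hb in
theorem fd_perm {j : ℕ} (hj : 1 ≤ j) {V : AddSubgroup L} (hT' : Stab H T') (hV : Stab H V)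
    {l l' : List L} (hp : l.Perm l') : (∀ w ∈ l, Pj H y j w) → ∀ v ∈ V,
      fd l v - fd l' v ∈ Fj H y T' (j + 1) V := by
  induction hp with
  | nil => intro _ v _; rw [sub_self]; exact zero_mem _
  | cons a _ ih =>
    intro hl v hv
    exact ih (fun w hw => hl w (by simp [hw])) _ (hV v hv a (Pj_H hz hy hb (hl a (by simp))))
  | swap a c l =>
    intro hl v hv
    have e : fd (c :: a :: l) v - fd (a :: c :: l) v = fd l ⁅v, ⁅c, a⁆⁆ := by
      simp only [fd]
      rw [← fd_sub, lie_lie_eq, sub_eq_add_neg]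
    rw [e]
    obtain ⟨n, b, hc, hc'⟩ := hl c (by simp)
    obtain ⟨n', b', ha, ha'⟩ := hl a (by simp)
    refine fd_mem (Fj_stab hT' hV) l (fun w hw => Pj_H hz hy hb (hl w (by simp [hw]))) _ ?_
    exact lie_closure (j := j) rfl hv (wd_lie ha hc) (by omega) (by omega)
  | @trans l₁ l₂ l₃ h1 _ ih1 ih2 =>
    intro hl v hv
    have := add_mem (ih1 hl v hv) (ih2 (fun w hw => hl w (h1.mem_iff.2 hw)) v hv)
    rwa [sub_add_sub_cancel] at this

include hz hy hb in
theorem wS_fd {j : ℕ} (hj : 1 ≤ j) {V : AddSubgroup L} (hT' : Stab H T') (hV : Stab H V) (f : ℕ) :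
    ∀ l : List L, l.length = f → (∀ w ∈ l, Pj H y j w) → ∀ v ∈ V,
      wS y f 0 l v - f.factorial • fd l v ∈ Fj H y T' (j + 1) V := by
  induction f with
  | zero =>
    intro l hl _ v _
    have : l = [] := List.eq_nil_of_length_eq_zero hl
    subst this
    simp [wS, fd]
  | succ f ih =>
    intro l hl hlP v hv
    have e1 : wS y (f + 1) 0 l v = ((picks l).map (fun p => wS y f 0 p.2 ⁅v, p.1⁆)).sum := by
      simp [wS]
    have e2 : (f + 1).factorial • fd l v =
        ((picks l).map (fun _ => f.factorial • fd l v)).sum := by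
      rw [List.map_const', List.sum_replicate, picks_length, hl, smul_smul, Nat.factorial_succ]
    have e3 : ∀ (P : List (L × List L)) (A B : L × List L → L),
        (P.map A).sum - (P.map B).sum = (P.map (fun p => A p - B p)).sum := by
      intro P A B
      induction P with
      | nil => simp
      | cons p P ih => simp only [List.map_cons, List.sum_cons]; rw [← ih]; abel
    rw [e1, e2, e3]
    refine list_sum_mem ?_
    intro u hu
    obtain ⟨p, hp, rfl⟩ := List.mem_map.1 hu
    have hperm := picks_perm hp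
    have hlen := hperm.length_eq
    simp only [List.length_cons] at hlen
    have h1 : ∀ w ∈ p.2, Pj H y j w := fun w hw => hlP w (hperm.mem_iff.2 (List.mem_cons_of_mem _ hw))
    have h0 := hlP p.1 (hperm.mem_iff.2 List.mem_cons_self)
    have h2 := ih p.2 (by omega) h1 _ (hV v hv p.1 (Pj_H hz hy hb h0))
    have h3 := fd_perm hz hy hb hj hT' hV hperm hlP v hv
    have h4 := nsmul_mem h3 f.factorial
    have e4 : wS y f 0 p.2 ⁅v, p.1⁆ - f.factorial • fd l v =
        (wS y f 0 p.2 ⁅v, p.1⁆ - f.factorial • fd p.2 ⁅v, p.1⁆) -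
          f.factorial • (fd l v - fd (p.1 :: p.2) v) := by
      rw [smul_sub]
      simp only [fd]
      abel
    rw [e4]
    exact sub_mem h2 h4

include hz hy hb in
theorem six_Fj (h7 : ∀ u : L, 7 • u = 0) (hT : ∀ l : List L, l.length = 6 → (∀ w ∈ l, H w) →
      ∀ t ∈ T, wS y 6 0 l t ∈ T') {j : ℕ} (hj : 1 ≤ j) {V : AddSubgroup L} (hT' : Stab H T')
    (hV : Stab H V) (hVT : V ≤ T) : (Fj H y T' j)^[6] V ≤ Fj H y T' (j + 1) V := by
  refine (iter_Fj hT' (fun w hw => Pj_H hz hy hb hw) 6).trans ?_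
  rw [AddSubgroup.closure_le]
  rintro u (hu | ⟨v, hv, l, hl, hlP, rfl⟩)
  · exact le_Fj _ _ hu
  · have h1 := wS_fd hz hy hb hj hT' hV 6 l hl hlP v hv
    have h2 := le_Fj (H := H) (y := y) (j + 1) V
      (hT l hl (fun w hw => Pj_H hz hy hb (hlP w hw)) v (hVT hv))
    have h3 := sub_mem h2 h1
    rw [sub_sub_cancel] at h3
    have h4 : fd l v = -(Nat.factorial 6 • fd l v) := by
      have : (103 * 7) • fd l v = 0 := by rw [← smul_smul, h7, smul_zero]
      have e : 103 * 7 = Nat.factorial 6 + 1 := by decide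
      rw [e, succ_nsmul] at this
      exact eq_neg_of_add_eq_zero_right this
    rw [SetLike.mem_coe, h4]
    exact neg_mem h3

/-- The subgroups to which the argument applies. -/
def Good (H : L → Prop) (T T' V : AddSubgroup L) : Prop := Stab H V ∧ T' ≤ V ∧ V ≤ T

include hz hy hb in
theorem Good.Fj {j : ℕ} {V : AddSubgroup L} (hT' : Stab H T') (h : Good H T T' V) :
    Good H T T' (Fj H y T' j V) :=
  ⟨Fj_stab hT' h.1, le_Fj _ _, (Fj_le hz hy hb h.1 h.2.1).trans h.2.2⟩

include hz hy hb in
theorem Good.iter {j : ℕ} {V : AddSubgroup L} (hT' : Stab H T') (h : Good H T T' V) (k : ℕ) :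
    Good H T T' ((E802.Fj H y T' j)^[k] V) := by
  induction k with
  | zero => exact h
  | succ k ih => rw [Function.iterate_succ_apply']; exact Good.Fj hz hy hb hT' ih

include hz hy hb in
theorem pow_Fj (h7 : ∀ u : L, 7 • u = 0) (hT : ∀ l : List L, l.length = 6 → (∀ w ∈ l, H w) →
      ∀ t ∈ T, wS y 6 0 l t ∈ T') (hT' : Stab H T') (j : ℕ) : ∀ V : AddSubgroup L,
      Good H T T' V → (Fj H y T' 1)^[6 ^ j] V ≤ Fj H y T' (j + 1) V := by
  induction j with
  | zero => intro V _; simp
  | succ j ih =>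
    intro V hV
    have h1 : ∀ k, ((Fj H y T' 1)^[6 ^ j])^[k] V ≤ (Fj H y T' (j + 1))^[k] V := by
      intro k
      induction k with
      | zero => exact le_rfl
      | succ k ihk =>
        rw [Function.iterate_succ_apply', Function.iterate_succ_apply']
        refine (ih _ ?_).trans (Fj_mono ihk)
        rw [← Function.iterate_mul]
        exact hV.iter hz hy hb hT' _
    rw [pow_succ, Function.iterate_mul]
    exact (h1 6).trans (six_Fj hz hy hb h7 hT (by omega) hT' hV.1 hV.2.2)

include hz hy hb in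
theorem act_Fj (hT' : Stab H T') (s : List (Option L)) : ∀ (V : AddSubgroup L), Good H T T' V →
    (∀ x, some x ∈ s → H x) → ∀ N, N ≤ cY s → ∀ v ∈ V, act y s v ∈ (Fj H y T' 1)^[N] V := by
  induction s with
  | nil =>
    intro V _ _ N hN v hv
    have : N = 0 := by simpa [cY] using hN
    subst this
    exact hv
  | cons a s ih =>
    intro V hV hs N hN v hv
    have hs' : ∀ x, some x ∈ s → H x := fun x hx => hs x (by simp [hx])
    cases a with
    | none =>
      by_cases h0 : N = 0
      · subst h0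
        exact ih V hV hs' 0 (by omega) _ (hV.1 v hv y hy)
      · obtain ⟨N', rfl⟩ : ∃ N', N = N' + 1 := ⟨N - 1, by omega⟩
        rw [Function.iterate_succ_apply]
        exact ih _ (Good.Fj hz hy hb hT' hV) hs' N' (by simp only [cY] at hN; omega) _
          (mem_Fj hv Wd.y (by omega))
    | some x => exact ih V hV hs' N hN _ (hV.1 v hv x (hs x (by simp)))

include hz hy hb in
/-- The extension lemma. -/
theorem ext_lemma (h7 : ∀ u : L, 7 • u = 0) (hT : ∀ l : List L, l.length = 6 → (∀ w ∈ l, H w) →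
      ∀ t ∈ T, wS y 6 0 l t ∈ T') (hT' : Stab H T') (hTs : Stab H T) (hle : T' ≤ T)
    (hTT : ∀ t ∈ T, ∀ t' ∈ T, ⁅t, t'⁆ ∈ T') {K : ℕ} (hK : 1 ≤ K)
    (hi : ∀ n b u, Wd H y n b u → b + K ≤ n → u ∈ T) (n b : ℕ) (u : L) (hu : Wd H y n b u)
    (hn : b + K + 6 ^ (K - 1) ≤ n) : u ∈ T' := by
  obtain ⟨n', b', t, s, h1, h2, h3, h4, h5⟩ := wd_split hK hu _ hn
  have hG : Good H T T' T := ⟨hTs, hle, le_rfl⟩
  have h6 := act_Fj hz hy hb hT' s T hG h5 _ h4 t (hi _ _ _ h1 h2)
  have h7' := pow_Fj hz hy hb h7 hT hT' (K - 1) T hG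
  have e : K - 1 + 1 = K := by omega
  rw [e] at h7'
  have h8 : Fj H y T' K T ≤ T' := by
    unfold Fj
    rw [AddSubgroup.closure_le]
    rintro u (hu | ⟨v, hv, n, b, w, hw, hj, rfl⟩)
    · exact hu
    · exact hTT v hv w (hi _ _ _ hw hj)
  rw [h3]
  exact h8 (h7' h6)

end

end

end Pool.E802
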