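import Pool.Agent.E802.Check
import Pool.Agent.E802.CAll

/-!
# Words with seven equal letters vanish
-/

namespace Pool.E802

theorem getD_cases {α : Type*} (l : List α) (n : ℕ) (d : α) : l.getD n d = d ∨ l.getD n d ∈ l := by
  rw [List.getD_eq_getElem?_getD]
  cases h : l[n]? with
  | none => exact Or.inl rfl
  | some a => exact Or.inr (List.mem_of_getElem? h)

theorem getD_out {α : Type*} (l : List α) (n : ℕ) (d : α) (h : l.length ≤ n) : l.getD n d = d := by
  rw [List.getD_eq_getElem?_getD, List.getElem?_eq_none h]; rfl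

theorem tabD_small : (tabD.all fun l => l.all fun l' => Nat.ble l'.length 27) = true := by
  decide +kernel

theorem tabY_small : (tabY.all fun l => l.all fun l' => l'.all fun r => small6 27 r) = true := by
  decide +kernel

theorem tabX_small :
    (tabX.all fun l => l.all fun l' => l'.all fun l'' => l''.all fun r => small6 27 r) = true := by
  decide +kernel

theorem tabD_len : (Nat.ble tabD.length 13 && tabD.all fun l => Nat.ble l.length 7) = true := by
  decide +kernel

theorem tabY_len : (Nat.ble tabY.length 13 && tabY.all fun l => Nat.ble l.length 8) = true := by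
  decide +kernel

theorem tabX_len : (Nat.ble tabX.length 13 && tabX.all fun l => Nat.ble l.length 8) = true := by
  decide +kernel

theorem tabD_12 : ∀ b < 7, T0.D 12 b = [] := by decide +kernel

theorem tabD_top : ∀ n < 13, ∀ b < 7, 7 + b ≤ n → T0.D n b = [] := by decide +kernel

theorem D_nil {n b : ℕ} (h : 12 ≤ n ∨ 7 ≤ b) : T0.D n b = [] := by
  have hl := tabD_len
  simp only [Bool.and_eq_true, List.all_eq_true] at hl
  have h1 : tabD.length ≤ 13 := Nat.le_of_ble_eq_true hl.1
  by_cases hb : 7 ≤ b
  · rcases getD_cases tabD n [] with h2 | h2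
    · show (tabD.getD n []).getD b [] = []
      rw [h2]; rfl
    · have := Nat.le_of_ble_eq_true (hl.2 _ h2)
      exact getD_out _ _ _ (by simp only [T0]; omega)
  · have hn : 12 ≤ n := by omega
    by_cases hn' : n = 12
    · subst hn'; exact tabD_12 b (by omega)
    · have : tabD.getD n [] = [] := getD_out _ _ _ (by omega)
      show (tabD.getD n []).getD b [] = []
      rw [this]; rfl

theorem RY_nil {n b : ℕ} (h : 13 ≤ n ∨ 8 ≤ b) : T0.RY n b = [] := by
  have hl := tabY_len
  simp only [Bool.and_eq_true, List.all_eq_true] at hl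
  have h1 : tabY.length ≤ 13 := Nat.le_of_ble_eq_true hl.1
  by_cases hb : 8 ≤ b
  · rcases getD_cases tabY n [] with h2 | h2
    · show (tabY.getD n []).getD b [] = []
      rw [h2]; rfl
    · have := Nat.le_of_ble_eq_true (hl.2 _ h2)
      exact getD_out _ _ _ (by simp only [T0]; omega)
  · have : tabY.getD n [] = [] := getD_out _ _ _ (by omega)
    show (tabY.getD n []).getD b [] = []
    rw [this]; rfl

theorem RX_nil {n b p : ℕ} (h : 13 ≤ n ∨ 8 ≤ b) : T0.RX n b p = [] := by
  have hl := tabX_len
  simp only [Bool.and_eq_true, List.all_eq_true] at hl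
  have h1 : tabX.length ≤ 13 := Nat.le_of_ble_eq_true hl.1
  have : (tabX.getD n []).getD b [] = [] := by
    by_cases hb : 8 ≤ b
    · rcases getD_cases tabX n [] with h2 | h2
      · rw [h2]; rfl
      · have := Nat.le_of_ble_eq_true (hl.2 _ h2)
        exact getD_out _ _ _ (by omega)
    · have : tabX.getD n [] = [] := getD_out _ _ _ (by omega)
      rw [this]; rfl
  simp only [Tb.RX, T0]
  rw [this]
  rfl

theorem dim_nil {n b : ℕ} (h : 12 ≤ n ∨ 7 ≤ b) : T0.dim n b = 0 := by
  rw [Tb.dim, D_nil h]; rfl

theorem dim_top {n b : ℕ} (h : 7 + b ≤ n) : T0.dim n b = 0 := by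
  by_cases h1 : 12 ≤ n ∨ 7 ≤ b
  · exact dim_nil h1
  · rw [Tb.dim, tabD_top n (by omega) b (by omega) h]; rfl

theorem T0_ok : TOk T0 where
  d0 b := rfl
  d10 := rfl
  d11 := rfl
  d1 b := rfl
  dle n b := by
    have hl := tabD_small
    simp only [List.all_eq_true] at hl
    rcases getD_cases (T0.d.getD n []) b [] with h | h
    · simp only [Tb.dim, Tb.D, h]; simp
    · rcases getD_cases tabD n [] with h' | h'
      · simp only [Tb.dim, Tb.D, T0] at h ⊢
        rw [h'] at h ⊢
        simp
      · exact Nat.le_of_ble_eq_true (hl _ h' _ h)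
  ry n b r hr := by
    have hl := tabY_small
    simp only [List.all_eq_true] at hl
    rcases getD_cases (T0.ry.getD n []) b [] with h | h
    · simp only [Tb.RY, h] at hr; simp at hr
    · rcases getD_cases tabY n [] with h' | h'
      · simp only [Tb.RY, T0] at hr
        rw [h'] at hr
        simp at hr
      · exact Bd.of_small6 (hl _ h' _ h _ hr)
  rx n b p r hr := by
    have hl := tabX_small
    simp only [List.all_eq_true] at hl
    rcases getD_cases ((T0.rx.getD n []).getD b []) p [] with h | h
    · simp only [Tb.RX, h] at hr; simp at hr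
    · rcases getD_cases (T0.rx.getD n []) b [] with h' | h'
      · rw [h'] at h; simp at h
      · rcases getD_cases tabX n [] with h'' | h''
        · simp only [T0] at h'
          rw [h''] at h'
          simp at h'
        · exact Bd.of_small6 (hl _ h'' _ h' _ h _ hr)

variable {L : Type*} [LieRing L] {H : L → Prop} {y : L} {M : ℕ}

theorem VV_all (h7 : ∀ u : L, 7 • u = 0) (hz : H 0) (hy : H y)
    (hb : ∀ u v, H u → H v → H ⁅u, v⁆)
    (hE : ∀ (ky : ℕ) (S : List L) (u : L), ky + S.length = 5 → (∀ z ∈ S, H z) → H u →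
      wS y 5 ky S u = 0)
    (hM : Hyp H y M) (n : ℕ) : 2 ≤ n → ∀ b, VV T0 H y (M + 1) n b := by
  induction n using Nat.strong_induction_on with
  | _ n ih =>
    intro hn b
    by_cases hcase : n ≤ 12 ∧ b < 8
    · obtain ⟨c, hc⟩ := chk_all n b hn hcase.1 hcase.2
      exact check_sound T0_ok h7 hz hy hb hE hM (fun n' h2 h3 b' => ih n' h3 h2 b') hn
        (by omega) hcase.2 hc
    · intro X hX hXH
      have e1 : bwl T0 y (n - 1) b X = [] := by
        apply List.eq_nil_of_length_eq_zero
        rw [bwl_length T0_ok]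
        exact dim_nil (by omega)
      refine ⟨?_, ?_⟩
      · rw [e1, RY_nil (by omega)]
        exact List.Forall₂.nil
      · intro p hp
        have e2 : bwl T0 y (n - 1) (b - 1) (X.eraseIdx p) = [] := by
          apply List.eq_nil_of_length_eq_zero
          rw [bwl_length T0_ok]
          exact dim_nil (by omega)
        rw [e2, RX_nil (by omega)]
        exact List.Forall₂.nil

/-- Every word is represented modulo the killed subgroup. -/
theorem wd_repr (h7 : ∀ u : L, 7 • u = 0) (hz : H 0) (hy : H y)
    (hb : ∀ u v, H u → H v → H ⁅u, v⁆)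
    (hE : ∀ (ky : ℕ) (S : List L) (u : L), ky + S.length = 5 → (∀ z ∈ S, H z) → H u →
      wS y 5 ky S u = 0)
    (hM : Hyp H y M) {n b : ℕ} {u : L} (hu : Wd H y n b u) :
    ∃ X : List L, X.length = b ∧ (∀ x ∈ X, H x) ∧
      ∃ v, u - ev v (bwl T0 y n b X) ∈ Zs H y (M + 1) n b := by
  have hV := VV_all h7 hz hy hb hE hM
  induction hu with
  | zero n b =>
    refine ⟨List.replicate b 0, by simp, ?_, 0, ?_⟩
    · intro x hx
      rw [List.eq_of_mem_replicate hx]
      exact hz
    · rw [ev_zero, sub_zero]; exact zero_mem _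
  | y =>
    refine ⟨[], rfl, by simp, 1, ?_⟩
    have : ev 1 (bwl T0 y 1 0 []) = y := by simp [bwl, ev]
    rw [this, sub_self]
    exact zero_mem _
  | atom x hx =>
    refine ⟨[x], rfl, by simpa using hx, 1, ?_⟩
    have : ev 1 (bwl T0 y 1 1 [x]) = x := by simp [bwl, ev]
    rw [this, sub_self]
    exact zero_mem _
  | @my n b u hu ih =>
    obtain ⟨X, hX, hXH, v, hv⟩ := ih
    by_cases hn : n = 0
    · subst hn
      refine ⟨X, hX, hXH, 0, ?_⟩
      simp only [bwl, ev, sub_zero] at hv
      rw [ev_zero, sub_zero]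
      exact Zs_y hv
    · have hF := (hV (n + 1) (by omega) b X hX hXH).1
      rw [Nat.add_sub_cancel] at hF
      have hl : (T0.RY (n + 1) b).length ≤ 27 := by
        have := hF.length_eq
        rw [bwl_length T0_ok] at this
        rw [← this]; exact T0_ok.dle n b
      have := rep_mul_aux h7 (v := v) (u := u) hl (T0_ok.ry _ _) hF (Zs_y hv)
      exact ⟨X, hX, hXH, _, this.2⟩
  | @mx n b u x hu hx ih =>
    obtain ⟨X, hX, hXH, v, hv⟩ := ih
    have hX' : (X ++ [x]).length = b + 1 := by simp [hX]
    have hXH' : ∀ w ∈ X ++ [x], H w := by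
      intro w hw
      rcases List.mem_append.1 hw with h | h
      · exact hXH w h
      · rw [List.mem_singleton.1 h]; exact hx
    by_cases hn : n = 0
    · subst hn
      refine ⟨X ++ [x], hX', hXH', 0, ?_⟩
      simp only [bwl, ev, sub_zero] at hv
      rw [ev_zero, sub_zero]
      exact Zs_x hv hx
    · have hF := (hV (n + 1) (by omega) (b + 1) _ hX' hXH').2 b (by omega)
      have e1 : (X ++ [x]).eraseIdx b = X := by
        rw [← hX, List.eraseIdx_append_of_length_le (le_refl _)]
        simp
      have e2 : (X ++ [x]).getD b 0 = x := by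
        rw [← hX, List.getD_eq_getElem?_getD]
        simp
      rw [Nat.add_sub_cancel, Nat.add_sub_cancel, e1, e2] at hF
      have hl : (T0.RX (n + 1) (b + 1) b).length ≤ 27 := by
        have := hF.length_eq
        rw [bwl_length T0_ok] at this
        rw [← this]; exact T0_ok.dle n b
      have := rep_mul_aux h7 (v := v) (u := u) hl (T0_ok.rx _ _ _) hF (Zs_x hv hx)
      exact ⟨X ++ [x], hX', hXH', _, this.2⟩

/-- In a Lie ring of characteristic 7 satisfying the multilinear 5-Engel identity (for the elements
of a multiplicatively closed set `H`), every word with seven equal letters `y` vanishes. -/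
theorem Hyp_all (h7 : ∀ u : L, 7 • u = 0) (hz : H 0) (hy : H y)
    (hb : ∀ u v, H u → H v → H ⁅u, v⁆)
    (hE : ∀ (ky : ℕ) (S : List L) (u : L), ky + S.length = 5 → (∀ z ∈ S, H z) → H u →
      wS y 5 ky S u = 0) (M : ℕ) : Hyp H y M := by
  induction M with
  | zero => exact Hyp_zero
  | succ M ih =>
    intro n u hu hn
    obtain ⟨X, hX, _, v, hv⟩ := wd_repr h7 hz hy hb hE ih hu
    have e : bwl T0 y n (M + 1) X = [] := by
      apply List.eq_nil_of_length_eq_zero
      rw [bwl_length T0_ok]
      exact dim_top (by omega)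
    rw [e, ev, sub_zero] at hv
    exact hv [] (by simp) (by simp only [cY]; omega) (by simp [cX])

end Pool.E802
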