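import Pool.Agent.E802.Cube
import Pool.Agent.E802.Nil
import Mathlib.GroupTheory.Nilpotent
import Mathlib.GroupTheory.PGroup

/-!
# 5-Engel groups of exponent 7 have class linear in the number of generators
-/

universe u

namespace Pool.E802

open scoped commutatorElement
open Subgroup

section
variable {G : Type u} [Group G]

/-- The three subgroups lemma modulo a normal subgroup. -/
theorem three_le {A B C N : Subgroup G} [N.Normal] (h1 : ⁅⁅B, C⁆, A⁆ ≤ N) (h2 : ⁅⁅C, A⁆, B⁆ ≤ N) :
    ⁅⁅A, B⁆, C⁆ ≤ N := by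
  have key : ∀ X Y Z : Subgroup G, ⁅⁅X, Y⁆, Z⁆ ≤ N ↔
      ⁅⁅X.map (QuotientGroup.mk' N), Y.map (QuotientGroup.mk' N)⁆, Z.map (QuotientGroup.mk' N)⁆ = ⊥ := by
    intro X Y Z
    rw [← map_commutator, ← map_commutator, Subgroup.map_eq_bot_iff, QuotientGroup.ker_mk']
  rw [key] at h1 h2 ⊢
  exact commutator_commutator_eq_bot_of_rotate h1 h2

theorem lcs_comm (n : ℕ) : ∀ m : ℕ, ⁅(⊤ : Subgroup G).lowerCentralSeries m,
    (⊤ : Subgroup G).lowerCentralSeries n⁆ ≤ (⊤ : Subgroup G).lowerCentralSeries (m + n + 1) := by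
  induction n with
  | zero => intro m; exact le_rfl
  | succ n ih =>
    intro m
    rw [Subgroup.lowerCentralSeries_succ _ n, commutator_comm]
    refine three_le ?_ ?_
    · rw [commutator_comm ⊤, ← Subgroup.lowerCentralSeries_succ]
      have := ih (m + 1)
      have e : m + 1 + n + 1 = m + (n + 1) + 1 := by omega
      rwa [e] at this
    · have := commutator_mono (ih m) (le_refl (⊤ : Subgroup G))
      exact this

/-- The lower central series with doubled weights. -/
def dbl (G : Type u) [Group G] : NSer G where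
  Γ n := (⊤ : Subgroup G).lowerCentralSeries (n / 2)
  top := rfl
  anti n := Subgroup.lowerCentralSeries_antitone _ (by omega)
  comm m n a b ha hb := by
    have h1 := lcs_comm (n / 2) (m / 2) (commutator_mem_commutator ha hb)
    exact Subgroup.lowerCentralSeries_antitone _ (by omega) h1

/-- Homogeneous elements of positive index. -/
def Hm (u : (dbl G).Gr) : Prop := ∃ n g, 1 ≤ n ∧ g ∈ (dbl G).Γ n ∧ u = (dbl G).ι n g

theorem Hm_zero : Hm (0 : (dbl G).Gr) :=
  ⟨1, 1, le_rfl, one_mem _, ((dbl G).ι_one 1).symm⟩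

theorem Hm_lie (u v : (dbl G).Gr) (hu : Hm u) (hv : Hm v) : Hm ⁅u, v⁆ := by
  obtain ⟨m, a, _, ha, rfl⟩ := hu
  obtain ⟨n, b, _, hb, rfl⟩ := hv
  exact ⟨m + n + 1, ⁅a, b⁆, by omega, (dbl G).comm _ _ _ _ ha hb, (dbl G).lie_ι ha hb⟩

theorem mem_one (g : G) : g ∈ (dbl G).Γ 1 := by
  change g ∈ (⊤ : Subgroup G).lowerCentralSeries (1 / 2)
  exact mem_top g

theorem Hm_gen (g : G) : Hm ((dbl G).ι 1 g) := ⟨1, g, le_rfl, mem_one g, rfl⟩

theorem ι_pow (S : NSer G) {n : ℕ} {g : G} (hg : g ∈ S.Γ n) (k : ℕ) :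
    S.ι n (g ^ k) = k • S.ι n g := by
  induction k with
  | zero => simp [S.ι_one]
  | succ k ih => rw [pow_succ, S.ι_mul (pow_mem hg k) hg, ih, succ_nsmul]

theorem ι_inv (S : NSer G) {n : ℕ} {g : G} (hg : g ∈ S.Γ n) : S.ι n g⁻¹ = -S.ι n g := by
  have := S.ι_mul (inv_mem hg) hg
  rw [inv_mul_cancel, S.ι_one] at this
  exact eq_neg_of_add_eq_zero_left this.symm

theorem seven_smul (S : NSer G) (h7 : ∀ g : G, g ^ 7 = 1) (u : S.Gr) : 7 • u = 0 := by
  induction u using S.gr_induction with
  | h0 => simp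
  | hι n g hg => rw [← ι_pow S hg, h7, S.ι_one]
  | hadd x y hx hy => rw [smul_add, hx, hy, add_zero]

theorem coprime_zero {A : Type*} [AddGroup A] {c : ℕ} (hc : Nat.Coprime c 7) {w : A}
    (h1 : c • w = 0) (h2 : 7 • w = 0) : w = 0 := by
  have d1 := addOrderOf_dvd_of_nsmul_eq_zero h1
  have d2 := addOrderOf_dvd_of_nsmul_eq_zero h2
  have d3 := Nat.dvd_gcd d1 d2
  rw [hc] at d3
  exact AddMonoid.addOrderOf_eq_one_iff.1 (Nat.dvd_one.1 d3)

theorem exists_Z (S : List (dbl G).Gr) (h : ∀ z ∈ S, Hm z) :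
    ∃ Z : List (ℕ × G), (∀ p ∈ Z, p.2 ∈ (dbl G).Γ p.1 ∧ 0 < p.1) ∧
      Z.map (fun p => (dbl G).ι p.1 p.2) = S := by
  induction S with
  | nil => exact ⟨[], by simp, rfl⟩
  | cons z S ih =>
    obtain ⟨Z, hZ, hZ'⟩ := ih (fun w hw => h w (by simp [hw]))
    obtain ⟨n, g, hn, hg, hz⟩ := h z (by simp)
    refine ⟨(n, g) :: Z, ?_, by rw [List.map_cons, hZ', hz]⟩
    intro p hp
    rcases List.mem_cons.1 hp with h | h
    · rw [h]; exact ⟨hg, hn⟩
    · exact hZ p h

/-- The multilinear 5-Engel identity in the graded Lie ring. -/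
theorem engel_identity (h7 : ∀ g : G, g ^ 7 = 1) (h5 : ∀ a b : G, NSer.eng5 a b = 1)
    {y : (dbl G).Gr} (hy : Hm y) (ky : ℕ) : ∀ (S : List (dbl G).Gr) (u : (dbl G).Gr),
      ky + S.length = 5 → (∀ z ∈ S, Hm z) → Hm u → wS y 5 ky S u = 0 := by
  induction ky with
  | zero =>
    intro S u hS hz hu
    obtain ⟨Z, hZ, rfl⟩ := exists_Z S hz
    obtain ⟨k, a, _, ha, rfl⟩ := hu
    rw [wS_ky0 y ((dbl G).ι 0 1)]
    exact NSer.lin 5 G (dbl G) h5 0 1 (one_mem _) Z hZ (by simpa using hS) 0 rfl k a ha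
  | succ ky ih =>
    intro S u hS hz hu
    have h1 := ih (y :: S) u (by simp only [List.length_cons]; omega)
      (by
        intro z hz'
        rcases List.mem_cons.1 hz' with h | h
        · rw [h]; exact hy
        · exact hz z h) hu
    rw [wS_cons y 5 ky S u (by omega)] at h1
    refine coprime_zero (c := ky + 1) ?_ h1 (seven_smul _ h7 _)
    have : ky ≤ 4 := by omega
    interval_cases ky <;> decide

/-- Left-normed products (the head of the list is the last letter). -/
noncomputable def wv : List G → (dbl G).Gr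
  | [] => 0
  | [a] => (dbl G).ι 1 a
  | a :: b :: l => ⁅wv (b :: l), (dbl G).ι 1 a⁆

open Classical in
theorem wv_wd (g : G) (l : List G) : Wd Hm ((dbl G).ι 1 g) l.length (l.length - l.count g) (wv l) := by
  match l with
  | [] => exact Wd.zero _ _
  | [a] =>
    by_cases h : a = g
    · subst h
      have : [a].length - [a].count a = 0 := by simp
      rw [this]
      exact Wd.y
    · have : [a].length - [a].count g = 1 := by simp [h]
      rw [this]
      exact Wd.atom _ (Hm_gen a)
  | a :: b :: l =>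
    have ih := wv_wd g (b :: l)
    have hc : (b :: l).count g ≤ (b :: l).length := List.count_le_length
    by_cases h : a = g
    · subst h
      have e : (a :: b :: l).length - (a :: b :: l).count a =
          (b :: l).length - (b :: l).count a := by
        rw [List.count_cons_self, List.length_cons]; omega
      rw [e]
      exact Wd.my ih
    · have e : (a :: b :: l).length - (a :: b :: l).count g =
          (b :: l).length - (b :: l).count g + 1 := by
        rw [List.count_cons_of_ne h, List.length_cons]; omega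
      rw [e]
      exact Wd.mx ih (Hm_gen a)

open Classical in
theorem wv_zero (h7 : ∀ g : G, g ^ 7 = 1) (h5 : ∀ a b : G, NSer.eng5 a b = 1) {g : G} {l : List G}
    (h : 7 ≤ l.count g) : wv l = 0 := by
  have hH : Hyp Hm ((dbl G).ι 1 g) (l.length - l.count g) :=
    Hyp_all (seven_smul _ h7) Hm_zero (Hm_gen g) Hm_lie
      (fun ky S u => engel_identity h7 h5 (Hm_gen g) ky S u) _
  refine hH _ _ (wv_wd g l) ?_
  have : l.count g ≤ l.length := List.count_le_length
  omega

/-- The additive span of the words of length `n` in the elements of `X`. -/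
noncomputable def Sp (X : Finset G) (n : ℕ) : AddSubgroup (dbl G).Gr :=
  AddSubgroup.closure {u | ∃ l : List G, l.length = n ∧ (∀ a ∈ l, a ∈ X) ∧ u = wv l}

theorem Sp_lie {X : Finset G} {n : ℕ} (hn : 1 ≤ n) {u v : (dbl G).Gr} (hu : u ∈ Sp X n)
    (hv : v ∈ Sp X 1) : ⁅u, v⁆ ∈ Sp X (n + 1) := by
  induction hv using AddSubgroup.closure_induction with
  | zero => rw [lie_zero]; exact zero_mem _
  | add x y _ _ hx hy => rw [lie_add]; exact add_mem hx hy
  | neg x _ hx => rw [lie_neg]; exact neg_mem hx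
  | mem v hv =>
    obtain ⟨l', hl', hlX', rfl⟩ := hv
    obtain ⟨a, rfl⟩ := List.length_eq_one_iff.1 hl'
    induction hu using AddSubgroup.closure_induction with
    | zero => rw [zero_lie]; exact zero_mem _
    | add x y _ _ hx hy => rw [add_lie]; exact add_mem hx hy
    | neg x _ hx => rw [neg_lie]; exact neg_mem hx
    | mem u hu =>
      obtain ⟨l, hl, hlX, rfl⟩ := hu
      refine AddSubgroup.subset_closure ⟨a :: l, by simp [hl], ?_, ?_⟩
      · intro c hc
        rcases List.mem_cons.1 hc with h | h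
        · rw [h]; exact hlX' a (by simp)
        · exact hlX c h
      · cases l with
        | nil => simp only [List.length_nil] at hl; omega
        | cons b l => rfl

theorem ι_one_mem_Sp {X : Finset G} (hX : Subgroup.closure (X : Set G) = ⊤) (c : G) :
    (dbl G).ι 1 c ∈ Sp X 1 := by
  have hc : c ∈ Subgroup.closure (X : Set G) := by rw [hX]; exact mem_top c
  induction hc using Subgroup.closure_induction with
  | one => rw [(dbl G).ι_one]; exact zero_mem _
  | mul x y _ _ hx hy =>
    rw [(dbl G).ι_mul (mem_one x) (mem_one y)]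
    exact add_mem hx hy
  | inv x _ hx => rw [ι_inv _ (mem_one x)]; exact neg_mem hx
  | mem x hx =>
    refine AddSubgroup.subset_closure ⟨[x], rfl, ?_, rfl⟩
    intro a ha
    rw [List.mem_singleton.1 ha]
    exact hx

theorem ι_mem_Sp {X : Finset G} (hX : Subgroup.closure (X : Set G) = ⊤) (n : ℕ) : ∀ c : G,
    c ∈ (⊤ : Subgroup G).lowerCentralSeries n → (dbl G).ι (2 * n + 1) c ∈ Sp X (n + 1) := by
  induction n with
  | zero =>
    intro c _
    exact ι_one_mem_Sp hX c
  | succ n ih =>
    intro c hc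
    have hΓ : ∀ g, g ∈ (⊤ : Subgroup G).lowerCentralSeries (n + 1) → g ∈ (dbl G).Γ (2 * (n + 1) + 1) := by
      intro g hg
      change g ∈ (⊤ : Subgroup G).lowerCentralSeries ((2 * (n + 1) + 1) / 2)
      have e : (2 * (n + 1) + 1) / 2 = n + 1 := by omega
      rwa [e]
    have hΓ' : ∀ g, g ∈ (⊤ : Subgroup G).lowerCentralSeries n → g ∈ (dbl G).Γ (2 * n + 1) := by
      intro g hg
      change g ∈ (⊤ : Subgroup G).lowerCentralSeries ((2 * n + 1) / 2)
      have e : (2 * n + 1) / 2 = n := by omega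
      rwa [e]
    have hc' := (Subgroup.mem_lowerCentralSeries_succ_iff _ n c).1 hc
    have key : ∀ c, c ∈ closure {x | ∃ p ∈ (⊤ : Subgroup G).lowerCentralSeries n,
        ∃ q ∈ (⊤ : Subgroup G), ⁅p, q⁆ = x} →
        c ∈ (⊤ : Subgroup G).lowerCentralSeries (n + 1) := fun c hc =>
      (Subgroup.mem_lowerCentralSeries_succ_iff _ n c).2 hc
    clear hc
    induction hc' using Subgroup.closure_induction with
    | one => rw [(dbl G).ι_one]; exact zero_mem _
    | mul x y hx' hy' hx hy =>
      rw [(dbl G).ι_mul (hΓ x (key x hx')) (hΓ y (key y hy'))]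
      exact add_mem hx hy
    | inv x hx' hx => rw [ι_inv _ (hΓ x (key x hx'))]; exact neg_mem hx
    | mem x hx =>
      obtain ⟨p, hp, q, _, rfl⟩ := hx
      have h1 := (dbl G).lie_ι (hΓ' p hp) (mem_one q)
      have e : 2 * n + 1 + 1 + 1 = 2 * (n + 1) + 1 := by omega
      rw [e] at h1
      rw [← h1]
      exact Sp_lie (by omega) (ih p hp) (ι_one_mem_Sp hX q)

omit [Group G] in
open Classical in
theorem exists_count {X : Finset G} {l : List G} (hl : ∀ a ∈ l, a ∈ X)
    (h : 6 * X.card < l.length) : ∃ g, 7 ≤ l.count g := by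
  by_contra hcon
  push Not at hcon
  have h1 : ∑ a ∈ X, (l : Multiset G).count a = Multiset.card (l : Multiset G) := by
    refine Multiset.sum_count_eq_card ?_
    intro a ha
    exact hl a (by simpa using ha)
  have h2 : ∑ a ∈ X, (l : Multiset G).count a ≤ ∑ a ∈ X, 6 := by
    refine Finset.sum_le_sum ?_
    intro a _
    have := hcon a
    rw [Multiset.coe_count]
    omega
  rw [h1, Finset.sum_const, smul_eq_mul, Multiset.coe_card] at h2
  omega

/-- The lower central series stabilises at `6 * m`. -/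
theorem lcs_stable (h7 : ∀ g : G, g ^ 7 = 1) (h5 : ∀ a b : G, NSer.eng5 a b = 1) {X : Finset G}
    (hX : Subgroup.closure (X : Set G) = ⊤) {m : ℕ} (hm : X.card ≤ m) :
    (⊤ : Subgroup G).lowerCentralSeries (6 * m) ≤ (⊤ : Subgroup G).lowerCentralSeries (6 * m + 1) := by
  intro c hc
  have h1 := ι_mem_Sp hX (6 * m) c hc
  have h2 : Sp X (6 * m + 1) ≤ ⊥ := by
    unfold Sp
    rw [AddSubgroup.closure_le]
    rintro u ⟨l, hl, hlX, rfl⟩
    classical
    obtain ⟨g, hg⟩ := exists_count hlX (by omega)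
    simp [wv_zero h7 h5 hg]
  have h3 : (dbl G).ι (2 * (6 * m) + 1) c = 0 := by simpa using h2 h1
  have hc' : c ∈ (dbl G).Γ (2 * (6 * m) + 1) := by
    change c ∈ (⊤ : Subgroup G).lowerCentralSeries ((2 * (6 * m) + 1) / 2)
    have e : (2 * (6 * m) + 1) / 2 = 6 * m := by omega
    rwa [e]
  have h4 := ((dbl G).ι_eq_zero hc').1 h3
  change c ∈ (⊤ : Subgroup G).lowerCentralSeries ((2 * (6 * m) + 1 + 1) / 2) at h4
  have e : (2 * (6 * m) + 1 + 1) / 2 = 6 * m + 1 := by omega
  rwa [e] at h4

/-- A nilpotent group of exponent dividing 7, generated by `m` elements and satisfying the 5-Engel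
law has class at most `6 * m`. -/
theorem lcs_eq_bot [Group.IsNilpotent G] (h7 : ∀ g : G, g ^ 7 = 1)
    (h5 : ∀ a b : G, NSer.eng5 a b = 1) {X : Finset G}
    (hX : Subgroup.closure (X : Set G) = ⊤) {m : ℕ} (hm : X.card ≤ m) :
    (⊤ : Subgroup G).lowerCentralSeries (6 * m) = ⊥ := by
  have hs := lcs_stable h7 h5 hX hm
  have hk : ∀ k, (⊤ : Subgroup G).lowerCentralSeries (6 * m) ≤
      (⊤ : Subgroup G).lowerCentralSeries (6 * m + k) := by
    intro k
    induction k with
    | zero => exact le_rfl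
    | succ k ih =>
      refine hs.trans ?_
      rw [← add_assoc, Subgroup.lowerCentralSeries_succ, Subgroup.lowerCentralSeries_succ]
      exact commutator_mono ih le_rfl
  obtain ⟨n, hn⟩ := Subgroup.nilpotent_iff_lowerCentralSeries.1 (inferInstance : Group.IsNilpotent G)
  rw [eq_bot_iff, ← hn]
  exact (hk n).trans (Subgroup.lowerCentralSeries_antitone _ (by omega))

end

end Pool.E802
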