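import Pool.Agent.E802.Rel
import Pool.Agent.E802.Ext
import Pool.Agent.E802.Final

/-!
# Words modulo the derived series of the subgroup of 5-Engel commutators
-/

universe u

namespace Pool.E802

open scoped commutatorElement
open Subgroup

/-! ### Step A: the relative 6-Engel law -/

theorem abel6 {V : Type*} [AddCommGroup V] (h7 : ∀ v : V, 7 • v = 0) (ψ : V →+ V) (x : V)
    (hs : x + ψ x + ψ (ψ x) + ψ (ψ (ψ x)) + ψ (ψ (ψ (ψ x))) + ψ (ψ (ψ (ψ (ψ x)))) +
      ψ (ψ (ψ (ψ (ψ (ψ x))))) = 0) :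
    (fun v => v - ψ v)^[6] x = 0 := by
  simp only [Function.iterate_succ, Function.iterate_zero, Function.comp, id, map_sub]
  generalize ψ x = x1 at *
  generalize ψ x1 = x2 at *
  generalize ψ x2 = x3 at *
  generalize ψ x3 = x4 at *
  generalize ψ x4 = x5 at *
  generalize ψ x5 = x6 at *
  have h := h7 (-x1 + 2 • x2 - 3 • x3 + 2 • x4 - x5)
  have e : (x + x1 + x2 + x3 + x4 + x5 + x6) + 7 • (-x1 + 2 • x2 - 3 • x3 + 2 • x4 - x5) = 0 := by
    rw [hs, h, add_zero]
  rw [← e]
  abel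

section
variable {G : Type u} [Group G]

theorem engN_map {G' : Type*} [Group G'] (π : G →* G') (n : ℕ) :
    ∀ a b : G, π (NSer.engN n a b) = NSer.engN n (π a) (π b) := by
  induction n with
  | zero => intro a b; rfl
  | succ n ih =>
    intro a b
    have := ih ⁅a, b⁆ b
    rw [map_commutatorElement] at this
    exact this

/-- In a group of exponent dividing 7, the 6-Engel law holds on abelian normal subgroups. -/
theorem engN_six_abelian (h7 : ∀ g : G, g ^ 7 = 1) {A : Subgroup G} [hA : A.Normal]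
    (hab : ∀ a ∈ A, ∀ b ∈ A, a * b = b * a) {a : G} (ha : a ∈ A) (b : G) :
    NSer.engN 6 a b = 1 := by
  let _ : CommGroup A := { (inferInstance : Group A) with
    mul_comm := fun x y => Subtype.ext (hab _ x.2 _ y.2) }
  let φ : A →* A := (MulAut.conjNormal b : MulAut A).toMonoidHom
  have hφ : ∀ x : A, ((φ x : A) : G) = b * x * b⁻¹ := fun x => MulAut.conjNormal_apply b x
  let ψ : Additive A →+ Additive A := MonoidHom.toAdditive φ
  have hψ : ∀ x : Additive A, (((ψ x).toMul : A) : G) = b * ((x.toMul : A) : G) * b⁻¹ :=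
    fun x => hφ x.toMul
  have key : ∀ (n : ℕ) (x : Additive A),
      ((((fun v => v - ψ v)^[n] x).toMul : A) : G) = NSer.engN n ((x.toMul : A) : G) b := by
    intro n
    induction n with
    | zero => intro x; rfl
    | succ n ih =>
      intro x
      rw [Function.iterate_succ_apply, ih]
      change NSer.engN n _ b = NSer.engN n ⁅((x.toMul : A) : G), b⁆ b
      congr 1
      have : (((x - ψ x).toMul : A) : G) = ((x.toMul : A) : G) * (((ψ x).toMul : A) : G)⁻¹ := by
        rw [toMul_sub, div_eq_mul_inv]; rfl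
      rw [this, hψ, commutatorElement_def]
      group
  have h7' : ∀ v : Additive A, 7 • v = 0 := by
    intro v
    apply Additive.toMul.injective
    apply Subtype.ext
    exact h7 _
  have h6 := abel6 h7' ψ (Additive.ofMul ⟨a, ha⟩) (by
    apply Additive.toMul.injective
    apply Subtype.ext
    simp only [toMul_add, Subgroup.coe_mul, hψ]
    have h1 : (a * b) * (a * b) * (a * b) * (a * b) * (a * b) * (a * b) * (a * b) = 1 := by
      rw [← h7 (a * b)]
      simp only [pow_succ, pow_zero, one_mul]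
    have h2 := h7 b
    have h3 : (a * b) * (a * b) * (a * b) * (a * b) * (a * b) * (a * b) * (a * b) * (b ^ 7)⁻¹ = 1 := by
      rw [h1, h2, inv_one, one_mul]
    rw [← show (a * b) * (a * b) * (a * b) * (a * b) * (a * b) * (a * b) * (a * b) * (b ^ 7)⁻¹ =
      ((0 : Additive A).toMul : G) from h3]
    simp only [toMul_ofMul]
    group)
  have := key 6 (Additive.ofMul ⟨a, ha⟩)
  rw [h6] at this
  exact this.symm

theorem engN_six (h7 : ∀ g : G, g ^ 7 = 1) {A B : Subgroup G} [hA : A.Normal] [hB : B.Normal]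
    (hAB : ⁅A, A⁆ ≤ B) {a : G} (ha : a ∈ A) (b : G) : NSer.engN 6 a b ∈ B := by
  let π : G →* G ⧸ B := QuotientGroup.mk' B
  have hπ : Function.Surjective π := QuotientGroup.mk'_surjective B
  have h7' : ∀ g : G ⧸ B, g ^ 7 = 1 := by
    intro g
    obtain ⟨a, rfl⟩ := hπ g
    rw [← map_pow, h7, map_one]
  have hn : (A.map π).Normal := hA.map π hπ
  have := engN_six_abelian h7' (A := A.map π) (by
    rintro _ ⟨x, hx, rfl⟩ _ ⟨y, hy, rfl⟩
    have h1 : ⁅x, y⁆ ∈ B := hAB (commutator_mem_commutator hx hy)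
    have h2 : ⁅π x, π y⁆ = 1 := by
      rw [← map_commutatorElement]
      exact (QuotientGroup.eq_one_iff _).2 h1
    exact commutatorElement_eq_one_iff_mul_comm.1 h2) (mem_map_of_mem π ha) (π b)
  rw [← engN_map] at this
  exact (QuotientGroup.eq_one_iff _).1 this

/-! ### Subgroups of the graded ring given by normal subgroups -/

/-- The additive subgroup spanned by the classes of the elements of `B`. -/
noncomputable def TI (B : Subgroup G) : AddSubgroup (dbl G).Gr :=
  AddSubgroup.closure {u | ∃ n e, e ∈ B ∧ e ∈ (dbl G).Γ n ∧ u = (dbl G).ι n e}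

theorem TI_mono {A B : Subgroup G} (h : A ≤ B) : TI A ≤ TI B := by
  refine AddSubgroup.closure_mono ?_
  rintro u ⟨n, e, he, he', rfl⟩
  exact ⟨n, e, h he, he', rfl⟩

theorem TI_bot : TI (⊥ : Subgroup G) = ⊥ := by
  rw [eq_bot_iff]
  unfold TI
  rw [AddSubgroup.closure_le]
  rintro u ⟨n, e, he, _, rfl⟩
  rw [Subgroup.mem_bot] at he
  rw [he, (dbl G).ι_one]
  exact zero_mem _

theorem TI_stab {B : Subgroup G} [hB : B.Normal] : Stab Hm (TI B) := by
  rintro v hv h ⟨k, g, _, hg, rfl⟩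
  induction hv using AddSubgroup.closure_induction with
  | zero => rw [zero_lie]; exact zero_mem _
  | add x y _ _ hx hy => rw [add_lie]; exact add_mem hx hy
  | neg x _ hx => rw [neg_lie]; exact neg_mem hx
  | mem u hu =>
    obtain ⟨n, e, he, he', rfl⟩ := hu
    refine AddSubgroup.subset_closure ⟨n + k + 1, ⁅e, g⁆, ?_, (dbl G).comm _ _ _ _ he' hg,
      (dbl G).lie_ι he' hg⟩
    have : ⁅e, g⁆ = e * (g * e⁻¹ * g⁻¹) := by rw [commutatorElement_def]; group
    rw [this]
    exact mul_mem he (hB.conj_mem _ (inv_mem he) g)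

theorem TI_lie {A B : Subgroup G} (hAB : ⁅A, A⁆ ≤ B) {u v : (dbl G).Gr} (hu : u ∈ TI A)
    (hv : v ∈ TI A) : ⁅u, v⁆ ∈ TI B := by
  induction hu using AddSubgroup.closure_induction with
  | zero => rw [zero_lie]; exact zero_mem _
  | add x y _ _ hx hy => rw [add_lie]; exact add_mem hx hy
  | neg x _ hx => rw [neg_lie]; exact neg_mem hx
  | mem u hu =>
    obtain ⟨n, e, he, he', rfl⟩ := hu
    induction hv using AddSubgroup.closure_induction with
    | zero => rw [lie_zero]; exact zero_mem _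
    | add x y _ _ hx hy => rw [lie_add]; exact add_mem hx hy
    | neg x _ hx => rw [lie_neg]; exact neg_mem hx
    | mem v hv =>
      obtain ⟨k, g, hg, hg', rfl⟩ := hv
      exact AddSubgroup.subset_closure ⟨n + k + 1, ⁅e, g⁆,
        hAB (commutator_mem_commutator he hg), (dbl G).comm _ _ _ _ he' hg', (dbl G).lie_ι he' hg'⟩

theorem wS_neg {L : Type*} [LieRing L] (y : L) (f ky : ℕ) (S : List L) (u : L) :
    wS y f ky S (-u) = -wS y f ky S u := by
  have := wS_add y f ky S u (-u)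
  rw [add_neg_cancel, wS_zero] at this
  exact (neg_eq_of_add_eq_zero_right this.symm).symm

/-- The relative multilinear 6-Engel identity. -/
theorem TI_wS (h7 : ∀ g : G, g ^ 7 = 1) {A B : Subgroup G} [hA : A.Normal] [hB : B.Normal]
    (hAB : ⁅A, A⁆ ≤ B) (y : (dbl G).Gr) (l : List (dbl G).Gr) (hl : l.length = 6)
    (hlH : ∀ w ∈ l, Hm w) (t : (dbl G).Gr) (ht : t ∈ TI A) : wS y 6 0 l t ∈ TI B := by
  obtain ⟨Z, hZ, rfl⟩ := exists_Z l hlH
  induction ht using AddSubgroup.closure_induction with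
  | zero => rw [wS_zero]; exact zero_mem _
  | add x z _ _ hx hz => rw [wS_add]; exact add_mem hx hz
  | neg x _ hx => rw [wS_neg]; exact neg_mem hx
  | mem u hu =>
    obtain ⟨n, e, he, he', rfl⟩ := hu
    rw [wS_ky0 y ((dbl G).ι 0 1)]
    obtain ⟨f, hfB, hf, hf'⟩ := NSer.linR 6 6 G (dbl G) A B (fun a ha b => engN_six h7 hAB ha b) 0 1
      (one_mem _) Z hZ (by simpa using hl) 0 rfl n e he' he
    rw [hf']
    exact AddSubgroup.subset_closure ⟨_, f, hfB, hf, rfl⟩

/-! ### The base case -/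

theorem map_Γ {G' : Type*} [Group G'] (π : G →* G') (hπ : Function.Surjective π) (n : ℕ) :
    ((dbl G).Γ n).map π = (dbl G').Γ n := by
  change Subgroup.map π ((⊤ : Subgroup G).lowerCentralSeries (n / 2)) =
    (⊤ : Subgroup G').lowerCentralSeries (n / 2)
  rw [Subgroup.map_lowerCentralSeries, Subgroup.map_top_of_surjective π hπ]

theorem wd_push {G' : Type u} [Group G'] (π : G →* G') (hπ : Function.Surjective π) (g : G)
    {n b : ℕ} {u : (dbl G).Gr} (hu : Wd Hm ((dbl G).ι 1 g) n b u) :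
    ∃ k e, 1 ≤ k ∧ e ∈ (dbl G).Γ k ∧ u = (dbl G).ι k e ∧
      Wd Hm ((dbl G').ι 1 (π g)) n b ((dbl G').ι k (π e)) := by
  have hm : ∀ {k : ℕ} {e : G}, e ∈ (dbl G).Γ k → π e ∈ (dbl G').Γ k := by
    intro k e he
    rw [← map_Γ π hπ]
    exact mem_map_of_mem π he
  induction hu with
  | zero n b =>
    refine ⟨1, 1, le_rfl, one_mem _, ((dbl G).ι_one 1).symm, ?_⟩
    rw [map_one, (dbl G').ι_one]
    exact Wd.zero _ _
  | y => exact ⟨1, g, le_rfl, mem_one g, rfl, Wd.y⟩
  | atom x hx =>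
    obtain ⟨k, e, hk, he, rfl⟩ := hx
    exact ⟨k, e, hk, he, rfl, Wd.atom _ ⟨k, π e, hk, hm he, rfl⟩⟩
  | my _ ih =>
    obtain ⟨k, e, hk, he, rfl, hw⟩ := ih
    refine ⟨k + 1 + 1, ⁅e, g⁆, by omega, (dbl G).comm _ _ _ _ he (mem_one g),
      (dbl G).lie_ι he (mem_one g), ?_⟩
    rw [map_commutatorElement, ← (dbl G').lie_ι (hm he) (mem_one (π g))]
    exact Wd.my hw
  | mx _ hx ih =>
    obtain ⟨k, e, hk, he, rfl, hw⟩ := ih
    obtain ⟨k', e', hk', he', rfl⟩ := hx
    refine ⟨k + k' + 1, ⁅e, e'⁆, by omega, (dbl G).comm _ _ _ _ he he',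
      (dbl G).lie_ι he he', ?_⟩
    rw [map_commutatorElement, ← (dbl G').lie_ι (hm he) (hm he')]
    exact Wd.mx hw ⟨k', π e', hk', hm he', rfl⟩

theorem wd_base (h7 : ∀ g : G, g ^ 7 = 1) {E : Subgroup G} [hE : E.Normal]
    (h5 : ∀ a b : G, NSer.eng5 a b ∈ E) (g : G) (n b : ℕ) (u : (dbl G).Gr)
    (hu : Wd Hm ((dbl G).ι 1 g) n b u) (hn : b + 7 ≤ n) : u ∈ TI E := by
  let π : G →* G ⧸ E := QuotientGroup.mk' E
  have hπ : Function.Surjective π := QuotientGroup.mk'_surjective E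
  have h7' : ∀ g : G ⧸ E, g ^ 7 = 1 := by
    intro g
    obtain ⟨a, rfl⟩ := hπ g
    rw [← map_pow, h7, map_one]
  have h5' : ∀ a b : G ⧸ E, NSer.eng5 a b = 1 := by
    intro a b
    obtain ⟨a, rfl⟩ := hπ a
    obtain ⟨b, rfl⟩ := hπ b
    have h1 : π (NSer.eng5 a b) = 1 := (QuotientGroup.eq_one_iff _).2 (h5 a b)
    unfold NSer.eng5 at h1 ⊢
    simpa only [map_commutatorElement] using h1
  obtain ⟨k, e, hk, he, rfl, hw⟩ := wd_push π hπ g hu
  have h0 := Hyp_all (seven_smul _ h7') Hm_zero (Hm_gen (π g)) Hm_lie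
      (fun ky S u => engel_identity h7' h5' (Hm_gen (π g)) ky S u) b n _ hw (by omega)
  have he' : π e ∈ (dbl (G ⧸ E)).Γ k := by
    rw [← map_Γ π hπ]
    exact mem_map_of_mem π he
  rw [(dbl (G ⧸ E)).ι_eq_zero he', ← map_Γ π hπ] at h0
  obtain ⟨c, hc, hce⟩ := h0
  have hcE : c⁻¹ * e ∈ E := by
    have : π (c⁻¹ * e) = 1 := by rw [map_mul, map_inv, hce, inv_mul_cancel]
    exact (QuotientGroup.eq_one_iff _).1 this
  have hc' : c ∈ (dbl G).Γ k := (dbl G).anti k hc
  have h1 : (dbl G).ι k e = (dbl G).ι k c + (dbl G).ι k (c⁻¹ * e) := by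
    rw [← (dbl G).ι_mul hc' (mul_mem (inv_mem hc') he), mul_inv_cancel_left]
  rw [h1, ((dbl G).ι_eq_zero hc').2 hc, zero_add]
  exact AddSubgroup.subset_closure ⟨k, _, hcE, mul_mem (inv_mem hc') he, rfl⟩

/-! ### The derived series -/

/-- The derived series of `E`, as subgroups of `G`. -/
def Dn (E : Subgroup G) : ℕ → Subgroup G
  | 0 => E
  | n + 1 => ⁅Dn E n, Dn E n⁆

theorem Dn_normal {E : Subgroup G} (hE : E.Normal) (n : ℕ) : (Dn E n).Normal := by
  induction n with
  | zero => exact hE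
  | succ n ih => exact Subgroup.commutator_normal _ _

theorem Dn_eq (E : Subgroup G) (n : ℕ) : Dn E n = (derivedSeries E n).map E.subtype := by
  induction n with
  | zero =>
    change E = (⊤ : Subgroup E).map E.subtype
    rw [← MonoidHom.range_eq_map, Subgroup.range_subtype]
  | succ n ih =>
    change ⁅Dn E n, Dn E n⁆ = (⁅derivedSeries E n, derivedSeries E n⁆).map E.subtype
    rw [Subgroup.map_commutator, ih]

theorem Dn_map {G' : Type*} [Group G'] (π : G →* G') (E : Subgroup G) (n : ℕ) :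
    (Dn E n).map π = Dn (E.map π) n := by
  induction n with
  | zero => rfl
  | succ n ih =>
    change (⁅Dn E n, Dn E n⁆).map π = ⁅Dn (E.map π) n, Dn (E.map π) n⁆
    rw [Subgroup.map_commutator, ih]

theorem K_pos {K : ℕ → ℕ} (h0 : K 0 = 7) (hs : ∀ i, K (i + 1) = K i + 6 ^ (K i - 1)) (i : ℕ) :
    1 ≤ K i := by
  induction i with
  | zero => omega
  | succ i ih => rw [hs]; exact le_trans ih (Nat.le_add_right _ _)

theorem wd_derived (h7 : ∀ g : G, g ^ 7 = 1) {E : Subgroup G} (hE : E.Normal)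
    (h5 : ∀ a b : G, NSer.eng5 a b ∈ E) {K : ℕ → ℕ} (h0 : K 0 = 7)
    (hs : ∀ i, K (i + 1) = K i + 6 ^ (K i - 1)) (g : G) (i : ℕ) : ∀ (n b : ℕ) (u : (dbl G).Gr),
      Wd Hm ((dbl G).ι 1 g) n b u → b + K i ≤ n → u ∈ TI (Dn E i) := by
  induction i with
  | zero =>
    intro n b u hu hn
    rw [h0] at hn
    exact wd_base h7 h5 g n b u hu hn
  | succ i ih =>
    intro n b u hu hn
    have n1 := Dn_normal hE i
    have n2 := Dn_normal hE (i + 1)
    rw [hs, ← add_assoc] at hn
    refine ext_lemma Hm_zero (Hm_gen g) Hm_lie (seven_smul _ h7)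
      (fun l hl hlH t ht => TI_wS h7 (A := Dn E i) (B := Dn E (i + 1)) le_rfl _ l hl hlH t ht)
      TI_stab TI_stab (TI_mono (Subgroup.commutator_le_left _ _))
      (fun t ht t' ht' => TI_lie (A := Dn E i) (B := Dn E (i + 1)) le_rfl ht ht')
      (K_pos h0 hs i) ih n b u hu hn

omit [Group G] in
open Classical in
theorem exists_count' {K : ℕ} {X : Finset G} {l : List G} (hl : ∀ a ∈ l, a ∈ X)
    (h : (K - 1) * X.card < l.length) : ∃ g, K ≤ l.count g := by
  by_contra hcon
  push Not at hcon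
  have h1 : ∑ a ∈ X, (l : Multiset G).count a = Multiset.card (l : Multiset G) := by
    refine Multiset.sum_count_eq_card ?_
    intro a ha
    exact hl a (by simpa using ha)
  have h2 : ∑ a ∈ X, (l : Multiset G).count a ≤ ∑ a ∈ X, (K - 1) := by
    refine Finset.sum_le_sum ?_
    intro a _
    have := hcon a
    rw [Multiset.coe_count]
    omega
  rw [h1, Finset.sum_const, smul_eq_mul, Multiset.coe_card, mul_comm] at h2
  omega

open Classical in
theorem wv_zero' {E : Subgroup G} (h7 : ∀ g : G, g ^ 7 = 1) (hE : E.Normal)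
    (h5 : ∀ a b : G, NSer.eng5 a b ∈ E) {K : ℕ → ℕ} (h0 : K 0 = 7)
    (hs : ∀ i, K (i + 1) = K i + 6 ^ (K i - 1)) {d : ℕ} (hd : Dn E d = ⊥) {g : G} {l : List G}
    (h : K d ≤ l.count g) : wv l = 0 := by
  have := wd_derived h7 hE h5 h0 hs g d _ _ _ (wv_wd g l) (by
    have : l.count g ≤ l.length := List.count_le_length
    omega)
  rw [hd, TI_bot] at this
  simpa using this

theorem lcs_stable' {E : Subgroup G} (h7 : ∀ g : G, g ^ 7 = 1) (hE : E.Normal)
    (h5 : ∀ a b : G, NSer.eng5 a b ∈ E) {K : ℕ → ℕ} (h0 : K 0 = 7)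
    (hs : ∀ i, K (i + 1) = K i + 6 ^ (K i - 1)) {d : ℕ} (hd : Dn E d = ⊥) {X : Finset G}
    (hX : Subgroup.closure (X : Set G) = ⊤) {m : ℕ} (hm : X.card ≤ m) :
    (⊤ : Subgroup G).lowerCentralSeries ((K d - 1) * m) ≤
      (⊤ : Subgroup G).lowerCentralSeries ((K d - 1) * m + 1) := by
  generalize hM : (K d - 1) * m = M
  intro c hc
  have h1 := ι_mem_Sp hX M c hc
  have h2 : Sp X (M + 1) ≤ ⊥ := by
    unfold Sp
    rw [AddSubgroup.closure_le]
    rintro u ⟨l, hl, hlX, rfl⟩
    classical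
    have h3 : (K d - 1) * X.card ≤ (K d - 1) * m := Nat.mul_le_mul_left _ hm
    obtain ⟨g, hg⟩ := exists_count' (K := K d) hlX (by omega)
    simp [wv_zero' h7 hE h5 h0 hs hd hg]
  have h3 : (dbl G).ι (2 * M + 1) c = 0 := by simpa using h2 h1
  have hc' : c ∈ (dbl G).Γ (2 * M + 1) := by
    change c ∈ (⊤ : Subgroup G).lowerCentralSeries ((2 * M + 1) / 2)
    have e : (2 * M + 1) / 2 = M := by omega
    rwa [e]
  have h4 := ((dbl G).ι_eq_zero hc').1 h3
  change c ∈ (⊤ : Subgroup G).lowerCentralSeries ((2 * M + 1 + 1) / 2) at h4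
  have e : (2 * M + 1 + 1) / 2 = M + 1 := by omega
  rwa [e] at h4

theorem lcs_eq_bot_of_stable [Group.IsNilpotent G] {M : ℕ}
    (hs : (⊤ : Subgroup G).lowerCentralSeries M ≤ (⊤ : Subgroup G).lowerCentralSeries (M + 1)) :
    (⊤ : Subgroup G).lowerCentralSeries M = ⊥ := by
  have hk : ∀ k, (⊤ : Subgroup G).lowerCentralSeries M ≤
      (⊤ : Subgroup G).lowerCentralSeries (M + k) := by
    intro k
    induction k with
    | zero => exact le_rfl
    | succ k ih =>
      refine hs.trans ?_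
      rw [← add_assoc, Subgroup.lowerCentralSeries_succ, Subgroup.lowerCentralSeries_succ]
      exact commutator_mono ih le_rfl
  obtain ⟨n, hn⟩ := Subgroup.nilpotent_iff_lowerCentralSeries.1 (inferInstance : Group.IsNilpotent G)
  rw [eq_bot_iff, ← hn]
  exact (hk n).trans (Subgroup.lowerCentralSeries_antitone _ (by omega))

/-- For every finite `m`-generator group of exponent dividing 7 and every normal subgroup `E`
containing all 5-Engel commutators, `γ_{(K d - 1) m + 1}(G)` lies in the `d`-th derived subgroup of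
`E`. -/
theorem lcs_le_derived [Finite G] {E : Subgroup G} (h7 : ∀ g : G, g ^ 7 = 1) (hE : E.Normal)
    (h5 : ∀ a b : G, NSer.eng5 a b ∈ E) {K : ℕ → ℕ} (h0 : K 0 = 7)
    (hs : ∀ i, K (i + 1) = K i + 6 ^ (K i - 1)) (d m : ℕ) (x : Fin m → G)
    (hx : Subgroup.closure (Set.range x) = ⊤) :
    (⊤ : Subgroup G).lowerCentralSeries ((K d - 1) * m) ≤ Dn E d := by
  classical
  have hn := Dn_normal hE d
  let π : G →* G ⧸ Dn E d := QuotientGroup.mk' (Dn E d)
  have hπ : Function.Surjective π := QuotientGroup.mk'_surjective _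
  have h7' : ∀ g : G ⧸ Dn E d, g ^ 7 = 1 := by
    intro g
    obtain ⟨a, rfl⟩ := hπ g
    rw [← map_pow, h7, map_one]
  have h5' : ∀ a b : G ⧸ Dn E d, NSer.eng5 a b ∈ E.map π := by
    intro a b
    obtain ⟨a, rfl⟩ := hπ a
    obtain ⟨b, rfl⟩ := hπ b
    refine ⟨NSer.eng5 a b, h5 a b, ?_⟩
    unfold NSer.eng5
    simp only [map_commutatorElement]
  have hp : IsPGroup 7 (G ⧸ Dn E d) := fun g => ⟨1, by rw [pow_one]; exact h7' g⟩
  have : Fact (Nat.Prime 7) := ⟨by norm_num⟩
  have : Group.IsNilpotent (G ⧸ Dn E d) := hp.isNilpotent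
  have hX : Subgroup.closure ((Finset.univ.image (π ∘ x) : Finset (G ⧸ Dn E d)) :
      Set (G ⧸ Dn E d)) = ⊤ := by
    rw [Finset.coe_image, Finset.coe_univ, Set.image_univ, Set.range_comp, ← MonoidHom.map_closure,
      hx]
    exact Subgroup.map_top_of_surjective π hπ
  have hcard : (Finset.univ.image (π ∘ x) : Finset (G ⧸ Dn E d)).card ≤ m := by
    have := Finset.card_image_le (s := (Finset.univ : Finset (Fin m))) (f := π ∘ x)
    simpa using this
  have hd : Dn (E.map π) d = ⊥ := by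
    rw [← Dn_map, Subgroup.map_eq_bot_iff, QuotientGroup.ker_mk']
  have hbot := lcs_eq_bot_of_stable
    (lcs_stable' h7' (hE.map π hπ) h5' h0 hs hd hX hcard)
  have hmap : ((⊤ : Subgroup G).lowerCentralSeries ((K d - 1) * m)).map π ≤ ⊥ := by
    rw [Subgroup.map_lowerCentralSeries, Subgroup.map_top_of_surjective π hπ, hbot]
  intro c hc
  have h1 : π c ∈ ((⊤ : Subgroup G).lowerCentralSeries ((K d - 1) * m)).map π := ⟨c, hc, rfl⟩
  have h2 : π c = 1 := by simpa using hmap h1
  exact (QuotientGroup.eq_one_iff c).1 h2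

end

end Pool.E802
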