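import Mathlib.GroupTheory.Commutator.Basic
import Mathlib.GroupTheory.QuotientGroup.Basic
import Mathlib.Algebra.DirectSum.Basic
import Mathlib.Algebra.Lie.Basic
import Mathlib.Tactic

/-!
# The graded Lie ring of an N-series
-/

namespace Pool.E802

open scoped DirectSum commutatorElement

/-- An N-series of a group; the subgroup `Γ n` has weight `n + 1`. -/
structure NSer (G : Type*) [Group G] where
  Γ : ℕ → Subgroup G
  top : Γ 0 = ⊤
  anti : ∀ n, Γ (n + 1) ≤ Γ n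
  comm : ∀ (m n : ℕ) (a b : G), a ∈ Γ m → b ∈ Γ n → ⁅a, b⁆ ∈ Γ (m + n + 1)

namespace NSer

variable {G : Type*} [Group G] (S : NSer G)

theorem le_of_le {m n : ℕ} (h : m ≤ n) : S.Γ n ≤ S.Γ m := by
  induction h with
  | refl => exact le_rfl
  | step _ ih => exact (S.anti _).trans ih

theorem mem0 (g : G) : g ∈ S.Γ 0 := by rw [S.top]; trivial

theorem comm_le {m n k : ℕ} {a b : G} (ha : a ∈ S.Γ m) (hb : b ∈ S.Γ n) (h : k ≤ m + n + 1) :
    ⁅a, b⁆ ∈ S.Γ k := S.le_of_le h (S.comm m n a b ha hb)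

instance normal (n : ℕ) : (S.Γ n).Normal where
  conj_mem x hx g := by
    have h1 : ⁅g, x⁆ ∈ S.Γ n := S.comm_le (S.mem0 g) hx (by omega)
    have h2 : g * x * g⁻¹ = ⁅g, x⁆ * x := by rw [commutatorElement_def]; group
    rw [h2]
    exact mul_mem h1 hx

/-- Projection modulo `Γ k`. -/
def pr (k : ℕ) : G →* G ⧸ S.Γ k := QuotientGroup.mk' (S.Γ k)

theorem pr_eq {k : ℕ} {a b : G} : S.pr k a = S.pr k b ↔ a⁻¹ * b ∈ S.Γ k := by
  simp only [pr, QuotientGroup.mk'_apply]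
  exact QuotientGroup.eq

theorem pr_one {k : ℕ} {a : G} : S.pr k a = 1 ↔ a ∈ S.Γ k := by
  simp only [pr, QuotientGroup.mk'_apply]
  exact QuotientGroup.eq_one_iff a

theorem pr_commute {i j k : ℕ} {u v : G} (hu : u ∈ S.Γ i) (hv : v ∈ S.Γ j) (h : k ≤ i + j + 1) :
    Commute (S.pr k u) (S.pr k v) := by
  rw [← commutatorElement_eq_one_iff_commute, ← map_commutatorElement, pr_one]
  exact S.comm_le hu hv h

theorem mul_eq {Q : Type*} [Group Q] {a x b y : Q} (h1 : Commute x b) (h2 : Commute x y)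
    (h3 : Commute y a) : ⁅a * x, b * y⁆ = ⁅a, b⁆ := by
  have h4 : Commute x (b * y) := h1.mul_right h2
  rw [commutatorElement_def, commutatorElement_def]
  have e1 : a * x * (b * y) * (a * x)⁻¹ = a * (b * y) * a⁻¹ := by
    rw [mul_assoc a x, h4.eq]; group
  have e2 : a * (b * y) * a⁻¹ = a * b * a⁻¹ * y := by
    have : y * a⁻¹ = a⁻¹ * y := (h3.inv_right).eq
    calc a * (b * y) * a⁻¹ = a * b * (y * a⁻¹) := by group
      _ = a * b * (a⁻¹ * y) := by rw [this]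
      _ = a * b * a⁻¹ * y := by group
  rw [e1, e2]; group

/-- Well-definedness of the bracket. -/
theorem brk_wd {m n : ℕ} {a a' b b' : G} (ha : a ∈ S.Γ m) (hb : b ∈ S.Γ n)
    (haa : a⁻¹ * a' ∈ S.Γ (m + 1)) (hbb : b⁻¹ * b' ∈ S.Γ (n + 1)) :
    S.pr (m + n + 1 + 1) ⁅a', b'⁆ = S.pr (m + n + 1 + 1) ⁅a, b⁆ := by
  have ea : a' = a * (a⁻¹ * a') := by group
  have eb : b' = b * (b⁻¹ * b') := by group
  rw [ea, eb, map_commutatorElement, map_mul, map_mul, map_commutatorElement]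
  refine mul_eq (S.pr_commute haa hb (by omega)) (S.pr_commute haa hbb (by omega))
    (S.pr_commute hbb ha (by omega))

theorem brk_mul_left {m n : ℕ} {a a' b : G} (ha : a ∈ S.Γ m) (ha' : a' ∈ S.Γ m) (hb : b ∈ S.Γ n) :
    S.pr (m + n + 1 + 1) ⁅a * a', b⁆ = S.pr (m + n + 1 + 1) (⁅a, b⁆ * ⁅a', b⁆) := by
  have e : ⁅a * a', b⁆ = a * ⁅a', b⁆ * a⁻¹ * ⁅a, b⁆ := by
    simp only [commutatorElement_def]; group
  have h1 : Commute (S.pr (m + n + 1 + 1) a) (S.pr (m + n + 1 + 1) ⁅a', b⁆) :=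
    S.pr_commute ha (S.comm _ _ _ _ ha' hb) (by omega)
  have h2 : Commute (S.pr (m + n + 1 + 1) ⁅a', b⁆) (S.pr (m + n + 1 + 1) ⁅a, b⁆) :=
    S.pr_commute (S.comm _ _ _ _ ha' hb) (S.comm _ _ _ _ ha hb) (by omega)
  rw [e, map_mul, map_mul, map_mul, map_inv, h1.eq, mul_assoc _ _ (S.pr _ a)⁻¹, mul_inv_cancel,
    mul_one, h2.eq, map_mul]

theorem brk_mul_right {m n : ℕ} {a b b' : G} (ha : a ∈ S.Γ m) (hb : b ∈ S.Γ n) (hb' : b' ∈ S.Γ n) :
    S.pr (m + n + 1 + 1) ⁅a, b * b'⁆ = S.pr (m + n + 1 + 1) (⁅a, b⁆ * ⁅a, b'⁆) := by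
  have e : ⁅a, b * b'⁆ = ⁅a, b⁆ * (b * ⁅a, b'⁆ * b⁻¹) := by
    simp only [commutatorElement_def]; group
  have h1 : Commute (S.pr (m + n + 1 + 1) b) (S.pr (m + n + 1 + 1) ⁅a, b'⁆) :=
    S.pr_commute hb (S.comm _ _ _ _ ha hb') (by omega)
  rw [e, map_mul, map_mul, map_mul, map_inv, h1.eq, mul_assoc _ _ (S.pr _ b)⁻¹, mul_inv_cancel,
    mul_one, map_mul]

/-- The Leibniz identity modulo higher terms. -/
theorem brk_leibniz {l m n : ℕ} {a b c : G} (ha : a ∈ S.Γ l) (hb : b ∈ S.Γ m) (hc : c ∈ S.Γ n) :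
    S.pr (l + m + n + 3) ⁅a, ⁅b, c⁆⁆ = S.pr (l + m + n + 3) (⁅⁅a, b⁆, c⁆ * ⁅b, ⁅a, c⁆⁆) := by
  have hbc : ⁅b, c⁆ ∈ S.Γ (m + n + 1) := S.comm _ _ _ _ hb hc
  have hu : ⁅a, b⁆ ∈ S.Γ (l + m + 1) := S.comm _ _ _ _ ha hb
  have hv : ⁅a, c⁆ ∈ S.Γ (l + n + 1) := S.comm _ _ _ _ ha hc
  have huc : ⁅⁅a, b⁆, c⁆ ∈ S.Γ (l + m + n + 2) := S.comm_le hu hc (by omega)
  have hbv : ⁅b, ⁅a, c⁆⁆ ∈ S.Γ (l + m + n + 2) := S.comm_le hb hv (by omega)
  generalize hK : l + m + n + 3 = k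
  -- conjugation by `a`
  have e0 : ⁅a, ⁅b, c⁆⁆ * ⁅b, c⁆ = ⁅⁅a, b⁆ * b, ⁅a, c⁆ * c⁆ := by
    simp only [commutatorElement_def]; group
  have e1 : ⁅⁅a, b⁆ * b, ⁅a, c⁆ * c⁆ =
      ⁅a, b⁆ * (⁅b, ⁅a, c⁆⁆ * (⁅a, c⁆ * ⁅b, c⁆ * ⁅a, c⁆⁻¹)) * ⁅a, b⁆⁻¹ *
        (⁅⁅a, b⁆, ⁅a, c⁆⁆ * (⁅a, c⁆ * ⁅⁅a, b⁆, c⁆ * ⁅a, c⁆⁻¹)) := by
    generalize ⁅a, b⁆ = u
    generalize ⁅a, c⁆ = v
    simp only [commutatorElement_def]; group
  have hp : S.pr k (⁅a, ⁅b, c⁆⁆ * ⁅b, c⁆) = S.pr k ⁅⁅a, b⁆ * b, ⁅a, c⁆ * c⁆ := by rw [e0]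
  rw [e1] at hp
  have c1 : Commute (S.pr k ⁅a, b⁆) (S.pr k ⁅b, ⁅a, c⁆⁆) := S.pr_commute hu hbv (by omega)
  have c2 : Commute (S.pr k ⁅a, c⁆) (S.pr k ⁅b, c⁆) := S.pr_commute hv hbc (by omega)
  have c3 : Commute (S.pr k ⁅a, b⁆) (S.pr k ⁅b, c⁆) := S.pr_commute hu hbc (by omega)
  have c4 : S.pr k ⁅⁅a, b⁆, ⁅a, c⁆⁆ = 1 := S.pr_one.2 (S.comm_le hu hv (by omega))
  have c5 : Commute (S.pr k ⁅a, c⁆) (S.pr k ⁅⁅a, b⁆, c⁆) := S.pr_commute hv huc (by omega)
  have c6 : Commute (S.pr k ⁅b, c⁆) (S.pr k ⁅⁅a, b⁆, c⁆) := S.pr_commute hbc huc (by omega)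
  have c7 : Commute (S.pr k ⁅b, ⁅a, c⁆⁆) (S.pr k ⁅⁅a, b⁆, c⁆) := S.pr_commute hbv huc (by omega)
  simp only [map_mul, map_inv] at hp
  rw [c4, one_mul, c2.eq, mul_inv_cancel_right, c5.eq, mul_inv_cancel_right,
    (c1.mul_right c3).eq, mul_inv_cancel_right, mul_assoc (S.pr k ⁅b, ⁅a, c⁆⁆), c6.eq,
    ← mul_assoc] at hp
  have := mul_right_cancel hp
  rw [this, map_mul, c7.eq]

/-! ### The homogeneous components -/

/-- The component of weight `n + 1`, as a multiplicative group. -/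
def Cm (n : ℕ) : Type _ := S.Γ n ⧸ (S.Γ (n + 1)).subgroupOf (S.Γ n)

instance (n : ℕ) : CommGroup (S.Cm n) :=
  { (inferInstance : Group (S.Γ n ⧸ (S.Γ (n + 1)).subgroupOf (S.Γ n))) with
    mul_comm := by
      intro x y
      induction x using QuotientGroup.induction_on with
      | H a =>
      induction y using QuotientGroup.induction_on with
      | H b =>
      change ((a * b : S.Γ n) : S.Γ n ⧸ (S.Γ (n + 1)).subgroupOf (S.Γ n)) = ((b * a : S.Γ n) : _)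
      rw [QuotientGroup.eq, Subgroup.mem_subgroupOf]
      have h : (((a * b)⁻¹ * (b * a) : S.Γ n) : G) = ⁅(b : G)⁻¹, (a : G)⁻¹⁆ := by
        simp only [Subgroup.coe_mul, Subgroup.coe_inv, commutatorElement_def]; group
      rw [h]
      exact S.comm_le (inv_mem b.2) (inv_mem a.2) (by omega) }

def cl {n : ℕ} (a : S.Γ n) : S.Cm n := QuotientGroup.mk a

theorem cl_eq {n : ℕ} {a b : S.Γ n} : S.cl a = S.cl b ↔ S.pr (n + 1) (a : G) = S.pr (n + 1) b := by
  rw [pr_eq]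
  change ((a : S.Γ n ⧸ (S.Γ (n + 1)).subgroupOf (S.Γ n)) = b) ↔ _
  rw [QuotientGroup.eq, Subgroup.mem_subgroupOf]
  rfl

theorem cl_mul {n : ℕ} (a b : S.Γ n) : S.cl (a * b) = S.cl a * S.cl b := rfl

theorem cl_surj {n : ℕ} (x : S.Cm n) : ∃ a, S.cl a = x := QuotientGroup.mk_surjective x

/-- The bracket on components. -/
def brk {m n : ℕ} : S.Cm m → S.Cm n → S.Cm (m + n + 1) :=
  Quotient.map₂ (fun a b => (⟨⁅(a : G), (b : G)⁆, S.comm m n a b a.2 b.2⟩ : S.Γ (m + n + 1)))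
    (by
      intro a a' ha b b' hb
      have ha' : (a : G)⁻¹ * a' ∈ S.Γ (m + 1) := by
        have := QuotientGroup.leftRel_apply.1 ha
        rwa [Subgroup.mem_subgroupOf] at this
      have hb' : (b : G)⁻¹ * b' ∈ S.Γ (n + 1) := by
        have := QuotientGroup.leftRel_apply.1 hb
        rwa [Subgroup.mem_subgroupOf] at this
      apply QuotientGroup.leftRel_apply.2
      rw [Subgroup.mem_subgroupOf]
      exact S.pr_eq.1 (S.brk_wd a.2 b.2 ha' hb').symm)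

theorem brk_cl {m n : ℕ} (a : S.Γ m) (b : S.Γ n) :
    S.brk (S.cl a) (S.cl b) = S.cl ⟨⁅(a : G), (b : G)⁆, S.comm m n a b a.2 b.2⟩ := rfl

theorem brk_left {m n : ℕ} (x x' : S.Cm m) (y : S.Cm n) :
    S.brk (x * x') y = S.brk x y * S.brk x' y := by
  obtain ⟨a, rfl⟩ := S.cl_surj x
  obtain ⟨a', rfl⟩ := S.cl_surj x'
  obtain ⟨b, rfl⟩ := S.cl_surj y
  rw [← cl_mul, brk_cl, brk_cl, brk_cl, ← cl_mul, cl_eq]
  exact S.brk_mul_left a.2 a'.2 b.2

theorem brk_right {m n : ℕ} (x : S.Cm m) (y y' : S.Cm n) :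
    S.brk x (y * y') = S.brk x y * S.brk x y' := by
  obtain ⟨a, rfl⟩ := S.cl_surj x
  obtain ⟨b, rfl⟩ := S.cl_surj y
  obtain ⟨b', rfl⟩ := S.cl_surj y'
  rw [← cl_mul, brk_cl, brk_cl, brk_cl, ← cl_mul, cl_eq]
  exact S.brk_mul_right a.2 b.2 b'.2

/-- The bracket on components as a biadditive map. -/
def brkHom (m n : ℕ) : Additive (S.Cm m) →+ Additive (S.Cm n) →+ Additive (S.Cm (m + n + 1)) :=
  AddMonoidHom.mk' (fun x => AddMonoidHom.mk' (fun y => Additive.ofMul (S.brk x.toMul y.toMul))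
    (fun _ _ => congrArg Additive.ofMul (S.brk_right _ _ _)))
    (fun _ _ => AddMonoidHom.ext fun _ => congrArg Additive.ofMul (S.brk_left _ _ _))

/-- The associated graded Lie ring. -/
def Gr : Type _ := ⨁ n, Additive (S.Cm n)

noncomputable instance : AddCommGroup S.Gr := inferInstanceAs (AddCommGroup (⨁ n, Additive (S.Cm n)))

/-- The inclusion of a component. -/
noncomputable def of (n : ℕ) : Additive (S.Cm n) →+ S.Gr :=
  DirectSum.of (fun n => Additive (S.Cm n)) n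

theorem of_injective (n : ℕ) : Function.Injective (S.of n) :=
  DirectSum.of_injective (β := fun n => Additive (S.Cm n)) n

/-- The class of `g ∈ Γ n` in the component of weight `n + 1` (and `0` if `g ∉ Γ n`). -/
noncomputable def ι (n : ℕ) (g : G) : S.Gr := by
  classical
  exact if h : g ∈ S.Γ n then S.of n (Additive.ofMul (S.cl ⟨g, h⟩)) else 0

theorem ι_def {n : ℕ} {g : G} (h : g ∈ S.Γ n) :
    S.ι n g = S.of n (Additive.ofMul (S.cl ⟨g, h⟩)) := by
  classical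
  exact dif_pos h

theorem ι_mul {n : ℕ} {g h : G} (hg : g ∈ S.Γ n) (hh : h ∈ S.Γ n) :
    S.ι n (g * h) = S.ι n g + S.ι n h := by
  rw [S.ι_def hg, S.ι_def hh, S.ι_def (mul_mem hg hh), ← map_add]
  rfl

theorem ι_eq_iff {n : ℕ} {g h : G} (hg : g ∈ S.Γ n) (hh : h ∈ S.Γ n) :
    S.ι n g = S.ι n h ↔ S.pr (n + 1) g = S.pr (n + 1) h := by
  rw [S.ι_def hg, S.ι_def hh, (S.of_injective n).eq_iff]
  exact S.cl_eq

theorem ι_one (n : ℕ) : S.ι n 1 = 0 := by
  have := S.ι_mul (one_mem (S.Γ n)) (one_mem (S.Γ n))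
  rw [mul_one] at this
  exact left_eq_add.1 this

theorem ι_eq_zero {n : ℕ} {g : G} (hg : g ∈ S.Γ n) : S.ι n g = 0 ↔ g ∈ S.Γ (n + 1) := by
  rw [← S.ι_one n, S.ι_eq_iff hg (one_mem _), map_one, pr_one]

/-- Induction principle: `Gr` is additively generated by the elements `ι n g`. -/
theorem gr_induction {P : S.Gr → Prop} (x : S.Gr) (h0 : P 0)
    (hι : ∀ n g, g ∈ S.Γ n → P (S.ι n g)) (hadd : ∀ x y, P x → P y → P (x + y)) : P x := by
  refine DirectSum.induction_on (β := fun n => Additive (S.Cm n)) (motive := P) x h0 ?_ hadd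
  intro n a
  change P (S.of n a)
  obtain ⟨b, hb⟩ := S.cl_surj a.toMul
  have := hι n b b.2
  rw [S.ι_def b.2] at this
  have e : Additive.ofMul (S.cl ⟨(b : G), b.2⟩) = a := congrArg Additive.ofMul hb
  rw [e] at this
  exact this

/-- The bracket of the graded Lie ring. -/
noncomputable def br : S.Gr →+ S.Gr →+ S.Gr :=
  DirectSum.toAddMonoid (β := fun n => Additive (S.Cm n)) fun m =>
    AddMonoidHom.flip (DirectSum.toAddMonoid (β := fun n => Additive (S.Cm n)) fun n =>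
      AddMonoidHom.flip ((AddMonoidHom.compHom
        (DirectSum.of (fun n => Additive (S.Cm n)) (m + n + 1))).comp (S.brkHom m n)))

theorem br_ι {m n : ℕ} {a b : G} (ha : a ∈ S.Γ m) (hb : b ∈ S.Γ n) :
    S.br (S.ι m a) (S.ι n b) = S.ι (m + n + 1) ⁅a, b⁆ := by
  rw [S.ι_def ha, S.ι_def hb, S.ι_def (S.comm m n a b ha hb)]
  have h1 : ∀ (x : Additive (S.Cm m)) (y : Additive (S.Cm n)),
      S.br (S.of m x) (S.of n y) = S.of (m + n + 1) (S.brkHom m n x y) := by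
    intro x y
    unfold br of
    erw [DirectSum.toAddMonoid_of, AddMonoidHom.flip_apply, DirectSum.toAddMonoid_of]
    rfl
  rw [h1]
  rfl

theorem br_skew (x y : S.Gr) : S.br x y + S.br y x = 0 := by
  induction x using S.gr_induction with
  | h0 => simp
  | hadd x x' h h' =>
    simp only [map_add, AddMonoidHom.add_apply]
    have : ∀ a b c d : S.Gr, a + b + (c + d) = (a + c) + (b + d) := by intros; abel
    rw [this, h, h', add_zero]
  | hι m a ha =>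
    induction y using S.gr_induction with
    | h0 => simp
    | hadd y y' h h' =>
      simp only [map_add, AddMonoidHom.add_apply]
      have : ∀ a b c d : S.Gr, a + b + (c + d) = (a + c) + (b + d) := by intros; abel
      rw [this, h, h', add_zero]
    | hι n b hb =>
      rw [S.br_ι ha hb, S.br_ι hb ha]
      have e : n + m + 1 = m + n + 1 := by omega
      rw [e, ← S.ι_mul (S.comm _ _ _ _ ha hb) (by have := S.comm _ _ _ _ hb ha; rwa [e] at this)]
      have : ⁅a, b⁆ * ⁅b, a⁆ = 1 := by simp only [commutatorElement_def]; group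
      rw [this, S.ι_one]

theorem br_self (x : S.Gr) : S.br x x = 0 := by
  induction x using S.gr_induction with
  | h0 => simp
  | hadd x x' h h' =>
    simp only [map_add, AddMonoidHom.add_apply]
    rw [h, h', zero_add, add_zero, add_comm, S.br_skew]
  | hι m a ha =>
    rw [S.br_ι ha ha, commutatorElement_self, S.ι_one]

theorem br_leibniz (x y z : S.Gr) : S.br x (S.br y z) = S.br (S.br x y) z + S.br y (S.br x z) := by
  induction x using S.gr_induction with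
  | h0 => simp
  | hadd x x' h h' =>
    simp only [map_add, AddMonoidHom.add_apply]
    rw [h, h']; abel
  | hι l a ha =>
    induction y using S.gr_induction with
    | h0 => simp
    | hadd y y' h h' =>
      simp only [map_add, AddMonoidHom.add_apply]
      rw [h, h']; abel
    | hι m b hb =>
      induction z using S.gr_induction with
      | h0 => simp
      | hadd z z' h h' =>
        simp only [map_add]
        rw [h, h']; abel
      | hι n c hc =>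
        have h1 := S.comm _ _ _ _ hb hc
        have h2 := S.comm _ _ _ _ ha hb
        have h3 := S.comm _ _ _ _ ha hc
        rw [S.br_ι hb hc, S.br_ι ha hb, S.br_ι ha hc, S.br_ι ha h1, S.br_ι h2 hc, S.br_ι hb h3]
        have e1 : l + (m + n + 1) + 1 = l + m + n + 2 := by omega
        have e2 : l + m + 1 + n + 1 = l + m + n + 2 := by omega
        have e3 : m + (l + n + 1) + 1 = l + m + n + 2 := by omega
        rw [e1, e2, e3]
        have g1 : ⁅a, ⁅b, c⁆⁆ ∈ S.Γ (l + m + n + 2) := S.comm_le ha h1 (by omega)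
        have g2 : ⁅⁅a, b⁆, c⁆ ∈ S.Γ (l + m + n + 2) := S.comm_le h2 hc (by omega)
        have g3 : ⁅b, ⁅a, c⁆⁆ ∈ S.Γ (l + m + n + 2) := S.comm_le hb h3 (by omega)
        rw [← S.ι_mul g2 g3, S.ι_eq_iff g1 (mul_mem g2 g3)]
        exact S.brk_leibniz ha hb hc

noncomputable instance : LieRing S.Gr where
  bracket x y := S.br x y
  add_lie x y z := by
    change S.br (x + y) z = S.br x z + S.br y z
    rw [map_add]; rfl
  lie_add x y z := (S.br x).map_add y z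
  lie_self := S.br_self
  leibniz_lie := S.br_leibniz

theorem lie_ι {m n : ℕ} {a b : G} (ha : a ∈ S.Γ m) (hb : b ∈ S.Γ n) :
    ⁅S.ι m a, S.ι n b⁆ = S.ι (m + n + 1) ⁅a, b⁆ := S.br_ι ha hb

end NSer

end Pool.E802
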