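import Pool.Agent.E802.Alg
import Mathlib.Tactic

/-!
# Label masks
-/

namespace Pool.E802

/-- The labels (below 7) of a mask. -/
def labs (m : ℕ) : List ℕ := (List.range 7).filter (fun i => m.testBit i)

theorem labs_ins : ∀ m < 128, ∀ l < 7, m.testBit l = false →
    (labs (m ||| 2 ^ l)).eraseIdx (cnt l m) = labs m ∧ (labs (m ||| 2 ^ l))[cnt l m]? = some l := by
  decide +kernel

theorem labs_rem : ∀ m < 128, ∀ p < (labs m).length,
    labs (m ^^^ 2 ^ labAt 7 m p 0) = (labs m).eraseIdx p ∧
    (labs m)[p]? = some (labAt 7 m p 0) ∧ labAt 7 m p 0 < 7 ∧ m.testBit (labAt 7 m p 0) = true := by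
  decide +kernel

theorem cnt_eq : ∀ m < 128, cnt 7 m = (labs m).length := by decide +kernel

theorem labs_eq_nil : ∀ m < 128, (labs m).length = 0 → m = 0 := by decide +kernel

theorem labs_single : ∀ m < 128, (labs m).length = 1 → m = 2 ^ labAt 7 m 0 0 := by decide +kernel

theorem labs_full : ∀ B < 8, labs (2 ^ B - 1) = List.range B := by decide +kernel

theorem labs_pow : ∀ l < 7, labs (2 ^ l) = [l] := by decide +kernel

theorem labs_zero : labs 0 = [] := by decide +kernel

/-- Disjointness of masks. -/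
def Dj (m m' : ℕ) : Prop := ∀ i, ¬ (m.testBit i = true ∧ m'.testBit i = true)

theorem Dj.of_and {m m' : ℕ} (h : m &&& m' = 0) : Dj m m' := by
  intro i hi
  have h2 : (m &&& m').testBit i = true := by rw [Nat.testBit_and, hi.1, hi.2]; rfl
  rw [h] at h2
  simp at h2

theorem Dj.symm {m m' : ℕ} (h : Dj m m') : Dj m' m := fun i hi => h i ⟨hi.2, hi.1⟩

theorem Dj.or {m m' m'' : ℕ} (h : Dj m m'') (h' : Dj m' m'') : Dj (m ||| m') m'' := by
  intro i hi
  rw [Nat.testBit_or, Bool.or_eq_true] at hi
  rcases hi.1 with h1 | h1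
  · exact h i ⟨h1, hi.2⟩
  · exact h' i ⟨h1, hi.2⟩

theorem length_filter_or {α : Type*} (p q : α → Bool) (l : List α)
    (h : ∀ x, ¬ (p x = true ∧ q x = true)) :
    (l.filter (fun x => p x || q x)).length = (l.filter p).length + (l.filter q).length := by
  induction l with
  | nil => rfl
  | cons a l ih =>
    have := h a
    simp only [List.filter_cons]
    cases hp : p a <;> cases hq : q a
    · simpa using ih
    · simp only [Bool.or_true, if_true, List.length_cons, ih]; simp; omega
    · simp only [Bool.or_false, if_true, List.length_cons, ih]; simp; omega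
    · exact absurd ⟨hp, hq⟩ this

theorem length_labs_or {m m' : ℕ} (h : Dj m m') :
    (labs (m ||| m')).length = (labs m).length + (labs m').length := by
  have : labs (m ||| m') = (List.range 7).filter (fun i => m.testBit i || m'.testBit i) := by
    simp only [labs, Nat.testBit_or]
  rw [this, length_filter_or _ _ _ h]
  rfl

theorem or_lt {m m' : ℕ} (h : m < 128) (h' : m' < 128) : m ||| m' < 128 :=
  Nat.or_lt_two_pow (n := 7) h h'

theorem pow_lt {l : ℕ} (h : l < 7) : 2 ^ l < 128 := by
  have : 2 ^ l < 2 ^ 7 := Nat.pow_lt_pow_right (by norm_num) h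
  simpa using this

theorem xor_lt {m m' : ℕ} (h : m < 128) (h' : m' < 128) : m ^^^ m' < 128 :=
  Nat.xor_lt_two_pow (n := 7) h h'

theorem testBit_pow (l i : ℕ) : (2 ^ l).testBit i = decide (l = i) := by
  rw [Nat.testBit_two_pow]

theorem or_xor {m2 l : ℕ} (h : m2.testBit l = true) : (m2 ^^^ 2 ^ l) ||| 2 ^ l = m2 := by
  apply Nat.eq_of_testBit_eq
  intro i
  rw [Nat.testBit_or, Nat.testBit_xor, testBit_pow]
  by_cases hi : l = i
  · subst hi; simp [h]
  · simp [hi]

theorem xor_testBit {m2 l : ℕ} (h : m2.testBit l = true) : (m2 ^^^ 2 ^ l).testBit l = false := by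
  rw [Nat.testBit_xor, testBit_pow]; simp [h]

theorem Dj.xor {m m2 l : ℕ} (h : Dj m m2) (hl : m2.testBit l = true) : Dj m (m2 ^^^ 2 ^ l) := by
  intro i hi
  by_cases hil : l = i
  · subst hil
    rw [xor_testBit hl] at hi
    simp at hi
  · rw [Nat.testBit_xor, testBit_pow] at hi
    simp only [hil, decide_false, Bool.xor_false] at hi
    exact h i hi

theorem Dj.pow_xor {m2 l : ℕ} (hl : m2.testBit l = true) : Dj (2 ^ l) (m2 ^^^ 2 ^ l) := by
  intro i hi
  rw [testBit_pow] at hi
  have : l = i := by simpa using hi.1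
  subst this
  rw [xor_testBit hl] at hi
  simp at hi

theorem Dj.testBit {m m2 l : ℕ} (h : Dj m m2) (hl : m2.testBit l = true) : m.testBit l = false := by
  cases h1 : m.testBit l with
  | false => rfl
  | true => exact absurd ⟨h1, hl⟩ (h l)

theorem Dj_pow {m l : ℕ} (h : m.testBit l = false) : Dj m (2 ^ l) := by
  intro i hi
  rw [testBit_pow] at hi
  have : l = i := by simpa using hi.2
  subst this
  rw [h] at hi
  simp at hi

end Pool.E802
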