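import Pool.Agent.E802.Cube

/-!
# Relative linearisation: Engel commutators with values in a subgroup
-/

universe u

namespace Pool.E802

open scoped commutatorElement

namespace NSer

/-- The `n`-fold Engel commutator. -/
def engN {G : Type*} [Group G] : ℕ → G → G → G
  | 0, a, _ => a
  | n + 1, a, b => engN n ⁅a, b⁆ b

section
variable {G : Type u} [Group G] {S : NSer G} {s : ℕ}

/-- The derivative class is determined by the class of the pair. -/
theorem Dd_unique {n : ℕ} {u' : (S.shift s).Gr} {u0 u1 : S.Gr} (h : S.Dd s n u' u0 u1)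
    {f : S.Sh s} (hf : f ∈ (S.shift s).Γ n) (hu : u' = (S.shift s).ι n f) :
    u1 = S.ι (n + s) ((f : G × G).1⁻¹ * (f : G × G).2) := by
  obtain ⟨g, hg, h1, _, h3⟩ := h
  rw [h3, S.ι_eq_iff hg.2 hf.2]
  rw [hu, (S.shift s).ι_eq_iff hf hg, pr_eq] at h1
  have h4 := h1.2
  have e : ((f⁻¹ * g : S.Sh s) : G × G).1⁻¹ * ((f⁻¹ * g : S.Sh s) : G × G).2 =
      ((g : G × G).1⁻¹ * (f : G × G).1) * ((f : G × G).1⁻¹ * (f : G × G).2)⁻¹ *
        ((g : G × G).1⁻¹ * (f : G × G).1)⁻¹ * ((g : G × G).1⁻¹ * (g : G × G).2) := by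
    simp only [Subgroup.coe_mul, Subgroup.coe_inv, Prod.fst_mul, Prod.snd_mul, Prod.fst_inv,
      Prod.snd_inv]
    group
  rw [e] at h4
  have hf2 := hf.2
  have hg2 := hg.2
  generalize (g : G × G).1⁻¹ * (f : G × G).1 = c at h4
  generalize (f : G × G).1⁻¹ * (f : G × G).2 = x at h4 hf2 ⊢
  generalize (g : G × G).1⁻¹ * (g : G × G).2 = z at h4 hg2 ⊢
  have en : n + 1 + s = n + s + 1 := by omega
  rw [en, ← pr_one] at h4
  have c1 : Commute (S.pr (n + s + 1) c) (S.pr (n + s + 1) x⁻¹) :=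
    S.pr_commute (S.mem0 _) (inv_mem hf2) (by omega)
  rw [map_mul, map_mul, map_mul, map_inv _ c, c1.eq, mul_inv_cancel_right, map_inv] at h4
  exact (inv_mul_eq_one.1 h4).symm

end

/-- Relative partial linearisation of an Engel law with values in `B`. -/
theorem linR (n : ℕ) (r : ℕ) : ∀ (G : Type u) [Group G] (S : NSer G) (A B : Subgroup G),
    (∀ a ∈ A, ∀ b : G, engN n a b ∈ B) →
    ∀ (j0 : ℕ) (b : G), b ∈ S.Γ j0 → ∀ (Z : List (ℕ × G)), (∀ p ∈ Z, p.2 ∈ S.Γ p.1 ∧ j0 < p.1) →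
    Z.length = r → ∀ ky, ky + r = n → ∀ (k : ℕ) (a : G), a ∈ S.Γ k → a ∈ A →
    ∃ e, e ∈ B ∧ e ∈ S.Γ (k + ky * (j0 + 1) + wt Z) ∧
      wS (S.ι j0 b) n ky (Z.map (fun p => S.ι p.1 p.2)) (S.ι k a) =
        S.ι (k + ky * (j0 + 1) + wt Z) e := by
  induction r with
  | zero =>
    intro G _ S A B hlaw j0 b hb Z _ hlen ky hky k a ha haA
    have h2 : Z = [] := List.eq_nil_of_length_eq_zero hlen
    have h1 : ky = n := by omega
    subst h1 h2
    have hw : ∀ (n k : ℕ) (a : G), a ∈ S.Γ k →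
        engN n a b ∈ S.Γ (k + n * (j0 + 1)) ∧
        wS (S.ι j0 b) n n [] (S.ι k a) = S.ι (k + n * (j0 + 1)) (engN n a b) := by
      intro n
      induction n with
      | zero => intro k a ha; simpa [engN, wS] using ha
      | succ n ih =>
        intro k a ha
        have h1 := ih (k + j0 + 1) ⁅a, b⁆ (S.comm _ _ _ _ ha hb)
        have e : k + j0 + 1 + n * (j0 + 1) = k + (n + 1) * (j0 + 1) := by
          rw [Nat.succ_mul]; omega
        rw [e] at h1
        rw [wS_nil, S.lie_ι ha hb]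
        exact h1
    have := hw ky k a ha
    refine ⟨engN ky a b, hlaw a haA b, ?_, ?_⟩
    · simpa [wt] using this.1
    · simpa [wt] using this.2
  | succ r ih =>
    intro G _ S A B hlaw j0 b hb Z hZ hlen ky hky k a ha haA
    obtain ⟨z, Z, rfl⟩ : ∃ z Z', Z = z :: Z' := by
      cases Z with
      | nil => simp at hlen
      | cons z Z => exact ⟨z, Z, rfl⟩
    obtain ⟨hz, hzj⟩ := hZ z (by simp)
    have hZ' : ∀ p ∈ Z, p.2 ∈ S.Γ p.1 ∧ j0 < p.1 := fun p hp => hZ p (by simp [hp])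
    obtain ⟨s, hs⟩ : ∃ s, z.1 = j0 + s := ⟨z.1 - j0, by omega⟩
    have hs1 : 1 ≤ s := by omega
    rw [hs] at hz
    have hz' : z.2 ∈ S.Γ s := S.le_of_le (by omega) hz
    have hlaw' : ∀ a ∈ ((A.prod A).comap (S.Sh s).subtype), ∀ b : S.Sh s,
        engN n a b ∈ ((B.prod B).comap (S.Sh s).subtype) := by
      have key : ∀ (n : ℕ) (a b : S.Sh s), ((engN n a b : S.Sh s) : G × G) =
          (engN n (a : G × G).1 (b : G × G).1, engN n (a : G × G).2 (b : G × G).2) := by
        intro n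
        induction n with
        | zero => intro a b; rfl
        | succ n ih => intro a b; exact ih _ _
      intro a ha b
      rw [Subgroup.mem_comap, Subgroup.mem_prod] at ha ⊢
      rw [Subgroup.coe_subtype, key]
      exact ⟨hlaw _ ha.1 _, hlaw _ ha.2 _⟩
    obtain ⟨f, hfB, hf, hf'⟩ := ih (S.Sh s) (S.shift s) _ _ hlaw' j0 (S.tw s b z.2 hz')
      (tw_mem hb hz hz')
      (Z.map (fun p => (p.1, S.dg s p.2)))
      (by
        intro p hp
        obtain ⟨q, hq, rfl⟩ := List.mem_map.1 hp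
        exact ⟨dg_mem (hZ' q hq).1, (hZ' q hq).2⟩)
      (by simpa using hlen) (ky + 1) (by omega) k (S.dg s a) (dg_mem ha) ⟨haA, haA⟩
    have ewt : wt (Z.map (fun p => (p.1, S.dg s p.2))) = wt Z := by
      unfold wt
      rw [List.map_map]
      rfl
    rw [List.map_map, ewt] at hf'
    rw [ewt] at hf
    have hD := Dd_wS hs1 (Dd_tw hb hz hz') n (ky + 1) Z k _ _ _ (by simp at hlen; omega)
      (fun p hp => (hZ' p hp).1) (Dd_dg (s := s) ha)
    have := Dd_unique hD hf hf'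
    rw [if_neg (by omega), wS_zero, add_zero, Nat.add_sub_cancel] at this
    have en : k + (ky + 1) * (j0 + 1) + wt Z + s = k + ky * (j0 + 1) + wt (z :: Z) := by
      simp only [wt, List.map_cons, List.sum_cons]
      rw [Nat.succ_mul, hs]
      omega
    rw [en] at this
    have hf2 := hf.2
    rw [en] at hf2
    rw [Subgroup.mem_comap, Subgroup.mem_prod] at hfB
    refine ⟨(f : G × G).1⁻¹ * (f : G × G).2, mul_mem (inv_mem hfB.1) hfB.2, hf2, ?_⟩
    rw [List.map_cons, hs]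
    exact this

end NSer

end Pool.E802
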