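import Pool.Agent.E802.Eng

/-!
# Soundness of relations and of the check
-/

namespace Pool.E802

variable {L : Type*} [LieRing L]
variable {T : Tb} {H : L → Prop} {y : L} {M : ℕ} {x : ℕ → L} {N : ℕ}

/-- The value of a letter code. -/
def gv (y : L) (x : ℕ → L) (g : ℕ) : L := if g = 0 then y else x (g - 1)

theorem Rep.mulG (hT : TOk T) (h7 : ∀ u : L, 7 • u = 0) (hx : ∀ i, H (x i))
    (hV : ∀ n, 2 ≤ n → n < N → ∀ b, VV T H y M n b) {n b m B v g : ℕ} {u : L} (hn : 1 ≤ n)
    (hnN : n + 1 ≤ N) (hb : (labs m).length = b) (hm : m < 128) (hg : g ≤ 7)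
    (hmg : Dj m (gm g)) (h : Rep T H y M x N n b m B v u) :
    Rep T H y M x N (n + 1) (b + gb g) (m ||| gm g) 1000 (E802.mulG T N g n b m v)
      ⁅u, gv y x g⁆ := by
  by_cases hg0 : g = 0
  · subst hg0
    have e1 : E802.mulG T N 0 n b m v = E802.mulY T N n b v := rfl
    have e2 : gm 0 = 0 := rfl
    have e3 : gb 0 = 0 := rfl
    rw [e1, e2, e3, Nat.or_zero, add_zero]
    exact h.mulY hT h7 hx hV hn hnN hb
  · have e1 : E802.mulG T N g n b m v = E802.mulX T N n b m v (g - 1) := by
      unfold E802.mulG; rw [beq_f hg0]; rfl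
    have e2 : gm g = 2 ^ (g - 1) := by unfold gm; rw [beq_f hg0]; rfl
    have e3 : gb g = 1 := by unfold gb; rw [beq_f hg0]; rfl
    have e4 : gv y x g = x (g - 1) := if_neg hg0
    rw [e2] at hmg
    rw [e1, e2, e3, e4]
    refine h.mulX hT h7 hx hV hn hnN hb hm (by omega) ?_
    cases hh : m.testBit (g - 1) with
    | false => rfl
    | true => exact absurd ⟨hh, by rw [testBit_pow]; simp⟩ (hmg (g - 1))

theorem gm_lt {g : ℕ} (hg : g ≤ 7) : gm g < 128 := by
  by_cases hg0 : g = 0
  · subst hg0; exact (by norm_num : (0 : ℕ) < 128)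
  · have e2 : gm g = 2 ^ (g - 1) := by unfold gm; rw [beq_f hg0]; rfl
    rw [e2]; exact pow_lt (by omega)

theorem labs_gm {g : ℕ} (hg : g ≤ 7) : (labs (gm g)).length = gb g := by
  by_cases hg0 : g = 0
  · subst hg0
    have e2 : gm 0 = 0 := rfl
    rw [e2, labs_zero]; rfl
  · have e2 : gm g = 2 ^ (g - 1) := by unfold gm; rw [beq_f hg0]; rfl
    have e3 : gb g = 1 := by unfold gb; rw [beq_f hg0]; rfl
    rw [e2, e3, labs_pow _ (by omega)]; rfl

omit [LieRing L] in
theorem gv_H (hy : H y) (hx : ∀ i, H (x i)) (g : ℕ) : H (gv y x g) := by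
  unfold gv; split_ifs
  · exact hy
  · exact hx _

theorem gv_bwl (T : Tb) {g : ℕ} (hg : g ≤ 7) :
    (bwl T y 1 (gb g) ((labs (gm g)).map x)).getD 0 0 = gv y x g := by
  by_cases hg0 : g = 0
  · subst hg0; simp [bwl, gb, gv]
  · have e2 : gm g = 2 ^ (g - 1) := by unfold gm; rw [beq_f hg0]; rfl
    have e3 : gb g = 1 := by unfold gb; rw [beq_f hg0]; rfl
    rw [e2, e3, labs_pow _ (by omega)]
    simp [bwl, gv, hg0]

/-- Unit vectors represent basis words. -/
theorem Rep.unit {n b m t : ℕ} (hn : n < N) :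
    Rep T H y M x N n b m 1 (1208925819614629174706176 ^ t) ((bwl T y n b ((labs m).map x)).getD t 0) := by
  refine ⟨Bd.pow t, ?_⟩
  rw [ev_pow, bsT, if_neg (by omega), sub_self]
  exact zero_mem _

theorem Rep.gunit {g : ℕ} (hg : g ≤ 7) (hN : 1 < N) :
    Rep T H y M x N 1 (gb g) (gm g) 1 1 (gv y x g) := by
  have := Rep.unit (T := T) (H := H) (y := y) (M := M) (x := x) (n := 1) (b := gb g) (m := gm g)
    (t := 0) hN
  rw [gv_bwl T hg, pow_zero] at this
  exact this

/-- From a representation of an element of `Zs` at the top. -/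
theorem Rep.top {B m Bb v : ℕ} {u : L} (h : Rep T H y M x N N B m Bb v u)
    (hu : u ∈ Zs H y M N B) : ev v (tl T y N B ((labs m).map x)) ∈ Zs H y M N B := by
  have h1 := h.mem
  rw [bsT, if_pos rfl] at h1
  have := sub_mem hu h1
  rwa [sub_sub_cancel] at this

theorem okS_spec {m : ℕ} {S : List Zw} (h : okS m S = true) :
    (∀ z ∈ S, (labs z.m).length = z.b ∧ z.m < 128 ∧ z.n ≤ 6 ∧ Dj m z.m) ∧
      S.Pairwise (fun z z' => Dj z.m z'.m) := by
  induction S generalizing m with
  | nil => simp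
  | cons z S ih =>
    simp only [okS, Bool.and_eq_true] at h
    obtain ⟨h1, h2, h3, h4, h5⟩ := h
    have h1' : m &&& z.m = 0 := Nat.eq_of_beq_eq_true h1
    have h2' : z.m < 128 := Nat.le_of_ble_eq_true h2
    have h3' : z.b = cnt 7 z.m := Nat.eq_of_beq_eq_true h3
    have h4' : z.n ≤ 6 := Nat.le_of_ble_eq_true h4
    obtain ⟨i1, i2⟩ := ih h5
    have hor : ∀ z' ∈ S, Dj m z'.m ∧ Dj z.m z'.m := by
      intro z' hz'
      have := (i1 z' hz').2.2.2
      refine ⟨fun i hi => this i ⟨?_, hi.2⟩, fun i hi => this i ⟨?_, hi.2⟩⟩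
      · rw [Nat.testBit_or, hi.1]; rfl
      · rw [Nat.testBit_or, hi.1, Bool.or_true]
    refine ⟨?_, ?_⟩
    · intro z' hz'
      rcases List.mem_cons.1 hz' with h | h
      · subst h
        exact ⟨by rw [h3', cnt_eq _ h2'], h2', h4', Dj.of_and h1'⟩
      · exact ⟨(i1 z' h).1, (i1 z' h).2.1, (i1 z' h).2.2.1, (hor z' h).1⟩
    · rw [List.pairwise_cons]
      exact ⟨fun z' hz' => (hor z' hz').2, i2⟩

theorem foldr_orS (m : ℕ) (S : List Zw) :
    S.foldr (fun z a => z.m ||| a) m = m ||| orS S := by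
  induction S with
  | nil => simp [orS]
  | cons z S ih =>
    simp only [List.foldr_cons, orS] at ih ⊢
    rw [ih, ← Nat.or_assoc, Nat.or_comm z.m m, Nat.or_assoc]

/-- Soundness of a relation. -/
theorem rel_sound (hT : TOk T) (h7 : ∀ u : L, 7 • u = 0) (hx : ∀ i, H (x i)) (hz : H 0) (hy : H y)
    (hb : ∀ u v, H u → H v → H ⁅u, v⁆)
    (hE : ∀ (ky : ℕ) (S : List L) (u : L), ky + S.length = 5 → (∀ z ∈ S, H z) → H u →
      wS y 5 ky S u = 0)
    (hM : Hyp H y M)
    (hV : ∀ n, 2 ≤ n → n < N → ∀ b, VV T H y (M + 1) n b) (hN2 : 2 ≤ N) (hN : N ≤ 13)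
    (B : ℕ) (r : Rel) :
    Bd 678223072849000 (evalRel T N B r) ∧
      ev (evalRel T N B r) (tl T y N B ((labs (2 ^ B - 1)).map x)) ∈ Zs H y (M + 1) N B := by
  unfold evalRel
  cases hok : okRel N B r with
  | false =>
    rw [cond_false, ev_zero]
    exact ⟨Bd.zero _, zero_mem _⟩
  | true =>
    rw [cond_true]
    have h712 : (7 : ℕ) ^ 12 = 13841287201 := by norm_num
    have h7k : ∀ k, k ≤ 12 → (7 : ℕ) ^ k ≤ 13841287201 := by
      intro k hk
      rw [← h712]
      exact Nat.pow_le_pow_right (by norm_num) hk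
    match r, hok with
    | .Z i j, hok =>
      simp only [okRel, Bool.and_eq_true, Bool.not_eq_true'] at hok
      obtain ⟨a1, a2, a3, a4, a5⟩ := hok
      have a1' : N = 2 := Nat.eq_of_beq_eq_true a1
      have a2' : B = 2 := Nat.eq_of_beq_eq_true a2
      have a3' : i < 2 := Nat.le_of_ble_eq_true a3
      have a4' : j < 2 := Nat.le_of_ble_eq_true a4
      have a5' : i ≠ j := by
        intro h; rw [beq_t h] at a5; exact absurd a5 (by simp)
      subst a1' a2'
      have r0 : Rep T H y (M + 1) x 2 1 1 (2 ^ i) 1 1 (x i) := by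
        have := Rep.gunit (T := T) (H := H) (y := y) (M := M + 1) (x := x) (N := 2) (g := i + 1)
          (by omega) (by norm_num)
        have e : gv y x (i + 1) = x i := by simp [gv]
        rw [e] at this
        exact this
      have hbit : (2 ^ i).testBit j = false := by rw [testBit_pow]; simpa using a5'
      have r1 := r0.mulX hT h7 hx hV (l := j) (by norm_num) (by norm_num)
        (by rw [labs_pow i (by omega)]; rfl) (pow_lt (by omega)) (by omega) hbit
      have hmask : 2 ^ i ||| 2 ^ j = 2 ^ 2 - 1 := by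
        interval_cases i <;> interval_cases j <;> first | rfl | exact absurd rfl a5'
      rw [hmask] at r1
      refine ⟨r1.bd.mono (by norm_num), r1.top ?_⟩
      exact Zs_hyp hM (Wd.atom _ (hb _ _ (hx i) (hx j)))
    | .C m i j t, hok =>
      simp only [okRel, Bool.and_eq_true, Bool.not_eq_true'] at hok
      obtain ⟨a1, a2, a3, a4, a5, a6, a7, a8, a9, a10⟩ := hok
      have a1' : 3 ≤ N := Nat.le_of_ble_eq_true a1
      have a2' : 2 ≤ B := Nat.le_of_ble_eq_true a2
      have a3' : m < 128 := Nat.le_of_ble_eq_true a3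
      have a4' : i < 7 := Nat.le_of_ble_eq_true a4
      have a5' : j < 7 := Nat.le_of_ble_eq_true a5
      have a6' : i ≠ j := by
        intro h; rw [beq_t h] at a6; exact absurd a6 (by simp)
      have a9' : m ||| 2 ^ i ||| 2 ^ j = 2 ^ B - 1 := Nat.eq_of_beq_eq_true a9
      have a10' : (labs m).length = B - 2 := by
        rw [← cnt_eq m a3']; exact Nat.eq_of_beq_eq_true a10
      have r0 := Rep.unit (T := T) (H := H) (y := y) (M := M + 1) (x := x) (N := N)
        (n := N - 2) (b := B - 2) (m := m) (t := t) (by omega)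
      have hi1 := r0.mulX hT h7 hx hV (l := i) (by omega) (by omega) a10' a3' a4' a7
      have hj1 := r0.mulX hT h7 hx hV (l := j) (by omega) (by omega) a10' a3' a5' a8
      have eN : N - 2 + 1 = N - 1 := by omega
      have eB : B - 2 + 1 = B - 1 := by omega
      rw [eN, eB] at hi1 hj1
      have li : (labs (m ||| 2 ^ i)).length = B - 1 := by
        rw [length_labs_or (Dj_pow a7), a10', labs_pow i a4', List.length_singleton, eB]
      have lj : (labs (m ||| 2 ^ j)).length = B - 1 := by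
        rw [length_labs_or (Dj_pow a8), a10', labs_pow j a5', List.length_singleton, eB]
      have bij : (m ||| 2 ^ i).testBit j = false := by
        rw [Nat.testBit_or, a8, testBit_pow]; simpa using a6'
      have bji : (m ||| 2 ^ j).testBit i = false := by
        rw [Nat.testBit_or, a7, testBit_pow]; simpa using a6'.symm
      have hi2 := hi1.mulX hT h7 hx hV (l := j) (by omega) (by omega) li
        (or_lt a3' (pow_lt a4')) a5' bij
      have hj2 := (hj1.mulX hT h7 hx hV (l := i) (by omega) (by omega) lj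
        (or_lt a3' (pow_lt a5')) a4' bji).six h7 (by norm_num)
      have eN' : N - 1 + 1 = N := by omega
      have eB' : B - 1 + 1 = B := by omega
      have a9'' : m ||| 2 ^ j ||| 2 ^ i = 2 ^ B - 1 := by
        rw [Nat.or_assoc, Nat.or_comm (2 ^ j), ← Nat.or_assoc, a9']
      rw [eN', eB', a9'] at hi2
      rw [eN', eB', a9''] at hj2
      have hs := hi2.add hj2 (by norm_num)
      rw [← lie_lie_eq] at hs
      refine ⟨hs.bd.mono (by norm_num), hs.top ?_⟩
      have hw : Wd H y (N - 2) (B - 2) ((bwl T y (N - 2) (B - 2) ((labs m).map x)).getD t 0) :=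
        getD_wd (bwl_wd T H y _ _ _ (by simpa using a10') (atoms_H hx m)) t
      have := Zs_hyp hM (Wd.mx hw (hb _ _ (hx i) (hx j)))
      rwa [eN, eB, eN', eB'] at this
    | .B n1 m1 t g, hok =>
      simp only [okRel, Bool.and_eq_true] at hok
      obtain ⟨a1, a2, a3, a4, a5, a6, a7⟩ := hok
      have a1' : 1 ≤ n1 := Nat.le_of_ble_eq_true a1
      have a2' : n1 + 1 = N := Nat.eq_of_beq_eq_true a2
      have a3' : m1 < 128 := Nat.le_of_ble_eq_true a3
      have a4' : g ≤ 7 := Nat.le_of_ble_eq_true a4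
      have a5' : Dj m1 (gm g) := Dj.of_and (Nat.eq_of_beq_eq_true a5)
      have a6' : m1 ||| gm g = 2 ^ B - 1 := Nat.eq_of_beq_eq_true a6
      have a7' : cnt 7 m1 + gb g = B := Nat.eq_of_beq_eq_true a7
      have hl1 : (labs m1).length = cnt 7 m1 := (cnt_eq m1 a3').symm
      have r0 := Rep.unit (T := T) (H := H) (y := y) (M := M + 1) (x := x) (N := N)
        (n := n1) (b := cnt 7 m1) (m := m1) (t := t) (by omega)
      have r1 := r0.mulG hT h7 hx hV (g := g) a1' (by omega) hl1 a3' a4' a5'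
      have r2 := (Rep.gunit (T := T) (H := H) (y := y) (M := M + 1) (x := x) (N := N) a4'
        (by omega)).adb hT h7 hx hV (by omega) n1 (i := t) (by norm_num) (by omega) (labs_gm a4')
        hl1 (gm_lt a4') a3' a5'.symm
      have en : 1 + n1 = n1 + 1 := by omega
      have eb : gb g + cnt 7 m1 = cnt 7 m1 + gb g := by omega
      rw [en, eb, Nat.or_comm (gm g)] at r2
      have hk := h7k n1 (by omega)
      have hs := r1.add r2 (by omega)
      have e0 : ⁅(bwl T y n1 (cnt 7 m1) ((labs m1).map x)).getD t 0, gv y x g⁆ +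
          ⁅gv y x g, (bwl T y n1 (cnt 7 m1) ((labs m1).map x)).getD t 0⁆ = 0 := by
        rw [← lie_skew (gv y x g), add_neg_cancel]
      rw [e0, a2', a6', a7'] at hs
      exact ⟨hs.bd.mono (by omega), hs.top (zero_mem _)⟩
    | .A n1 m1 t g n2 m2 u, hok =>
      simp only [okRel, Bool.and_eq_true] at hok
      obtain ⟨a1, a2, a3, a4, a5, a6, a7, a8, a9, a10, a11⟩ := hok
      have a1' : 1 ≤ n1 := Nat.le_of_ble_eq_true a1
      have a2' : 1 ≤ n2 := Nat.le_of_ble_eq_true a2
      have a3' : n1 + n2 + 1 = N := Nat.eq_of_beq_eq_true a3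
      have a4' : m1 < 128 := Nat.le_of_ble_eq_true a4
      have a5' : m2 < 128 := Nat.le_of_ble_eq_true a5
      have a6' : g ≤ 7 := Nat.le_of_ble_eq_true a6
      have a7' : Dj m1 m2 := Dj.of_and (Nat.eq_of_beq_eq_true a7)
      have a8' : Dj m1 (gm g) := Dj.of_and (Nat.eq_of_beq_eq_true a8)
      have a9' : Dj m2 (gm g) := Dj.of_and (Nat.eq_of_beq_eq_true a9)
      have a10' : m1 ||| m2 ||| gm g = 2 ^ B - 1 := Nat.eq_of_beq_eq_true a10
      have a11' : cnt 7 m1 + cnt 7 m2 + gb g = B := Nat.eq_of_beq_eq_true a11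
      have hl1 : (labs m1).length = cnt 7 m1 := (cnt_eq m1 a4').symm
      have hl2 : (labs m2).length = cnt 7 m2 := (cnt_eq m2 a5').symm
      have r0 := Rep.unit (T := T) (H := H) (y := y) (M := M + 1) (x := x) (N := N)
        (n := n1) (b := cnt 7 m1) (m := m1) (t := t) (by omega)
      have r0' := Rep.unit (T := T) (H := H) (y := y) (M := M + 1) (x := x) (N := N)
        (n := n2) (b := cnt 7 m2) (m := m2) (t := u) (by omega)
      have r1 := (r0.adb hT h7 hx hV (by omega) n2 (i := u) a1' (by omega) hl1 hl2 a4' a5'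
        a7').mulG hT h7 hx hV (g := g) (by omega) (by omega)
        (by rw [length_labs_or a7', hl1, hl2]) (or_lt a4' a5') a6' (a8'.or a9')
      have hlg1 : (labs (m1 ||| gm g)).length = cnt 7 m1 + gb g := by
        rw [length_labs_or a8', hl1, labs_gm a6']
      have hlg2 : (labs (m2 ||| gm g)).length = cnt 7 m2 + gb g := by
        rw [length_labs_or a9', hl2, labs_gm a6']
      have hk1 := h7k n1 (by omega)
      have hk2 := h7k n2 (by omega)
      have r2 := ((r0.mulG hT h7 hx hV (g := g) a1' (by omega) hl1 a4' a6' a8').adb hT h7 hx hV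
        (by omega) n2 (i := u) (by omega) (by omega) hlg1 hl2 (or_lt a4' (gm_lt a6')) a5'
        (a7'.or a9'.symm)).six h7 (by omega)
      have r3 := (r0'.mulG hT h7 hx hV (g := g) a2' (by omega) hl2 a5' a6' a9').adb hT h7 hx hV
        (by omega) n1 (i := t) (by omega) (by omega) hlg2 hl1 (or_lt a5' (gm_lt a6')) a4'
        (a7'.symm.or a8'.symm)
      have en2 : n1 + 1 + n2 = n1 + n2 + 1 := by omega
      have en3 : n2 + 1 + n1 = n1 + n2 + 1 := by omega
      have eb2 : cnt 7 m1 + gb g + cnt 7 m2 = cnt 7 m1 + cnt 7 m2 + gb g := by omega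
      have eb3 : cnt 7 m2 + gb g + cnt 7 m1 = cnt 7 m1 + cnt 7 m2 + gb g := by omega
      have em2 : m1 ||| gm g ||| m2 = m1 ||| m2 ||| gm g := by
        rw [Nat.or_assoc, Nat.or_comm (gm g), ← Nat.or_assoc]
      have em3 : m2 ||| gm g ||| m1 = m1 ||| m2 ||| gm g := by
        rw [Nat.or_comm, ← Nat.or_assoc]
      rw [en2, eb2, em2] at r2
      rw [en3, eb3, em3] at r3
      have hs := (r1.add r2 (by omega)).add r3 (by omega)
      rw [← lie_lie_eq] at hs
      have e0 : ∀ v w : L, ⁅v, w⁆ + ⁅w, v⁆ = 0 := by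
        intro v w
        rw [← lie_skew w, add_neg_cancel]
      rw [e0, a3', a10', a11'] at hs
      exact ⟨hs.bd.mono (by omega), hs.top (zero_mem _)⟩
    | .E n0 m0 t ky S, hok =>
      simp only [okRel, Bool.and_eq_true] at hok
      obtain ⟨a1, a0, a2, a3, a4, a5, a6, a7⟩ := hok
      have a1' : 1 ≤ n0 := Nat.le_of_ble_eq_true a1
      have hn0 : n0 < N := Nat.le_of_ble_eq_true a0
      have a2' : m0 < 128 := Nat.le_of_ble_eq_true a2
      obtain ⟨a3', a3''⟩ := okS_spec a3
      have a4' : ky + S.length = 5 := Nat.eq_of_beq_eq_true a4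
      have a5' : n0 + ky + (S.map Zw.n).sum = N := Nat.eq_of_beq_eq_true a5
      have a6' : S.foldr (fun z a => z.m ||| a) m0 = 2 ^ B - 1 := Nat.eq_of_beq_eq_true a6
      have a7' : cnt 7 m0 + (S.map Zw.b).sum = B := Nat.eq_of_beq_eq_true a7
      rw [foldr_orS] at a6'
      have hl0 : (labs m0).length = cnt 7 m0 := (cnt_eq m0 a2').symm
      have r0 := Rep.unit (T := T) (H := H) (y := y) (M := M + 1) (x := x) (N := N)
        (n := n0) (b := cnt 7 m0) (m := m0) (t := t) hn0
      have hs := (r0.mono (C := 117649000) (by norm_num)).engW hT h7 hx hV (by omega) 5 a4'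
        le_rfl a1' (by omega) hl0 a2' a3' a3''
      have hw : Wd H y n0 (cnt 7 m0) ((bwl T y n0 (cnt 7 m0) ((labs m0).map x)).getD t 0) :=
        getD_wd (bwl_wd T H y _ _ _ (by simpa using hl0) (atoms_H hx m0)) t
      rw [hE ky (S.map (zval T y x)) _ (by simpa using a4') ?_ (hw.mem_H hz hy hb), a5', a6', a7']
        at hs
      · exact ⟨hs.bd.mono (by norm_num), hs.top (zero_mem _)⟩
      · intro z hz'
        obtain ⟨w, hw', rfl⟩ := List.mem_map.1 hz'
        exact (zval_wd hx w (a3' w hw').1).mem_H hz hy hb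

end Pool.E802
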