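import Pool.Agent.E802.Alg
import Mathlib.Algebra.Lie.Basic
import Mathlib.Tactic

/-!
# Semantics of packed vectors
-/

namespace Pool.E802

section
variable {L : Type*} [AddCommGroup L]

/-- The linear combination of the list `bs` with the lanes of `v` as coefficients. -/
def ev : ℕ → List L → L
  | _, [] => 0
  | v, b :: bs => (v % 1208925819614629174706176) • b + ev (v / 1208925819614629174706176) bs

/-- All lanes are at most `B`. -/
def Bd (B v : ℕ) : Prop := ∀ i, v / 1208925819614629174706176 ^ i % 1208925819614629174706176 ≤ B

theorem Bd.head {B v : ℕ} (h : Bd B v) : v % 1208925819614629174706176 ≤ B := by simpa using h 0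

theorem Bd.div {B v : ℕ} (h : Bd B v) : Bd B (v / 1208925819614629174706176) := by
  intro i
  have := h (i + 1)
  rwa [pow_succ', ← Nat.div_div_eq_div_mul] at this

theorem Bd.of {B v : ℕ} (h0 : v % 1208925819614629174706176 ≤ B) (h : Bd B (v / 1208925819614629174706176)) : Bd B v := by
  intro i
  cases i with
  | zero => simpa using h0
  | succ i =>
    have := h i
    rwa [pow_succ', ← Nat.div_div_eq_div_mul]

theorem Bd.mono {B C v : ℕ} (h : Bd B v) (hBC : B ≤ C) : Bd C v := fun i => (h i).trans hBC

theorem Bd.zero (B : ℕ) : Bd B 0 := by intro i; simp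

theorem Bd.add {B C : ℕ} (hBC : B + C < 1208925819614629174706176) {v w : ℕ} (hv : Bd B v) (hw : Bd C w) :
    Bd (B + C) (v + w) := by
  intro i
  induction i generalizing v w with
  | zero =>
    have := hv.head
    have := hw.head
    simp only [pow_zero, Nat.div_one]
    omega
  | succ i ih =>
    have h1 := hv.head
    have h2 := hw.head
    have e : (v + w) / 1208925819614629174706176 = v / 1208925819614629174706176 + w / 1208925819614629174706176 := by omega
    rw [pow_succ', ← Nat.div_div_eq_div_mul, e]
    exact ih hv.div hw.div

theorem ev_add {B C : ℕ} (hBC : B + C < 1208925819614629174706176) {v w : ℕ} (hv : Bd B v) (hw : Bd C w) (bs : List L) :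
    ev (v + w) bs = ev v bs + ev w bs := by
  induction bs generalizing v w with
  | nil => simp [ev]
  | cons b bs ih =>
    have h1 := hv.head
    have h2 := hw.head
    have e : (v + w) / 1208925819614629174706176 = v / 1208925819614629174706176 + w / 1208925819614629174706176 := by omega
    have e' : (v + w) % 1208925819614629174706176 = v % 1208925819614629174706176 + w % 1208925819614629174706176 := by omega
    simp only [ev]
    rw [e, e', ih hv.div hw.div, add_smul]
    abel

theorem Bd.smul {B s : ℕ} (h : s * B < 1208925819614629174706176) {v : ℕ} (hv : Bd B v) : Bd (s * B) (s * v) := by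
  induction s with
  | zero => simpa using Bd.zero 0
  | succ s ih =>
    rw [Nat.succ_mul] at h ⊢
    rw [Nat.succ_mul]
    exact Bd.add h (ih (by omega)) hv

theorem ev_zero (bs : List L) : ev 0 bs = 0 := by
  induction bs with
  | nil => rfl
  | cons b bs ih => simp [ev, ih]

theorem ev_smul {B s : ℕ} (h : s * B < 1208925819614629174706176) {v : ℕ} (hv : Bd B v) (bs : List L) :
    ev (s * v) bs = s • ev v bs := by
  induction s with
  | zero => simp [ev_zero]
  | succ s ih =>
    rw [Nat.succ_mul] at h
    rw [Nat.succ_mul, ev_add h (Bd.smul (by omega) hv) hv, ih (by omega), succ_nsmul]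

theorem Bd.pow (t : ℕ) : Bd 1 (1208925819614629174706176 ^ t) := by
  induction t with
  | zero =>
    refine Bd.of (by norm_num) ?_
    have : (1208925819614629174706176 ^ 0 : ℕ) / 1208925819614629174706176 = 0 := by norm_num
    rw [this]
    exact Bd.zero 1
  | succ t ih =>
    refine Bd.of ?_ ?_
    · rw [pow_succ]; simp
    · rw [pow_succ, Nat.mul_div_cancel _ (by norm_num)]
      exact ih

theorem ev_pow (t : ℕ) (bs : List L) : ev (1208925819614629174706176 ^ t) bs = bs.getD t 0 := by
  induction t generalizing bs with
  | zero =>
    cases bs with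
    | nil => simp [ev]
    | cons b bs =>
      have e1 : (1208925819614629174706176 ^ 0 : ℕ) % 1208925819614629174706176 = 1 := by norm_num
      have e2 : (1208925819614629174706176 ^ 0 : ℕ) / 1208925819614629174706176 = 0 := by norm_num
      simp only [ev]
      rw [e1, e2, ev_zero]
      simp
  | succ t ih =>
    cases bs with
    | nil => simp [ev]
    | cons b bs =>
      have e1 : (1208925819614629174706176 ^ (t + 1) : ℕ) % 1208925819614629174706176 = 0 := by rw [pow_succ]; simp
      have e2 : (1208925819614629174706176 ^ (t + 1) : ℕ) / 1208925819614629174706176 = 1208925819614629174706176 ^ t := by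
        rw [pow_succ, Nat.mul_div_cancel _ (by norm_num)]
      simp only [ev]
      rw [e1, e2, ih]
      simp

/-! ### The row operations -/

@[simp] theorem mulRows_nil (v acc : ℕ) : mulRows [] v acc = acc := rfl

theorem mulRows_cons (r : ℕ) (rows : List ℕ) (v acc : ℕ) :
    mulRows (r :: rows) v acc = mulRows rows (v / 1208925819614629174706176) (acc + (v % 1208925819614629174706176 % 7) * r) := rfl

@[simp] theorem comb_nil (v acc : ℕ) : comb [] v acc = acc := rfl

theorem comb_cons (r : ℕ) (rows : List ℕ) (v acc : ℕ) :
    comb (r :: rows) v acc = comb rows (v / 8) (acc + (v % 8) * r) := rfl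

theorem all7_zero (w : ℕ) : all7 0 w = true := rfl

theorem all7_succ (k w : ℕ) :
    all7 (k + 1) w = cond (Nat.beq (w % 1208925819614629174706176 % 7) 0) (all7 k (w / 1208925819614629174706176)) false := rfl

theorem small6_zero (w : ℕ) : small6 0 w = Nat.beq w 0 := rfl

theorem small6_succ (k w : ℕ) :
    small6 (k + 1) w = cond (Nat.ble (w % 1208925819614629174706176) 6) (small6 k (w / 1208925819614629174706176)) false := rfl

theorem Bd.of_small6 {k w : ℕ} (h : small6 k w = true) : Bd 6 w := by
  induction k generalizing w with
  | zero =>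
    rw [small6_zero] at h
    have : w = 0 := Nat.eq_of_beq_eq_true h
    rw [this]
    exact Bd.zero 6
  | succ k ih =>
    rw [small6_succ] at h
    cases h1 : Nat.ble (w % 1208925819614629174706176) 6 with
    | false => rw [h1] at h; simp at h
    | true =>
      rw [h1] at h
      simp only [cond_true] at h
      exact Bd.of (Nat.le_of_ble_eq_true h1) (ih h)

theorem ev_all7 (h7 : ∀ u : L, 7 • u = 0) {k w : ℕ} (h : all7 k w = true) (bs : List L)
    (hb : bs.length ≤ k) : ev w bs = 0 := by
  induction k generalizing w bs with
  | zero =>
    have : bs = [] := List.eq_nil_of_length_eq_zero (by omega)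
    subst this
    rfl
  | succ k ih =>
    cases bs with
    | nil => rfl
    | cons b bs =>
      rw [all7_succ] at h
      cases h1 : Nat.beq (w % 1208925819614629174706176 % 7) 0 with
      | false => rw [h1] at h; simp at h
      | true =>
        rw [h1] at h
        simp only [cond_true] at h
        have h2 : w % 1208925819614629174706176 % 7 = 0 := Nat.eq_of_beq_eq_true h1
        simp only [ev]
        rw [ih h bs (by simpa using hb)]
        have h3 : w % 1208925819614629174706176 = (w % 1208925819614629174706176 / 7) * 7 := by omega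
        rw [h3, mul_smul, h7, smul_zero, add_zero]

theorem smul_mod7 (h7 : ∀ u : L, 7 • u = 0) (c : ℕ) (u : L) : (c % 7) • u = c • u := by
  conv_rhs => rw [← Nat.div_add_mod c 7]
  rw [add_smul, mul_comm, mul_smul, h7, smul_zero, zero_add]

/-- The main property of `mulRows`. -/
theorem mulRows_spec (h7 : ∀ u : L, 7 • u = 0) (S : AddSubgroup L) (φ : L →+ L) (bs : List L)
    {ws : List L} {rows : List ℕ}
    (h : List.Forall₂ (fun w r => φ w - ev r bs ∈ S) ws rows) (hr : ∀ r ∈ rows, Bd 6 r)
    (v : ℕ) {A acc : ℕ} (hA : Bd A acc) (hlt : A + 36 * rows.length < 1208925819614629174706176) :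
    Bd (A + 36 * rows.length) (mulRows rows v acc) ∧
      φ (ev v ws) + ev acc bs - ev (mulRows rows v acc) bs ∈ S := by
  induction h generalizing v A acc with
  | nil => simpa [ev] using hA
  | @cons w r ws rows hwr _ ih =>
    have hc : v % 1208925819614629174706176 % 7 ≤ 6 := by omega
    have hr1 : Bd 6 r := hr r (by simp)
    have hs : Bd ((v % 1208925819614629174706176 % 7) * 6) ((v % 1208925819614629174706176 % 7) * r) := Bd.smul (by omega) hr1
    have hs' : Bd 36 ((v % 1208925819614629174706176 % 7) * r) := hs.mono (by omega)
    simp only [List.length_cons] at hlt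
    have hacc : Bd (A + 36) (acc + (v % 1208925819614629174706176 % 7) * r) := Bd.add (by omega) hA hs'
    have := ih (fun r hr' => hr r (by simp [hr'])) (v / 1208925819614629174706176) hacc (by omega)
    rw [mulRows_cons]
    refine ⟨?_, ?_⟩
    · refine this.1.mono ?_
      simp only [List.length_cons]
      omega
    · have h2 := this.2
      rw [ev_add (B := A) (C := 36) (by omega) hA hs', ev_smul (B := 6) (by omega) hr1] at h2
      have h3 : (v % 1208925819614629174706176 % 7) • (φ w - ev r bs) ∈ S := S.nsmul_mem hwr _
      have h4 := S.add_mem h2 h3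
      have e : φ (ev v (w :: ws)) = (v % 1208925819614629174706176 % 7) • φ w + φ (ev (v / 1208925819614629174706176) ws) := by
        simp only [ev, map_add, map_nsmul]
        rw [smul_mod7 h7]
      rw [e]
      have e2 : ∀ a b c d e' f : L, a + b + c - d = (b + (c + e') - d + (a - e')) := by
        intros; abel
      rw [e2 _ _ _ _ ((v % 1208925819614629174706176 % 7) • ev r bs) 0, ← smul_sub]
      exact h4

/-- The main property of `comb`. -/
theorem comb_spec (S : AddSubgroup L) (bs : List L) {R : ℕ} (rows : List ℕ)
    (h : ∀ r ∈ rows, Bd R r ∧ ev r bs ∈ S)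
    (v : ℕ) {A acc : ℕ} (hA : Bd A acc) (hlt : A + 7 * R * rows.length < 1208925819614629174706176) :
    Bd (A + 7 * R * rows.length) (comb rows v acc) ∧
      ev (comb rows v acc) bs - ev acc bs ∈ S := by
  induction rows generalizing v A acc with
  | nil => simpa using hA
  | cons r rows ih =>
    have hc : v % 8 ≤ 7 := by omega
    have hr1 := h r (by simp)
    simp only [List.length_cons] at hlt
    have hlt' : A + 7 * R + 7 * R * rows.length < 1208925819614629174706176 := by nlinarith
    have h7R : 7 * R < 1208925819614629174706176 := by nlinarith [Nat.zero_le (7 * R * rows.length)]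
    have hle : (v % 8) * R ≤ 7 * R := Nat.mul_le_mul_right _ hc
    have hs : Bd ((v % 8) * R) ((v % 8) * r) := Bd.smul (by omega) hr1.1
    have hs' : Bd (7 * R) ((v % 8) * r) := hs.mono hle
    have hacc : Bd (A + 7 * R) (acc + (v % 8) * r) :=
      Bd.add (by nlinarith [Nat.zero_le (7 * R * rows.length)]) hA hs'
    have := ih (fun r hr' => h r (by simp [hr'])) (v / 8) hacc hlt'
    rw [comb_cons]
    refine ⟨?_, ?_⟩
    · refine this.1.mono ?_
      simp only [List.length_cons]
      nlinarith
    · have h2 := this.2
      rw [ev_add (B := A) (C := 7 * R) (by nlinarith [Nat.zero_le (7 * R * rows.length)]) hA hs',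
        ev_smul (B := R) (by omega) hr1.1] at h2
      have h3 : (v % 8) • ev r bs ∈ S := S.nsmul_mem hr1.2 _
      have h4 := S.add_mem h2 h3
      have e2 : ∀ a b c : L, a - (b + c) + c = a - b := by intros; abel
      rwa [e2] at h4

end

end Pool.E802
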