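import Pool.Agent.E802.Words
import Pool.Agent.E802.Masks

/-!
# Soundness of the multiplication routines
-/

namespace Pool.E802

variable {L : Type*} [LieRing L]

/-- Value of a spanning-set index. -/
def valOf (y : L) (F : ℕ → List L → List L) (n1 nx b : ℕ) (X : List L) (t : ℕ) : L :=
  if t < n1 then ⁅(F b X).getD t 0, y⁆
  else ⁅(F (b - 1) (X.eraseIdx ((t - n1) / nx))).getD ((t - n1) % nx) 0, X.getD ((t - n1) / nx) 0⁆

/-- The basis words of type `(n, b)` evaluated at the list `X` of arbitrary letters. -/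
def bwl (T : Tb) (y : L) : ℕ → ℕ → List L → List L
  | 0, _, _ => []
  | 1, b, X => if b = 0 then [y] else if b = 1 then [X.getD 0 0] else []
  | n + 2, b, X => (T.D (n + 2) b).map
      (valOf y (bwl T y (n + 1)) (T.dim (n + 1) b) (T.dim (n + 1) (b - 1)) b X)

/-- The spanning set of type `(n, b)`. -/
def tl (T : Tb) (y : L) (n b : ℕ) (X : List L) : List L :=
  (List.range (T.dim (n - 1) b + b * T.dim (n - 1) (b - 1))).map
    (valOf y (bwl T y (n - 1)) (T.dim (n - 1) b) (T.dim (n - 1) (b - 1)) b X)

/-- Elementary properties of the tables. -/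
structure TOk (T : Tb) : Prop where
  d0 : ∀ b, T.dim 0 b = 0
  d10 : T.dim 1 0 = 1
  d11 : T.dim 1 1 = 1
  d1 : ∀ b, T.dim 1 (b + 2) = 0
  dle : ∀ n b, T.dim n b ≤ 27
  ry : ∀ n b, ∀ r ∈ T.RY n b, Bd 6 r
  rx : ∀ n b p, ∀ r ∈ T.RX n b p, Bd 6 r

theorem bwl_length {T : Tb} (hT : TOk T) (y : L) (n b : ℕ) (X : List L) :
    (bwl T y n b X).length = T.dim n b := by
  match n, b with
  | 0, b => simp [bwl, hT.d0]
  | 1, 0 => simp [bwl, hT.d10]
  | 1, 1 => simp [bwl, hT.d11]
  | 1, b + 2 => simp [bwl, hT.d1]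
  | n + 2, b => simp [bwl, Tb.dim]

variable {T : Tb} {H : L → Prop} {y : L} {M : ℕ}

theorem getD_wd {n b : ℕ} {l : List L} (h : ∀ w ∈ l, Wd H y n b w) (i : ℕ) :
    Wd H y n b (l.getD i 0) := by
  rw [List.getD_eq_getElem?_getD]
  cases hi : l[i]? with
  | none => exact Wd.zero n b
  | some w => exact h w (List.mem_of_getElem? hi)

theorem valOf_wd {F : ℕ → List L → List L} {n n1 nx b : ℕ} {X : List L}
    (hF : ∀ b X, X.length = b → (∀ x ∈ X, H x) → ∀ w ∈ F b X, Wd H y n b w)
    (hX : X.length = b) (hXH : ∀ x ∈ X, H x) (t : ℕ) :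
    Wd H y (n + 1) b (valOf y F n1 nx b X t) := by
  unfold valOf
  split_ifs with h
  · exact Wd.my (getD_wd (hF b X hX hXH) t)
  · by_cases hp : (t - n1) / nx < X.length
    · have h0 : 0 < X.length := lt_of_le_of_lt (Nat.zero_le _) hp
      have hb : b = b - 1 + 1 := by omega
      rw [hb]
      have hg : X.getD ((t - n1) / nx) 0 = X[(t - n1) / nx] := by
        rw [List.getD_eq_getElem?_getD, List.getElem?_eq_getElem hp]; rfl
      refine Wd.mx (getD_wd (hF (b - 1) _ ?_ ?_) _) ?_
      · rw [List.length_eraseIdx_of_lt hp, hX]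
      · intro x hx
        exact hXH x (List.mem_of_mem_eraseIdx hx)
      · rw [hg]
        exact hXH _ (List.getElem_mem hp)
    · have hg : X.getD ((t - n1) / nx) 0 = 0 := by
        rw [List.getD_eq_getElem?_getD, List.getElem?_eq_none (by omega)]; rfl
      rw [hg, lie_zero]
      exact Wd.zero _ _

theorem bwl_wd (T : Tb) (H : L → Prop) (y : L) (n b : ℕ) (X : List L) (hX : X.length = b)
    (hXH : ∀ x ∈ X, H x) : ∀ w ∈ bwl T y n b X, Wd H y n b w := by
  induction n generalizing b X with
  | zero => intro w hw; simp [bwl] at hw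
  | succ n ih =>
    match n, b, X with
    | 0, 0, X =>
      intro w hw
      simp only [bwl, if_true, List.mem_singleton] at hw
      rw [hw]; exact Wd.y
    | 0, 1, X =>
      intro w hw
      have hw' : w = X.getD 0 0 := by simpa [bwl] using hw
      have h0 : 0 < X.length := by omega
      rw [hw', List.getD_eq_getElem?_getD, List.getElem?_eq_getElem h0]
      exact Wd.atom _ (hXH _ (List.getElem_mem h0))
    | 0, b + 2, X => intro w hw; simp [bwl] at hw
    | n + 1, b, X =>
      intro w hw
      simp only [bwl, List.mem_map] at hw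
      obtain ⟨t, _, rfl⟩ := hw
      exact valOf_wd (fun b X hX hXH => ih b X hX hXH) hX hXH t

/-- Validity of the tables of type `(n, b)`. -/
def VV (T : Tb) (H : L → Prop) (y : L) (M n b : ℕ) : Prop :=
  ∀ X : List L, X.length = b → (∀ x ∈ X, H x) →
    List.Forall₂ (fun w r => ⁅w, y⁆ - ev r (bwl T y n b X) ∈ Zs H y M n b)
      (bwl T y (n - 1) b X) (T.RY n b) ∧
    ∀ p < b, List.Forall₂ (fun w r => ⁅w, X.getD p 0⁆ - ev r (bwl T y n b X) ∈ Zs H y M n b)
      (bwl T y (n - 1) (b - 1) (X.eraseIdx p)) (T.RX n b p)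

/-- The list used to interpret vectors of type `(n, b)` when the top weight is `N`. -/
def bsT (T : Tb) (y : L) (N n b : ℕ) (X : List L) : List L :=
  if n = N then tl T y n b X else bwl T y n b X

/-- `v` represents `u`. -/
structure Rep (T : Tb) (H : L → Prop) (y : L) (M : ℕ) (x : ℕ → L) (N n b m B v : ℕ) (u : L) :
    Prop where
  bd : Bd B v
  mem : u - ev v (bsT T y N n b ((labs m).map x)) ∈ Zs H y M n b

variable {x : ℕ → L} {N : ℕ}

theorem Rep.mono {n b m B C v : ℕ} {u : L} (h : Rep T H y M x N n b m B v u) (hBC : B ≤ C) :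
    Rep T H y M x N n b m C v u := ⟨h.bd.mono hBC, h.mem⟩

theorem Rep.add {n b m B C v w : ℕ} {u u' : L} (h : Rep T H y M x N n b m B v u)
    (h' : Rep T H y M x N n b m C w u') (hBC : B + C < 1208925819614629174706176) :
    Rep T H y M x N n b m (B + C) (v + w) (u + u') := by
  refine ⟨Bd.add hBC h.bd h'.bd, ?_⟩
  rw [ev_add hBC h.bd h'.bd, add_sub_add_comm]
  exact add_mem h.mem h'.mem

theorem Rep.six (h7 : ∀ u : L, 7 • u = 0) {n b m B v : ℕ} {u : L}
    (h : Rep T H y M x N n b m B v u) (hB : 6 * B < 1208925819614629174706176) :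
    Rep T H y M x N n b m (6 * B) (6 * v) (-u) := by
  refine ⟨Bd.smul hB h.bd, ?_⟩
  rw [ev_smul hB h.bd]
  have e : -u - 6 • ev v (bsT T y N n b ((labs m).map x)) =
      -(u - ev v (bsT T y N n b ((labs m).map x))) := by
    have := h7 (ev v (bsT T y N n b ((labs m).map x)))
    rw [show (7 : ℕ) = 6 + 1 from rfl, add_nsmul, one_nsmul] at this
    rw [eq_neg_of_add_eq_zero_left this]
    abel
  rw [e]
  exact neg_mem h.mem

theorem Rep.zero_iff {n b m : ℕ} {u : L} {B : ℕ} :
    Rep T H y M x N n b m B 0 u ↔ u ∈ Zs H y M n b := by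
  constructor
  · intro h
    have := h.mem
    rwa [ev_zero, sub_zero] at this
  · intro h
    exact ⟨Bd.zero _, by rwa [ev_zero, sub_zero]⟩

/-- Right bracket as an additive map. -/
def lieR (g : L) : L →+ L where
  toFun w := ⁅w, g⁆
  map_zero' := zero_lie g
  map_add' u v := add_lie u v g

@[simp] theorem lieR_apply (g w : L) : lieR g w = ⁅w, g⁆ := rfl

theorem units_length (off len : ℕ) : (units off len).length = len := by simp [units]

theorem units_get (off len i : ℕ) (h : i < (units off len).length) :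
    (units off len)[i] = 1208925819614629174706176 ^ (off + i) := by
  simp [units]

theorem units_bd (off len : ℕ) : ∀ r ∈ units off len, Bd 6 r := by
  intro r hr
  simp only [units, List.mem_map] at hr
  obtain ⟨i, _, rfl⟩ := hr
  exact (Bd.pow i).mono (by norm_num)

theorem tl_length (T : Tb) (y : L) (n b : ℕ) (X : List L) :
    (tl T y n b X).length = T.dim (n - 1) b + b * T.dim (n - 1) (b - 1) := by simp [tl]

theorem tl_getD (T : Tb) (y : L) (n b : ℕ) (X : List L) {t : ℕ}
    (ht : t < T.dim (n - 1) b + b * T.dim (n - 1) (b - 1)) :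
    (tl T y n b X).getD t 0 =
      valOf y (bwl T y (n - 1)) (T.dim (n - 1) b) (T.dim (n - 1) (b - 1)) b X t := by
  rw [List.getD_eq_getElem?_getD, tl, List.getElem?_map, List.getElem?_range ht]
  rfl

theorem forall₂_units {α : Type*} {R : α → ℕ → Prop} {ws : List α} {off len : ℕ}
    (hl : ws.length = len) (h : ∀ (i : ℕ) (hi : i < ws.length), R ws[i] (1208925819614629174706176 ^ (off + i))) :
    List.Forall₂ R ws (units off len) := by
  rw [List.forall₂_iff_get]
  refine ⟨by rw [hl, units_length], ?_⟩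
  intro i h1 h2
  have := h i h1
  rw [List.get_eq_getElem, List.get_eq_getElem, units_get off len i h2]
  exact this

theorem getElem_getD {α : Type*} (l : List α) (d : α) {i : ℕ} (h : i < l.length) :
    l.getD i d = l[i] := by
  rw [List.getD_eq_getElem?_getD, List.getElem?_eq_getElem h]; rfl

/-- Common part of the two soundness statements for multiplications. -/
theorem rep_mul_aux (h7 : ∀ u : L, 7 • u = 0) {n' b' : ℕ} {u g : L} {ws bs : List L} {v : ℕ}
    {rows : List ℕ} (hlen : rows.length ≤ 27) (hrows : ∀ r ∈ rows, Bd 6 r)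
    (hF : List.Forall₂ (fun w r => ⁅w, g⁆ - ev r bs ∈ Zs H y M n' b') ws rows)
    (hu : ⁅u - ev v ws, g⁆ ∈ Zs H y M n' b') :
    Bd 1000 (mulRows rows v 0) ∧ ⁅u, g⁆ - ev (mulRows rows v 0) bs ∈ Zs H y M n' b' := by
  have h := mulRows_spec h7 (Zs H y M n' b') (lieR g) bs (ws := ws) (rows := rows) hF hrows v
    (A := 0) (acc := 0) (Bd.zero 0) (by omega)
  refine ⟨h.1.mono (by omega), ?_⟩
  have h2 := add_mem hu h.2
  rw [ev_zero, add_zero, lieR_apply, sub_lie] at h2
  have e : ⁅u, g⁆ - ⁅ev v ws, g⁆ + (⁅ev v ws, g⁆ - ev (mulRows rows v 0) bs) =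
      ⁅u, g⁆ - ev (mulRows rows v 0) bs := by abel
  rwa [e] at h2

theorem Rep.mulY (hT : TOk T) (h7 : ∀ u : L, 7 • u = 0) (hx : ∀ i, H (x i))
    (hV : ∀ n, 2 ≤ n → n < N → ∀ b, VV T H y M n b) {n b m B v : ℕ} {u : L} (hn : 1 ≤ n)
    (hnN : n + 1 ≤ N) (hb : (labs m).length = b) (h : Rep T H y M x N n b m B v u) :
    Rep T H y M x N (n + 1) b m 1000 (E802.mulY T N n b v) ⁅u, y⁆ := by
  have hXl : ((labs m).map x).length = b := by simpa using hb
  have hXH : ∀ w ∈ (labs m).map x, H w := by
    intro w hw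
    obtain ⟨i, _, rfl⟩ := List.mem_map.1 hw
    exact hx i
  by_cases hv : v = 0
  · subst hv
    have h1 : E802.mulY T N n b 0 = 0 := rfl
    rw [h1, Rep.zero_iff]
    exact Zs_y (Rep.zero_iff.1 h)
  have hv' : Nat.beq v 0 = false := by
    cases hh : Nat.beq v 0 with
    | false => rfl
    | true => exact absurd (Nat.eq_of_beq_eq_true hh) hv
  have hmem := h.mem
  have hbs : bsT T y N n b ((labs m).map x) = bwl T y n b ((labs m).map x) := by
    rw [bsT, if_neg (by omega)]
  rw [hbs] at hmem
  have hu := Zs_y hmem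
  by_cases htop : n + 1 = N
  · have e1 : E802.mulY T N n b v = mulRows (units 0 (T.dim n b)) v 0 := by
      unfold E802.mulY
      rw [hv', htop]
      have : Nat.beq N N = true := Nat.beq_refl N
      rw [this]
      rfl
    have e2 : bsT T y N (n + 1) b ((labs m).map x) = tl T y (n + 1) b ((labs m).map x) := by
      rw [bsT, if_pos htop]
    have hF : List.Forall₂ (fun w r => ⁅w, y⁆ - ev r (tl T y (n + 1) b ((labs m).map x)) ∈
        Zs H y M (n + 1) b) (bwl T y n b ((labs m).map x)) (units 0 (T.dim n b)) := by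
      refine forall₂_units (bwl_length hT y n b _) ?_
      intro i hi
      have hi' : i < T.dim n b := by rwa [bwl_length hT] at hi
      rw [ev_pow, tl_getD]
      · rw [Nat.add_sub_cancel, zero_add, valOf, if_pos hi', getElem_getD _ _ hi, sub_self]
        exact zero_mem _
      · rw [Nat.add_sub_cancel]
        omega
    have := rep_mul_aux h7 (v := v) (u := u) (by rw [units_length]; exact hT.dle n b)
      (units_bd _ _) hF hu
    exact ⟨by rw [e1]; exact this.1, by rw [e1, e2]; exact this.2⟩
  · have e1 : E802.mulY T N n b v = mulRows (T.RY (n + 1) b) v 0 := by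
      unfold E802.mulY
      have : Nat.beq (n + 1) N = false := by
        cases hh : Nat.beq (n + 1) N with
        | false => rfl
        | true => exact absurd (Nat.eq_of_beq_eq_true hh) htop
      rw [hv', this]
      rfl
    have e2 : bsT T y N (n + 1) b ((labs m).map x) = bwl T y (n + 1) b ((labs m).map x) := by
      rw [bsT, if_neg htop]
    have hF := (hV (n + 1) (by omega) (by omega) b _ hXl hXH).1
    rw [Nat.add_sub_cancel] at hF
    have hl : (T.RY (n + 1) b).length ≤ 27 := by
      have := hF.length_eq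
      rw [bwl_length hT] at this
      rw [← this]; exact hT.dle n b
    have := rep_mul_aux h7 (v := v) (u := u) hl (hT.ry _ _) hF hu
    exact ⟨by rw [e1]; exact this.1, by rw [e1, e2]; exact this.2⟩

theorem Rep.mulX (hT : TOk T) (h7 : ∀ u : L, 7 • u = 0) (hx : ∀ i, H (x i))
    (hV : ∀ n, 2 ≤ n → n < N → ∀ b, VV T H y M n b) {n b m B v l : ℕ} {u : L} (hn : 1 ≤ n)
    (hnN : n + 1 ≤ N) (hb : (labs m).length = b) (hm : m < 128) (hl : l < 7)
    (hml : m.testBit l = false) (h : Rep T H y M x N n b m B v u) :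
    Rep T H y M x N (n + 1) (b + 1) (m ||| 2 ^ l) 1000 (E802.mulX T N n b m v l) ⁅u, x l⁆ := by
  obtain ⟨hins1, hins2⟩ := labs_ins m hm l hl hml
  have hXe : ((labs (m ||| 2 ^ l)).map x).eraseIdx (cnt l m) = (labs m).map x := by
    rw [List.eraseIdx_map, hins1]
  have hXg : ((labs (m ||| 2 ^ l)).map x).getD (cnt l m) 0 = x l := by
    rw [List.getD_eq_getElem?_getD, List.getElem?_map, hins2]; rfl
  have hpl : cnt l m < (labs (m ||| 2 ^ l)).length := by
    by_contra hcon
    rw [List.getElem?_eq_none (by omega)] at hins2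
    exact absurd hins2 (by simp)
  have hlen : (labs (m ||| 2 ^ l)).length = b + 1 := by
    have := List.length_eraseIdx_of_lt hpl
    rw [hins1, hb] at this
    omega
  have hXl : ((labs (m ||| 2 ^ l)).map x).length = b + 1 := by simpa using hlen
  have hXH : ∀ w ∈ (labs (m ||| 2 ^ l)).map x, H w := by
    intro w hw
    obtain ⟨i, _, rfl⟩ := List.mem_map.1 hw
    exact hx i
  by_cases hv : v = 0
  · subst hv
    have h1 : E802.mulX T N n b m 0 l = 0 := rfl
    rw [h1, Rep.zero_iff]
    exact Zs_x (Rep.zero_iff.1 h) (hx l)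
  have hv' : Nat.beq v 0 = false := by
    cases hh : Nat.beq v 0 with
    | false => rfl
    | true => exact absurd (Nat.eq_of_beq_eq_true hh) hv
  have hmem := h.mem
  have hbs : bsT T y N n b ((labs m).map x) = bwl T y n b ((labs m).map x) := by
    rw [bsT, if_neg (by omega)]
  rw [hbs] at hmem
  have hu := Zs_x hmem (hx l)
  by_cases htop : n + 1 = N
  · have e1 : E802.mulX T N n b m v l =
        mulRows (units (T.dim n (b + 1) + cnt l m * T.dim n b) (T.dim n b)) v 0 := by
      unfold E802.mulX
      rw [hv', htop]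
      have : Nat.beq N N = true := Nat.beq_refl N
      rw [this]
      rfl
    have e2 : bsT T y N (n + 1) (b + 1) ((labs (m ||| 2 ^ l)).map x) =
        tl T y (n + 1) (b + 1) ((labs (m ||| 2 ^ l)).map x) := by
      rw [bsT, if_pos htop]
    have hF : List.Forall₂ (fun w r => ⁅w, x l⁆ -
        ev r (tl T y (n + 1) (b + 1) ((labs (m ||| 2 ^ l)).map x)) ∈
        Zs H y M (n + 1) (b + 1)) (bwl T y n b ((labs m).map x))
        (units (T.dim n (b + 1) + cnt l m * T.dim n b) (T.dim n b)) := by
      refine forall₂_units (bwl_length hT y n b _) ?_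
      intro i hi
      have hi' : i < T.dim n b := by rwa [bwl_length hT] at hi
      have hq : T.dim n (b + 1) + cnt l m * T.dim n b + i - T.dim n (b + 1) =
          i + T.dim n b * cnt l m := by
        rw [mul_comm (cnt l m)]; omega
      have hdiv : (i + T.dim n b * cnt l m) / T.dim n b = cnt l m := by
        rw [Nat.add_mul_div_left _ _ (by omega), Nat.div_eq_of_lt hi', zero_add]
      have hmod : (i + T.dim n b * cnt l m) % T.dim n b = i := by
        rw [Nat.add_mul_mod_self_left, Nat.mod_eq_of_lt hi']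
      rw [ev_pow, tl_getD]
      · simp only [Nat.add_sub_cancel]
        rw [valOf, if_neg (by omega), hq, hdiv, hmod, hXg,
          hXe, Nat.add_sub_cancel, getElem_getD _ _ hi, sub_self]
        exact zero_mem _
      · rw [Nat.add_sub_cancel, Nat.add_sub_cancel]
        have h1 : cnt l m ≤ b := by omega
        have h2 : cnt l m * T.dim n b ≤ b * T.dim n b := Nat.mul_le_mul_right _ h1
        rw [Nat.succ_mul]
        omega
    have := rep_mul_aux h7 (v := v) (u := u) (by rw [units_length]; exact hT.dle n b)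
      (units_bd _ _) hF hu
    exact ⟨by rw [e1]; exact this.1, by rw [e1, e2]; exact this.2⟩
  · have e1 : E802.mulX T N n b m v l = mulRows (T.RX (n + 1) (b + 1) (cnt l m)) v 0 := by
      unfold E802.mulX
      have : Nat.beq (n + 1) N = false := by
        cases hh : Nat.beq (n + 1) N with
        | false => rfl
        | true => exact absurd (Nat.eq_of_beq_eq_true hh) htop
      rw [hv', this]
      rfl
    have e2 : bsT T y N (n + 1) (b + 1) ((labs (m ||| 2 ^ l)).map x) =
        bwl T y (n + 1) (b + 1) ((labs (m ||| 2 ^ l)).map x) := by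
      rw [bsT, if_neg htop]
    have hF := (hV (n + 1) (by omega) (by omega) (b + 1) _ hXl hXH).2 (cnt l m) (by omega)
    rw [Nat.add_sub_cancel, Nat.add_sub_cancel, hXe, hXg] at hF
    have hl' : (T.RX (n + 1) (b + 1) (cnt l m)).length ≤ 27 := by
      have := hF.length_eq
      rw [bwl_length hT] at this
      rw [← this]; exact hT.dle n b
    have := rep_mul_aux h7 (v := v) (u := u) hl' (hT.rx _ _ _) hF hu
    exact ⟨by rw [e1]; exact this.1, by rw [e1, e2]; exact this.2⟩

end Pool.E802
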