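import Pool.Agent.E802.Sem

/-!
# Words with prescribed numbers of letters and the subgroups killed by all completions
-/

namespace Pool.E802

variable {L : Type*} [LieRing L]

/-- Right action of a word in the letters `y` (`none`) and arbitrary elements. -/
def act (y : L) : List (Option L) → L → L
  | [], u => u
  | none :: s, u => act y s ⁅u, y⁆
  | some x :: s, u => act y s ⁅u, x⁆

def cY : List (Option L) → ℕ
  | [] => 0
  | none :: s => cY s + 1
  | some _ :: s => cY s

def cX : List (Option L) → ℕ
  | [] => 0
  | none :: s => cX s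
  | some _ :: s => cX s + 1

theorem act_add (y : L) (s : List (Option L)) (u v : L) :
    act y s (u + v) = act y s u + act y s v := by
  induction s generalizing u v with
  | nil => rfl
  | cons a s ih => cases a <;> simp [act, ih]

theorem act_zero (y : L) (s : List (Option L)) : act y s 0 = 0 := by
  induction s with
  | nil => rfl
  | cons a s ih => cases a <;> simp [act, ih]

theorem act_neg (y : L) (s : List (Option L)) (u : L) : act y s (-u) = -act y s u := by
  have := act_add y s u (-u)
  rw [add_neg_cancel, act_zero] at this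
  exact (neg_eq_of_add_eq_zero_right this.symm).symm

/-- The elements all whose completions to a word with `M` arbitrary letters (from `H`) and at least
seven letters `y` vanish; `n` is the weight and `b` the number of arbitrary letters used so far. -/
def Zs (H : L → Prop) (y : L) (M n b : ℕ) : AddSubgroup L where
  carrier := {u | ∀ s : List (Option L), (∀ x, some x ∈ s → H x) → 7 + b ≤ n + cY s →
    cX s + b = M → act y s u = 0}
  add_mem' := by
    intro u v hu hv s h1 h2 h3
    rw [act_add, hu s h1 h2 h3, hv s h1 h2 h3, add_zero]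
  zero_mem' := by
    intro s _ _ _
    exact act_zero y s
  neg_mem' := by
    intro u hu s h1 h2 h3
    rw [act_neg, hu s h1 h2 h3, neg_zero]

theorem mem_Zs {H : L → Prop} {y : L} {M n b : ℕ} {u : L} :
    u ∈ Zs H y M n b ↔ ∀ s : List (Option L), (∀ x, some x ∈ s → H x) → 7 + b ≤ n + cY s →
    cX s + b = M → act y s u = 0 := Iff.rfl

/-- Pure left-normed words of weight `n` with `b` arbitrary letters. -/
inductive Wd (H : L → Prop) (y : L) : ℕ → ℕ → L → Prop
  | zero (n b : ℕ) : Wd H y n b 0
  | y : Wd H y 1 0 y
  | atom (x : L) (hx : H x) : Wd H y 1 1 x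
  | my {n b : ℕ} {u : L} (hu : Wd H y n b u) : Wd H y (n + 1) b ⁅u, y⁆
  | mx {n b : ℕ} {u x : L} (hu : Wd H y n b u) (hx : H x) : Wd H y (n + 1) (b + 1) ⁅u, x⁆

variable {H : L → Prop} {y : L} {M : ℕ}

theorem Zs_y {n b : ℕ} {u : L} (hu : u ∈ Zs H y M n b) : ⁅u, y⁆ ∈ Zs H y M (n + 1) b := by
  intro s h1 h2 h3
  exact hu (none :: s) (fun x hx => h1 x (by simpa using hx)) (by simp only [cY]; omega)
    (by simpa only [cX] using h3)

theorem Zs_x {n b : ℕ} {u x : L} (hu : u ∈ Zs H y M n b) (hx : H x) :
    ⁅u, x⁆ ∈ Zs H y M (n + 1) (b + 1) := by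
  intro s h1 h2 h3
  refine hu (some x :: s) (fun x' hx' => ?_) (by simp only [cY]; omega) (by simp only [cX]; omega)
  rcases List.mem_cons.1 hx' with h | h
  · rw [Option.some_injective _ h]; exact hx
  · exact h1 x' h

theorem lie_lie_eq (u w g : L) : ⁅u, ⁅w, g⁆⁆ = ⁅⁅u, w⁆, g⁆ + -⁅⁅u, g⁆, w⁆ := by
  rw [leibniz_lie, ← lie_skew w ⁅u, g⁆]

theorem Zs_wd {n b k c : ℕ} {u w : L} (hw : Wd H y k c w) (hu : u ∈ Zs H y M n b) :
    ⁅u, w⁆ ∈ Zs H y M (n + k) (b + c) := by
  induction hw generalizing n b u with
  | zero => rw [lie_zero]; exact zero_mem _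
  | y => exact Zs_y hu
  | atom x hx => exact Zs_x hu hx
  | @my n' b' w' hw' ih =>
    rw [lie_lie_eq]
    refine add_mem ?_ (neg_mem ?_)
    · have := Zs_y (ih hu)
      rwa [add_assoc] at this
    · have := ih (Zs_y hu)
      have e : n + 1 + n' = n + (n' + 1) := by omega
      rwa [e] at this
  | @mx n' b' w' x' hw' hx' ih =>
    rw [lie_lie_eq]
    refine add_mem ?_ (neg_mem ?_)
    · have := Zs_x (ih hu) hx'
      rwa [add_assoc, add_assoc] at this
    · have := ih (Zs_x hu hx')
      have e : n + 1 + n' = n + (n' + 1) := by omega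
      have e' : b + 1 + b' = b + (b' + 1) := by omega
      rwa [e, e'] at this

/-- All words with `M` arbitrary letters and at least seven letters `y` vanish. -/
def Hyp (H : L → Prop) (y : L) (M : ℕ) : Prop :=
  ∀ n u, Wd H y n M u → M + 7 ≤ n → u = 0

theorem Wd.act {n b : ℕ} {u : L} (hu : Wd H y n b u) (s : List (Option L))
    (hs : ∀ x, some x ∈ s → H x) : Wd H y (n + cY s + cX s) (b + cX s) (act y s u) := by
  induction s generalizing n b u with
  | nil => simpa [E802.act, cY, cX] using hu
  | cons a s ih =>
    cases a with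
    | none =>
      have := ih (Wd.my hu) (fun x hx => hs x (by simp [hx]))
      simp only [E802.act, cY, cX]
      have e : n + 1 + cY s + cX s = n + (cY s + 1) + cX s := by omega
      rwa [e] at this
    | some x =>
      have := ih (Wd.mx hu (hs x (by simp))) (fun x hx => hs x (by simp [hx]))
      simp only [E802.act, cY, cX]
      have e : n + 1 + cY s + cX s = n + cY s + (cX s + 1) := by omega
      have e' : b + 1 + cX s = b + (cX s + 1) := by omega
      rwa [e, e'] at this

theorem Zs_hyp (hM : Hyp H y M) {n b : ℕ} {u : L} (hu : Wd H y n b u) :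
    u ∈ Zs H y (M + 1) (n + 1) (b + 1) := by
  intro s h1 h2 h3
  have h := hu.act s h1
  have e : b + cX s = M := by omega
  rw [e] at h
  exact hM _ _ h (by omega)

theorem Wd.mem_H (hz : H 0) (hy : H y) (hb : ∀ u v, H u → H v → H ⁅u, v⁆) {n b : ℕ} {u : L}
    (hu : Wd H y n b u) : H u := by
  induction hu with
  | zero => exact hz
  | y => exact hy
  | atom x hx => exact hx
  | my _ ih => exact hb _ _ ih hy
  | mx _ hx ih => exact hb _ _ ih hx

theorem Wd.one_zero {u : L} (hu : Wd H y 1 0 u) : u = y ∨ u = 0 := by
  generalize hn : (1 : ℕ) = n at hu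
  generalize hb : (0 : ℕ) = b at hu
  induction hu with
  | zero => exact Or.inr rfl
  | y => exact Or.inl rfl
  | atom x hx => omega
  | @my n b u hu _ =>
    have hn' : n = 0 := by omega
    subst hn' hb
    right
    -- weight zero words vanish
    have : ∀ (k c : ℕ) (w : L), Wd H y k c w → k = 0 → w = 0 := by
      intro k c w hw hk
      cases hw with
      | zero => rfl
      | y => omega
      | atom x hx => omega
      | my hw => omega
      | mx hw hx => omega
    rw [this _ _ _ hu rfl, zero_lie]
  | mx hu hx _ => omega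

theorem Wd.two_zero {n b : ℕ} {u : L} (hu : Wd H y n b u) (hb : b = 0) (hn : 2 ≤ n) : u = 0 := by
  induction hu with
  | zero => rfl
  | y => omega
  | atom x hx => omega
  | @my n b u hu ih =>
    subst hb
    by_cases h : 2 ≤ n
    · rw [ih rfl h, zero_lie]
    · have : n = 1 := by omega
      subst this
      rcases hu.one_zero with h | h
      · rw [h, lie_self]
      · rw [h, zero_lie]
  | mx hu hx _ => omega

theorem Hyp_zero : Hyp H y 0 := by
  intro n u hu hn
  exact hu.two_zero rfl (by omega)

end Pool.E802
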